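import Pool.Agent.K4H9.PN.Lin
import Pool.Agent.K4H9.PP.Div

set_option autoImplicit false

/-!
Divisibility of minors; forms in general position.
-/

namespace Pool.Agent.K4H9.PN

open Finset

variable {N q : ℕ}

/-- the largest coordinate -/
def nm (v : Fin N → ℤ) : ℕ := univ.sup fun j => (v j).natAbs

lemma natAbs_le_nm (v : Fin N → ℤ) (k : Fin N) : (v k).natAbs ≤ nm v :=
  Finset.le_sup (f := fun j => (v j).natAbs) (mem_univ k)

lemma exists_nm (hN : 1 ≤ N) (v : Fin N → ℤ) : ∃ k, (v k).natAbs = nm v := by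
  have : (univ : Finset (Fin N)).Nonempty := ⟨⟨0, hN⟩, mem_univ _⟩
  obtain ⟨k, -, hk⟩ := Finset.exists_mem_eq_sup univ this (fun j => (v j).natAbs)
  exact ⟨k, hk.symm⟩

lemma nm_pos {v : Fin N → ℤ} (h : v ≠ 0) : 1 ≤ nm v := by
  by_contra hcon
  apply h
  funext k
  have := natAbs_le_nm v k
  have h0 : (v k).natAbs = 0 := by omega
  simpa using h0

lemma nm_le {v : Fin N → ℤ} {Z : ℕ} (h : ∀ k, |v k| ≤ Z) : nm v ≤ Z := by
  refine Finset.sup_le fun k _ => ?_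
  have := h k
  rw [Int.abs_eq_natAbs] at this
  exact_mod_cast this

lemma abs_le_nm (v : Fin N → ℤ) (k : Fin N) : |v k| ≤ nm v := by
  have := natAbs_le_nm v k
  rw [Int.abs_eq_natAbs]
  exact_mod_cast this

/-- scalar product -/
def dot (u v : Fin N → ℤ) : ℤ := ∑ j, u j * v j

lemma dot_comm (u v : Fin N → ℤ) : dot u v = dot v u :=
  Finset.sum_congr rfl fun _ _ => mul_comm _ _

lemma dot_add (x y W : Fin N → ℤ) : dot (x + y) W = dot x W + dot y W := by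
  unfold dot
  rw [← Finset.sum_add_distrib]
  exact Finset.sum_congr rfl fun j _ => by simp [add_mul]

lemma dot_smul (c : ℤ) (x W : Fin N → ℤ) : dot (c • x) W = c * dot x W := by
  unfold dot
  rw [Finset.mul_sum]
  exact Finset.sum_congr rfl fun j _ => by simp [mul_assoc]

lemma dot_zero (W : Fin N → ℤ) : dot 0 W = 0 := by simp [dot]

lemma dot_abs {x ℓ : Fin N → ℤ} {H A : ℕ} (hx : ∀ k, |x k| ≤ A) (hℓ : ∀ k, |ℓ k| ≤ H) :
    |dot x ℓ| ≤ N * H * A := by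
  unfold dot
  calc |∑ j, x j * ℓ j| ≤ ∑ j, |x j * ℓ j| := Finset.abs_sum_le_sum_abs _ _
    _ ≤ ∑ _j : Fin N, (A : ℤ) * H := by
        refine Finset.sum_le_sum fun j _ => ?_
        rw [abs_mul]
        exact mul_le_mul (hx j) (hℓ j) (abs_nonneg _) (Int.natCast_nonneg A)
    _ = _ := by
        rw [Finset.sum_const, Finset.card_univ, Fintype.card_fin, nsmul_eq_mul]
        ring

/-- minors of two vectors -/
def mn (u v : Fin N → ℤ) (i j : Fin N) : ℤ := u i * v j - u j * v i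

lemma mn_swap (u v : Fin N → ℤ) (i j : Fin N) : mn u v j i = - mn u v i j := by
  unfold mn
  ring

lemma mn_smul (c : ℤ) (u v : Fin N → ℤ) (i j : Fin N) : mn (c • u) v i j = c * mn u v i j := by
  unfold mn
  simp only [Pi.smul_apply, smul_eq_mul]
  ring

lemma mn_add (u u' v : Fin N → ℤ) (i j : Fin N) : mn (u + u') v i j = mn u v i j + mn u' v i j := by
  unfold mn
  simp only [Pi.add_apply]
  ring

lemma mnr_two (x y : Fin N → ℤ) (J : Fin 2 → Fin N) : mnr ![x, y] J = mn x y (J 0) (J 1) := by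
  unfold mnr mn
  rw [Matrix.det_fin_two]
  simp only [Matrix.of_apply, Matrix.cons_val_zero, Matrix.cons_val_one]

lemma mnr_three (x y z : Fin N → ℤ) (J : Fin 3 → Fin N) : mnr ![x, y, z] J =
    x (J 0) * mn y z (J 1) (J 2) - x (J 1) * mn y z (J 0) (J 2) + x (J 2) * mn y z (J 0) (J 1) := by
  unfold mnr mn
  rw [Matrix.det_fin_three]
  simp only [Matrix.of_apply, Matrix.cons_val_zero, Matrix.cons_val_one, Matrix.cons_val]
  ring

lemma mnr_three' (x y z : Fin N → ℤ) (J : Fin 3 → Fin N) : mnr ![x, y, z] J =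
    z (J 0) * mn x y (J 1) (J 2) - z (J 1) * mn x y (J 0) (J 2) + z (J 2) * mn x y (J 0) (J 1) := by
  rw [mnr_three]
  unfold mn
  ring

lemma mnr_three'' (x y z : Fin N → ℤ) (J : Fin 3 → Fin N) : mnr ![x, y, z] J =
    - (y (J 0) * mn x z (J 1) (J 2) - y (J 1) * mn x z (J 0) (J 2) + y (J 2) * mn x z (J 0) (J 1)) := by
  rw [mnr_three]
  unfold mn
  ring

lemma det_rank_one {r : ℕ} (m : ℤ) (u y : Fin r → ℤ) (W : Fin r → Fin r → ℤ) :
    m ^ (r - 1) ∣ (Matrix.of fun a c => u a * y c + m * W a c).det := by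
  classical
  have h1 : (Matrix.of fun a c => u a * y c + m * W a c).det =
      (Matrix.detRowAlternating (R := ℤ) (n := Fin r))
        ((fun a => u a • y) + fun a => m • W a) := rfl
  rw [h1, AlternatingMap.map_add_univ]
  refine Finset.dvd_sum fun s _ => ?_
  have h2 : s.piecewise (fun a => u a • y) (fun a => m • W a) =
      fun a => (s.piecewise u (fun _ => m) a) • (s.piecewise (fun _ => y) W a) := by
    funext a
    by_cases ha : a ∈ s
    · simp [ha]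
    · simp [ha]
  rw [h2, AlternatingMap.map_smul_univ]
  by_cases hs : ∃ i ∈ s, ∃ j ∈ s, i ≠ j
  · obtain ⟨i, hi, j, hj, hij⟩ := hs
    rw [AlternatingMap.map_eq_zero_of_eq _ _ (by simp [hi, hj]) hij]
    simp
  · push Not at hs
    have hc : s.card ≤ 1 := Finset.card_le_one.2 hs
    rw [Finset.prod_piecewise, smul_eq_mul]
    refine Dvd.dvd.mul_right (Dvd.dvd.mul_left ?_ _) _
    rw [Finset.prod_const]
    refine pow_dvd_pow _ ?_
    have h3 : (univ \ s).card = r - s.card := by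
      rw [Finset.card_sdiff_of_subset (subset_univ s), Finset.card_univ, Fintype.card_fin]
    omega

lemma mnr_dvd {r : ℕ} {v : Fin r → Fin N → ℤ} {ℓ : Fin N → ℤ} {m : ℤ} {k : Fin N}
    (h : ∀ a i, m ∣ mn (v a) ℓ i k) (J : Fin r → Fin N) :
    m ^ (r - 1) ∣ (ℓ k) ^ r * mnr v J := by
  choose W hW using h
  have h1 : (ℓ k) ^ r * mnr v J =
      (Matrix.of fun a c => v a k * ℓ (J c) + m * W a (J c)).det := by
    have h2 : (Matrix.of fun a c => v a k * ℓ (J c) + m * W a (J c)) =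
        ℓ k • (Matrix.of fun a c => v a (J c)) := by
      ext a c
      simp only [Matrix.of_apply, Matrix.smul_apply, smul_eq_mul]
      have := hW a (J c)
      unfold mn at this
      linear_combination -this
    rw [h2, Matrix.det_smul, Fintype.card_fin]
    rfl
  rw [h1]
  exact det_rank_one m (fun a => v a k) (fun c => ℓ (J c)) (fun a c => W a (J c))

lemma mnr_prime {r : ℕ} {v : Fin r → Fin N → ℤ} {ℓ : Fin N → ℤ} {p : ℕ} (hp : p.Prime) {k : Fin N}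
    (hk : ¬ (p : ℤ) ∣ ℓ k) (h : ∀ a i, (p : ℤ) ^ 2 ∣ mn (v a) ℓ i k) (J : Fin r → Fin N) :
    (p : ℤ) ^ (2 * (r - 1)) ∣ mnr v J := by
  have h1 := mnr_dvd h J
  rw [← pow_mul] at h1
  exact PP.dvd_cancel hp hk _ r h1

/-- two directions -/
lemma dvd_of_two {V a b : Fin N → ℤ} {m : ℤ} (ha : ∀ i j, m ∣ mn V a i j)
    (hb : ∀ i j, m ∣ mn V b i j) (k i j : Fin N) : m ∣ V k * mn a b i j := by
  have h1 : V k * mn a b i j = a k * mn V b i j + b j * mn V a k i - b i * mn V a k j := by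
    unfold mn
    ring
  rw [h1]
  exact dvd_sub (dvd_add (Dvd.dvd.mul_left (hb i j) _) (Dvd.dvd.mul_left (ha k i) _))
    (Dvd.dvd.mul_left (ha k j) _)

/-- three directions -/
lemma dvd_of_t3 {Y a b c : Fin N → ℤ} {m : ℤ} (ha : ∀ i j, m ∣ mn Y a i j) {J : Fin 3 → Fin N}
    (h0 : mnr ![Y, b, c] J = 0) (k : Fin N) : m ∣ Y k * mnr ![a, b, c] J := by
  have h1 : Y k * mnr ![a, b, c] J = a k * mnr ![Y, b, c] J +
      (mn Y a k (J 0) * mn b c (J 1) (J 2) - mn Y a k (J 1) * mn b c (J 0) (J 2) +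
        mn Y a k (J 2) * mn b c (J 0) (J 1)) := by
    rw [mnr_three, mnr_three]
    unfold mn
    ring
  rw [h1, h0, mul_zero, zero_add]
  exact dvd_add (dvd_sub (Dvd.dvd.mul_right (ha _ _) _) (Dvd.dvd.mul_right (ha _ _) _))
    (Dvd.dvd.mul_right (ha _ _) _)

lemma dvd_t3_left {Y a b : Fin N → ℤ} {m : ℤ} (ha : ∀ i j, m ∣ mn Y a i j) (J : Fin 3 → Fin N) :
    m ∣ mnr ![Y, a, b] J := by
  rw [mnr_three']
  exact dvd_add (dvd_sub (Dvd.dvd.mul_left (ha _ _) _) (Dvd.dvd.mul_left (ha _ _) _))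
    (Dvd.dvd.mul_left (ha _ _) _)

lemma dvd_t3_right {Y a b : Fin N → ℤ} {m : ℤ} (hb : ∀ i j, m ∣ mn Y b i j) (J : Fin 3 → Fin N) :
    m ∣ mnr ![Y, a, b] J := by
  rw [mnr_three'']
  refine Dvd.dvd.neg_right ?_
  exact dvd_add (dvd_sub (Dvd.dvd.mul_left (hb _ _) _) (Dvd.dvd.mul_left (hb _ _) _))
    (Dvd.dvd.mul_left (hb _ _) _)

/-- the content divides `g` -/
def Cont (g : ℕ) (z : Fin N → ℤ) : Prop := z ≠ 0 ∧ ∀ d : ℤ, (∀ k, d ∣ z k) → d ∣ g

lemma Cont.prime {z : Fin N → ℤ} (h : Cont 1 z) {p : ℕ} (hp : p.Prime) : ¬ ∀ k, (p : ℤ) ∣ z k := by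
  intro hk
  have h1 : ((p : ℕ) : ℤ) ∣ ((1 : ℕ) : ℤ) := h.2 p hk
  have h2 : p ∣ 1 := by exact_mod_cast h1
  exact hp.one_lt.ne' (Nat.dvd_one.1 h2)

lemma bezout (z : Fin N → ℤ) (hz : z ≠ 0) : ∃ (a : Fin N → ℤ) (D : ℤ), D ≠ 0 ∧ dot a z = D ∧
    ∀ k, D ∣ z k := by
  obtain ⟨D, hD⟩ := (IsPrincipalIdealRing.principal (Ideal.span (Set.range z))).principal
  have h1 : ∀ k, D ∣ z k := by
    intro k
    have h2 : z k ∈ Ideal.span (Set.range z) := Ideal.subset_span ⟨k, rfl⟩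
    rw [hD] at h2
    exact Ideal.mem_span_singleton.1 h2
  have h3 : D ∈ Ideal.span (Set.range z) := by
    rw [hD]
    exact Submodule.mem_span_singleton_self D
  obtain ⟨c, hc⟩ := (Ideal.mem_span_range_iff_exists_fun).1 h3
  refine ⟨c, D, ?_, hc, h1⟩
  rintro rfl
  apply hz
  funext k
  exact zero_dvd_iff.1 (h1 k)

/-- all that we need about hyperplanes in general position -/
structure GP (ℓ : Fin q → Fin N → ℤ) (Θ H : ℕ) : Prop where
  N3 : 3 ≤ N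
  qN : N ≤ q
  Θ1 : 1 ≤ Θ
  H1 : 1 ≤ H
  bd : ∀ i k, |ℓ i k| ≤ H
  d : ∀ s : Fin N → Fin q, Function.Injective s → (Matrix.of fun a b => ℓ (s a) b).det ≠ 0 ∧
    (Matrix.of fun a b => ℓ (s a) b).det ∣ Θ
  t : ∀ i j k, i ≠ j → i ≠ k → j ≠ k → ∃ J : Fin 3 → Fin N, mnr ![ℓ i, ℓ j, ℓ k] J ≠ 0 ∧
    mnr ![ℓ i, ℓ j, ℓ k] J ∣ Θ
  c : ∀ i j, i ≠ j → ∃ k k', mn (ℓ i) (ℓ j) k k' ≠ 0 ∧ mn (ℓ i) (ℓ j) k k' ∣ Θ
  l : ∀ i, ∃ k, ℓ i k ≠ 0 ∧ ℓ i k ∣ Θ

lemma li_sub {ℓ : Fin q → Fin N → ℤ} (hqN : N ≤ q)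
    (hd : ∀ s : Fin N → Fin q, Function.Injective s → (Matrix.of fun a b => ℓ (s a) b).det ≠ 0)
    {r : ℕ} (f : Fin r → Fin q) (hf : Function.Injective f) (hr : r ≤ N) :
    LinearIndependent ℤ (fun a => ℓ (f a)) := by
  classical
  obtain ⟨I, hI1, -, hI2⟩ := Finset.exists_subsuperset_card_eq
    (subset_univ (univ.image f)) (n := N) (by
      rw [Finset.card_image_of_injective _ hf, Finset.card_univ, Fintype.card_fin]; exact hr) (by
      rw [Finset.card_univ, Fintype.card_fin]; exact hqN)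
  set s : Fin N → Fin q := fun a => I.orderEmbOfFin hI2 a with hs
  have hsi : Function.Injective s := (I.orderEmbOfFin hI2).injective
  have hli : LinearIndependent ℤ (fun a => ℓ (s a)) :=
    Matrix.linearIndependent_rows_of_det_ne_zero (A := Matrix.of fun a b => ℓ (s a) b) (hd s hsi)
  have hex : ∀ a, ∃ b, s b = f a := by
    intro a
    have h1 : f a ∈ I := hI1 (mem_image_of_mem f (mem_univ a))
    have h2 : f a ∈ Set.range (I.orderEmbOfFin hI2) := by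
      rw [Finset.range_orderEmbOfFin]
      exact h1
    obtain ⟨b, hb⟩ := h2
    exact ⟨b, hb⟩
  choose e he using hex
  have h1 : (fun a => ℓ (f a)) = (fun a => ℓ (s a)) ∘ e := by
    funext a
    rw [Function.comp_apply, he]
  rw [h1]
  refine hli.comp _ fun a b hab => hf ?_
  rw [← he a, ← he b, hab]

lemma inj3 {i j k : Fin q} (hij : i ≠ j) (hik : i ≠ k) (hjk : j ≠ k) :
    Function.Injective ![i, j, k] := by
  intro a b hab
  fin_cases a <;> fin_cases b <;> simp_all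

lemma inj2 {i j : Fin q} (hij : i ≠ j) : Function.Injective ![i, j] := by
  intro a b hab
  fin_cases a <;> fin_cases b <;> simp_all

lemma exists_mult {ι : Type*} [Fintype ι] (f : ι → ℤ) :
    ∃ Θ : ℕ, 1 ≤ Θ ∧ ∀ i, f i ≠ 0 → f i ∣ Θ := by
  classical
  refine ⟨∏ i, PP.nz (f i), Finset.prod_pos fun i _ => PP.nz_pos _, fun i hi => ?_⟩
  refine (PP.dvd_nz hi).trans ?_
  have : PP.nz (f i) ∣ ∏ i, PP.nz (f i) := Finset.dvd_prod_of_mem (fun i => PP.nz (f i)) (mem_univ i)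
  exact_mod_cast this

theorem exists_GP (hN : 3 ≤ N) (hq : N ≤ q) (ℓ : Fin q → Fin N → ℤ)
    (hd : ∀ s : Fin N → Fin q, Function.Injective s → (Matrix.of fun a b => ℓ (s a) b).det ≠ 0) :
    ∃ Θ H, GP ℓ Θ H := by
  classical
  obtain ⟨Θ₁, h11, h12⟩ := exists_mult (fun s : Fin N → Fin q => (Matrix.of fun a b => ℓ (s a) b).det)
  obtain ⟨Θ₂, h21, h22⟩ := exists_mult (fun a : (Fin q × Fin q) × Fin q × (Fin 3 → Fin N) =>
    mnr ![ℓ a.1.1, ℓ a.1.2, ℓ a.2.1] a.2.2)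
  obtain ⟨Θ₃, h31, h32⟩ := exists_mult (fun a : (Fin q × Fin q) × Fin N × Fin N =>
    mn (ℓ a.1.1) (ℓ a.1.2) a.2.1 a.2.2)
  obtain ⟨Θ₄, h41, h42⟩ := exists_mult (fun a : Fin q × Fin N => ℓ a.1 a.2)
  have hcast : ∀ (x : ℤ) (a b : ℕ), x ∣ (a : ℤ) → a ∣ b → x ∣ (b : ℤ) := fun x a b h1 h2 =>
    h1.trans (Int.natCast_dvd_natCast.2 h2)
  have d1 : Θ₁ ∣ Θ₁ * Θ₂ * (Θ₃ * Θ₄) := ⟨Θ₂ * (Θ₃ * Θ₄), by ring⟩
  have d2 : Θ₂ ∣ Θ₁ * Θ₂ * (Θ₃ * Θ₄) := ⟨Θ₁ * (Θ₃ * Θ₄), by ring⟩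
  have d3 : Θ₃ ∣ Θ₁ * Θ₂ * (Θ₃ * Θ₄) := ⟨Θ₁ * Θ₂ * Θ₄, by ring⟩
  have d4 : Θ₄ ∣ Θ₁ * Θ₂ * (Θ₃ * Θ₄) := ⟨Θ₁ * Θ₂ * Θ₃, by ring⟩
  obtain ⟨H, hH⟩ : ∃ H : ℕ, H = 1 + ∑ a : Fin q × Fin N, (ℓ a.1 a.2).natAbs := ⟨_, rfl⟩
  refine ⟨Θ₁ * Θ₂ * (Θ₃ * Θ₄), H, hN, hq, ?_, by omega, ?_, ?_, ?_, ?_, ?_⟩
  · exact Nat.mul_pos (Nat.mul_pos h11 h21) (Nat.mul_pos h31 h41)
  · intro i k
    have := Finset.single_le_sum (f := fun a : Fin q × Fin N => (ℓ a.1 a.2).natAbs)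
      (fun _ _ => Nat.zero_le _) (mem_univ (i, k))
    simp only at this
    rw [Int.abs_eq_natAbs]
    omega
  · intro s hs
    exact ⟨hd s hs, hcast _ _ _ (h12 s (hd s hs)) d1⟩
  · intro i j k hij hik hjk
    have h1 := li_sub hq hd ![i, j, k] (inj3 hij hik hjk) hN
    obtain ⟨J, hJ⟩ := exists_minor h1
    have h2 : (fun a => ℓ (![i, j, k] a)) = ![ℓ i, ℓ j, ℓ k] := by
      funext a
      fin_cases a <;> rfl
    rw [h2] at hJ
    exact ⟨J, hJ, hcast _ _ _ (h22 ((i, j), k, J) hJ) d2⟩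
  · intro i j hij
    have h1 := li_sub hq hd ![i, j] (inj2 hij) (by omega)
    obtain ⟨J, hJ⟩ := exists_minor h1
    have h2 : (fun a => ℓ (![i, j] a)) = ![ℓ i, ℓ j] := by
      funext a
      fin_cases a <;> rfl
    rw [h2, mnr_two] at hJ
    exact ⟨J 0, J 1, hJ, hcast _ _ _ (h32 ((i, j), J 0, J 1) hJ) d3⟩
  · intro i
    obtain ⟨k, hk⟩ : ∃ k, ℓ i k ≠ 0 := by
      by_contra hcon
      push Not at hcon
      have h1 := li_sub hq hd ![i] (by
        intro a b _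
        exact Subsingleton.elim a b) (by omega)
      apply h1.ne_zero 0
      funext k
      exact hcon k
    exact ⟨k, hk, hcast _ _ _ (h42 (i, k) hk) d4⟩

section

variable {ℓ : Fin q → Fin N → ℤ} {Θ H : ℕ}

lemma GP.exists_l (g : GP ℓ Θ H) {p : ℕ} (hp : ¬ p ∣ Θ) (i : Fin q) :
    ∃ k, ¬ (p : ℤ) ∣ ℓ i k := by
  obtain ⟨k, -, hk⟩ := g.l i
  exact ⟨k, fun h => hp (by exact_mod_cast h.trans hk)⟩

lemma GP.exists_c (g : GP ℓ Θ H) {p : ℕ} (hp : ¬ p ∣ Θ) {i j : Fin q} (hij : i ≠ j) :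
    ∃ k k', ¬ (p : ℤ) ∣ mn (ℓ i) (ℓ j) k k' := by
  obtain ⟨k, k', -, hk⟩ := g.c i j hij
  exact ⟨k, k', fun h => hp (by exact_mod_cast h.trans hk)⟩

lemma GP.exists_t (g : GP ℓ Θ H) {p : ℕ} (hp : ¬ p ∣ Θ) {i j k : Fin q} (hij : i ≠ j)
    (hik : i ≠ k) (hjk : j ≠ k) : ∃ J, ¬ (p : ℤ) ∣ mnr ![ℓ i, ℓ j, ℓ k] J := by
  obtain ⟨J, -, hJ⟩ := g.t i j k hij hik hjk
  exact ⟨J, fun h => hp (by exact_mod_cast h.trans hJ)⟩

end

lemma span_dvd {T : Set (Fin N → ℤ)} (f : (Fin N → ℤ) → ℤ) (hadd : ∀ x y, f (x + y) = f x + f y)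
    (hsmul : ∀ (c : ℤ) x, f (c • x) = c * f x) {m : ℤ} (h : ∀ x ∈ T, m ∣ f x) :
    ∀ x ∈ Submodule.span ℤ T, m ∣ f x := by
  intro x hx
  induction hx using Submodule.span_induction with
  | mem x hx => exact h x hx
  | zero =>
    have := hsmul 0 0
    rw [zero_smul, zero_mul] at this
    rw [this]
    exact dvd_zero _
  | add x y _ _ hx hy =>
    rw [hadd]
    exact dvd_add hx hy
  | smul c x _ hx =>
    rw [hsmul]
    exact Dvd.dvd.mul_left hx _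

lemma span_mn {T : Set (Fin N → ℤ)} {ℓ : Fin N → ℤ} {m : ℤ} (h : ∀ x ∈ T, ∀ i j, m ∣ mn x ℓ i j) :
    ∀ x ∈ Submodule.span ℤ T, ∀ i j, m ∣ mn x ℓ i j := fun x hx i j =>
  span_dvd (fun x => mn x ℓ i j) (fun x y => mn_add x y ℓ i j) (fun c x => mn_smul c x ℓ i j)
    (fun x hx => h x hx i j) x hx

lemma span_dot {T : Set (Fin N → ℤ)} {W : Fin N → ℤ} {m : ℤ} (h : ∀ x ∈ T, m ∣ dot x W) :
    ∀ x ∈ Submodule.span ℤ T, m ∣ dot x W :=
  span_dvd (fun x => dot x W) (fun x y => dot_add x y W) (fun c x => dot_smul c x W) h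

/-- Cramer's rule -/
lemma cramer_dvd (A : Fin N → Fin N → ℤ) (z : Fin N → ℤ) {m : ℤ}
    (h : ∀ a, m ∣ dot z (A a)) (k : Fin N) : m ∣ (Matrix.of A).det * z k := by
  have h1 : (Matrix.of A).adjugate.mulVec ((Matrix.of A).mulVec z) = (Matrix.of A).det • z := by
    rw [Matrix.mulVec_mulVec, Matrix.adjugate_mul, Matrix.smul_mulVec, Matrix.one_mulVec]
  have h2 := congrFun h1 k
  rw [Pi.smul_apply, smul_eq_mul] at h2
  rw [← h2]
  have h4 : ∀ a, (Matrix.of A).mulVec z a = dot z (A a) := by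
    intro a
    unfold Matrix.mulVec dotProduct dot
    exact Finset.sum_congr rfl fun i _ => by
      show A a i * z i = z i * A a i
      ring
  have h5 : (Matrix.of A).adjugate.mulVec ((Matrix.of A).mulVec z) k =
      ∑ a, (Matrix.of A).adjugate k a * (Matrix.of A).mulVec z a := rfl
  rw [h5]
  refine Finset.dvd_sum fun a _ => Dvd.dvd.mul_left ?_ _
  rw [h4]
  exact h a

/-- the indices of the largest values -/
lemma exists_top {α : Type*} [LinearOrder α] (a : Fin q → α) (n : ℕ) (hn : n ≤ q) :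
    ∃ I : Finset (Fin q), I.card = n ∧ ∀ i ∈ I, ∀ l, l ∉ I → a l ≤ a i := by
  classical
  induction n with
  | zero => exact ⟨∅, rfl, by simp⟩
  | succ n ih =>
    obtain ⟨I, hI, h⟩ := ih (by omega)
    have hne : (univ \ I).Nonempty := by
      rw [← Finset.card_pos, Finset.card_sdiff_of_subset (subset_univ I), Finset.card_univ,
        Fintype.card_fin]
      omega
    obtain ⟨j, hj, hmax⟩ := Finset.exists_max_image (univ \ I) a hne
    have hjI : j ∉ I := (mem_sdiff.1 hj).2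
    refine ⟨insert j I, by rw [Finset.card_insert_of_notMem hjI, hI], fun i hi l hl => ?_⟩
    rw [mem_insert, not_or] at hl
    rcases mem_insert.1 hi with rfl | hi
    · exact hmax l (mem_sdiff.2 ⟨mem_univ l, hl.2⟩)
    · exact h i hi l hl.2

end Pool.Agent.K4H9.PN
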