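import Pool.Agent.K4H9.PN.Div
import Pool.Agent.K4H9.PP.Cnt

set_option autoImplicit false

/-!
Fibres: primitive integer points in a box with minors divisible by squares of primes.
-/

namespace Pool.Agent.K4H9.PN

open Finset

variable {N q : ℕ} {ℓ : Fin q → Fin N → ℤ} {Θ H : ℕ}

/-- the constant of the dimension -/
def CN (N : ℕ) : ℕ := (3 * (N + 1)) ^ N

lemma CN_pos (N : ℕ) : 1 ≤ CN N := Nat.one_le_pow _ _ (by omega)

/-- rank zero or one -/
lemma card_rank_one (T : Finset (Fin N → ℤ)) (hT : ∀ z ∈ T, Cont 1 z) {r : ℕ} (hr : r ≤ 1)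
    {v : Fin r → Fin N → ℤ} (hv : ∀ z ∈ T, ∃ c : Fin r → ℤ, z = ∑ a, c a • v a) : T.card ≤ 2 := by
  classical
  interval_cases r
  · have : T = ∅ := by
      rw [Finset.eq_empty_iff_forall_notMem]
      intro z hz
      obtain ⟨c, hc⟩ := hv z hz
      exact (hT z hz).1 (by rw [hc]; simp)
    rw [this]
    simp
  · have h1 : T ⊆ {v 0, - v 0} := by
      intro z hz
      obtain ⟨c, hc⟩ := hv z hz
      rw [Fin.sum_univ_one] at hc
      have h2 : c 0 ∣ ((1 : ℕ) : ℤ) := (hT z hz).2 _ fun k => by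
        rw [hc, Pi.smul_apply, smul_eq_mul]
        exact Dvd.intro _ rfl
      have h3 : IsUnit (c 0) := isUnit_of_dvd_one (by simpa using h2)
      rw [mem_insert, mem_singleton]
      rcases Int.isUnit_iff.1 h3 with h | h
      · left; rw [hc, h, one_smul]
      · right; rw [hc, h, neg_one_smul]
    exact (Finset.card_le_card h1).trans Finset.card_le_two

/-- the product of the tuple to a power divides the minors -/
lemma span_pow (g : GP ℓ Θ H) (t : Fin q → ℕ) (hsq : Squarefree (∏ l, t l))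
    (hco : (∏ l, t l).Coprime Θ) (T : Set (Fin N → ℤ))
    (hT : ∀ Y ∈ T, ∀ l, ∀ p : ℕ, p.Prime → p ∣ t l → ∀ i j, (p : ℤ) ^ 2 ∣ mn Y (ℓ l) i j)
    {r : ℕ} {v : Fin r → Fin N → ℤ} (hv : ∀ a, v a ∈ Submodule.span ℤ T) (J : Fin r → Fin N) :
    ((∏ l, t l : ℕ) : ℤ) ^ (2 * (r - 1)) ∣ mnr v J := by
  refine PP.sqf_dvd hsq _ fun p hp hps => ?_
  have hpΘ : ¬ p ∣ Θ := fun h => hp.one_lt.ne' (Nat.dvd_one.1 (hco ▸ Nat.dvd_gcd hps h))
  obtain ⟨l, -, hl⟩ := (hp.prime.dvd_finsetProd_iff _).1 hps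
  obtain ⟨k, hk⟩ := g.exists_l hpΘ l
  exact mnr_prime hp hk (fun a i => span_mn (fun Y hY => hT Y hY l p hp hl) (v a) (hv a) i k) J

lemma fib0 (g : GP ℓ Θ H) {M Z : ℕ} (hM : 1 ≤ M) (t : Fin q → ℕ)
    (hsq : Squarefree (∏ l, t l)) (hco : (∏ l, t l).Coprime Θ) (hZ : 1 ≤ Z)
    (hZM : Z < M * ∏ l, t l) (T : Finset (Fin N → ℤ)) (hT : ∀ Y ∈ T, Cont 1 Y ∧
      (∀ k, |Y k| ≤ Z) ∧
      ∀ l, ∀ p : ℕ, p.Prime → p ∣ t l → ∀ i j, (p : ℤ) ^ 2 ∣ mn Y (ℓ l) i j) :
    T.card ≤ 2 + CN N * M ^ (2 * N) := by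
  obtain ⟨r, v, hrN, hv, hli, hvT, hcard⟩ := packR T (fun _ => Z) (fun _ => hZ)
    (fun z hz k => (hT z hz).2.1 k)
  rcases Nat.lt_or_ge 1 r with hr | hr
  · obtain ⟨J, hJ⟩ := exists_minor hli
    have h1 := span_pow g t hsq hco (T : Set (Fin N → ℤ)) (fun Y hY => (hT Y hY).2.2) hv J
    set s := ∏ l, t l with hs
    have hs1 : 1 ≤ s := Nat.pos_of_ne_zero hsq.ne_zero
    have h2 : s ^ (2 * (r - 1)) ≤ (mnr v J).natAbs := by
      have h3 : s ^ (2 * (r - 1)) ∣ (mnr v J).natAbs := by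
        rw [← Int.natCast_dvd]
        exact_mod_cast h1
      exact Nat.le_of_dvd (by omega) h3
    have h3 := hcard J
    rw [Finset.prod_const, Finset.card_univ, Fintype.card_fin] at h3
    have h4 : Z ^ r ≤ M ^ (2 * N) * s ^ (2 * (r - 1)) := by
      calc Z ^ r ≤ (M * s) ^ r := Nat.pow_le_pow_left hZM.le r
        _ = M ^ r * s ^ r := mul_pow _ _ _
        _ ≤ M ^ (2 * N) * s ^ (2 * (r - 1)) :=
            Nat.mul_le_mul (Nat.pow_le_pow_right hM (by omega)) (Nat.pow_le_pow_right hs1 (by omega))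
    have h5 : T.card * s ^ (2 * (r - 1)) ≤ (CN N * M ^ (2 * N)) * s ^ (2 * (r - 1)) := by
      calc T.card * s ^ (2 * (r - 1)) ≤ T.card * (mnr v J).natAbs := by gcongr
        _ ≤ CN N * Z ^ r := h3
        _ ≤ CN N * (M ^ (2 * N) * s ^ (2 * (r - 1))) := by gcongr
        _ = _ := by ring
    have := Nat.le_of_mul_le_mul_right h5 (by positivity)
    omega
  · have := card_rank_one T (fun z hz => (hT z hz).1) hr hvT
    omega

lemma t3_zero {a b c X Y : Fin N → ℤ} {D a1 a2 b1 b2 c1 c2 : ℤ}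
    (ha : ∀ m, D * a m = a1 * X m + a2 * Y m) (hb : ∀ m, D * b m = b1 * X m + b2 * Y m)
    (hc : ∀ m, D * c m = c1 * X m + c2 * Y m) (J : Fin 3 → Fin N) :
    D ^ 3 * mnr ![a, b, c] J = 0 := by
  have h1 : D ^ 3 * mnr ![a, b, c] J =
      (D * a (J 0)) * ((D * b (J 1)) * (D * c (J 2)) - (D * b (J 2)) * (D * c (J 1))) -
      (D * a (J 1)) * ((D * b (J 0)) * (D * c (J 2)) - (D * b (J 2)) * (D * c (J 0))) +
      (D * a (J 2)) * ((D * b (J 0)) * (D * c (J 1)) - (D * b (J 1)) * (D * c (J 0))) := by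
    rw [mnr_three]
    unfold mn
    ring
  rw [h1]
  simp only [ha, hb, hc]
  ring

/-- the second kind of fibre -/
lemma fibB (g : GP ℓ Θ H) {M Z C₁ : ℕ} (hZ : 1 ≤ Z) (hC₁1 : 1 ≤ C₁) (t : Fin q → ℕ)
    (hsq : Squarefree (∏ l, t l)) (hco : (∏ l, t l).Coprime Θ)
    (hZM : Z < M * ((∏ l, t l) * (∏ l, t l).minFac)) (hC₁ : Z ^ 3 ≤ C₁ * (∏ l, t l) ^ 4)
    (h3 : ∃ i j k, i ≠ j ∧ i ≠ k ∧ j ≠ k ∧ t i ≠ 1 ∧ t j ≠ 1 ∧ t k ≠ 1)
    (T : Finset (Fin N → ℤ)) (hT : ∀ Y ∈ T, Cont 1 Y ∧ (∀ k, |Y k| ≤ Z) ∧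
      (∀ l, ∀ p : ℕ, p.Prime → p ∣ t l → ∀ i j, (p : ℤ) ^ 2 ∣ mn Y (ℓ l) i j)) :
    T.card ≤ 2 + CN N * C₁ ^ N + 3 * H * M ^ 2 * CN N := by
  obtain ⟨r, v, hrN, hv, hli, hvT, hcard⟩ := packR T (fun _ => Z) (fun _ => hZ)
    (fun z hz k => (hT z hz).2.1 k)
  set s := ∏ l, t l with hs
  have hs0 : s ≠ 0 := hsq.ne_zero
  have hs1 : 1 ≤ s := Nat.pos_of_ne_zero hs0
  have hpow := fun J => span_pow g t hsq hco (T : Set (Fin N → ℤ)) (fun Y hY => (hT Y hY).2.2) hv J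
  have hnd : ∀ p : ℕ, p.Prime → p ∣ s → ¬ p ∣ Θ := by
    intro p hp h h'
    exact hp.one_lt.ne' (Nat.dvd_one.1 (hco ▸ Nat.dvd_gcd h h'))
  rcases Nat.lt_or_ge 1 r with hr | hr
  swap
  · have := card_rank_one T (fun z hz => (hT z hz).1) hr hvT
    omega
  rcases Nat.lt_or_ge 2 r with hr2 | hr2
  · -- rank at least three
    obtain ⟨J, hJ⟩ := exists_minor hli
    have h1 := hpow J
    have h2 : s ^ (2 * (r - 1)) ≤ (mnr v J).natAbs := by
      have h3 : s ^ (2 * (r - 1)) ∣ (mnr v J).natAbs := by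
        rw [← Int.natCast_dvd]
        exact_mod_cast h1
      exact Nat.le_of_dvd (by omega) h3
    have h3 := hcard J
    rw [Finset.prod_const, Finset.card_univ, Fintype.card_fin] at h3
    have h4 : Z ^ r ≤ C₁ ^ N * s ^ (2 * (r - 1)) := by
      have h5 : (Z ^ r) ^ 2 ≤ (C₁ ^ N * s ^ (2 * (r - 1))) ^ 2 := by
        calc (Z ^ r) ^ 2 = Z ^ (2 * r) := by rw [← pow_mul]; congr 1; ring
          _ ≤ Z ^ (3 * (r - 1)) := Nat.pow_le_pow_right hZ (by omega)
          _ = (Z ^ 3) ^ (r - 1) := by rw [pow_mul]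
          _ ≤ (C₁ * s ^ 4) ^ (r - 1) := Nat.pow_le_pow_left hC₁ _
          _ = C₁ ^ (r - 1) * (s ^ (2 * (r - 1))) ^ 2 := by
              rw [mul_pow, ← pow_mul, ← pow_mul]
              congr 2
              ring
          _ ≤ C₁ ^ (2 * N) * (s ^ (2 * (r - 1))) ^ 2 :=
              Nat.mul_le_mul_right _ (Nat.pow_le_pow_right hC₁1 (by omega))
          _ = _ := by rw [mul_pow, ← pow_mul C₁]; congr 2; ring
      exact (Nat.pow_le_pow_iff_left (by norm_num)).1 h5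
    have h5 : T.card * s ^ (2 * (r - 1)) ≤ (CN N * C₁ ^ N) * s ^ (2 * (r - 1)) := by
      calc T.card * s ^ (2 * (r - 1)) ≤ T.card * (mnr v J).natAbs := by gcongr
        _ ≤ CN N * Z ^ r := h3
        _ ≤ CN N * (C₁ ^ N * s ^ (2 * (r - 1))) := by gcongr
        _ = _ := by ring
    have h6 := Nat.le_of_mul_le_mul_right h5 (by positivity)
    have h7 := Nat.zero_le (3 * H * M ^ 2 * CN N)
    omega
  · obtain rfl : r = 2 := by omega
    have hvv : v = ![v 0, v 1] := by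
      funext a
      fin_cases a <;> rfl
    have hmn : ∀ i j, mnr v ![i, j] = mn (v 0) (v 1) i j := by
      intro i j
      rw [hvv, mnr_two]
      rfl
    obtain ⟨J, hJ⟩ := exists_minor hli
    have hJ2 : J = ![J 0, J 1] := by
      funext a
      fin_cases a <;> rfl
    rw [hJ2, hmn] at hJ
    have hdiv : ∀ i j, (s : ℤ) ^ 2 ∣ mn (v 0) (v 1) i j := by
      intro i j
      have := hpow ![i, j]
      rwa [hmn] at this
    choose P hP using hdiv
    obtain ⟨l, hl1, J', hlP⟩ : ∃ l, t l ≠ 1 ∧ ∃ J', mnr ![ℓ l, v 0, v 1] J' ≠ 0 := by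
      obtain ⟨i, j, k, hij, hik, hjk, hi, hj, hk⟩ := h3
      by_contra hcon
      push Not at hcon
      obtain ⟨J₀, hJ₀, -⟩ := g.t i j k hij hik hjk
      set D := mn (v 0) (v 1) (J 0) (J 1) with hD
      have hrel : ∀ l, t l ≠ 1 → ∀ m, D * ℓ l m = ℓ l (J 0) * mn (v 0) (v 1) m (J 1) +
          (-ℓ l (J 1)) * mn (v 0) (v 1) m (J 0) := by
        intro l hl m
        have h1 := hcon l hl ![m, J 0, J 1]
        rw [mnr_three] at h1
        simp only [Matrix.cons_val_zero, Matrix.cons_val_one, Matrix.cons_val] at h1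
        rw [hD]
        linear_combination h1
      have h1 := t3_zero (hrel i hi) (hrel j hj) (hrel k hk) J₀
      rcases mul_eq_zero.1 h1 with h2 | h2
      · exact hJ (pow_eq_zero_iff (by norm_num) |>.1 h2)
      · exact hJ₀ h2
    obtain ⟨p, hp, hpt⟩ := Nat.exists_prime_and_dvd hl1
    have hpsd : p ∣ s := hpt.trans (Finset.dvd_prod_of_mem t (mem_univ l))
    have hpΘ := hnd p hp hpsd
    obtain ⟨k', hk'⟩ := g.exists_l hpΘ l
    have hspan : ∀ a i, (p : ℤ) ^ 2 ∣ mn (v a) (ℓ l) i k' := fun a i =>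
      span_mn (T := (T : Set (Fin N → ℤ))) (fun Y hY => (hT Y hY).2.2 l p hp hpt) (v a) (hv a) i k'
    have h4 : (p : ℤ) ^ 4 ∣ mnr ![ℓ l, v 0, v 1] J' := by
      have := mnr_prime (v := ![ℓ l, v 0, v 1]) hp hk' (by
        intro a i
        fin_cases a
        · have h0 : mn (ℓ l) (ℓ l) i k' = 0 := by unfold mn; ring
          change (p : ℤ) ^ 2 ∣ mn (ℓ l) (ℓ l) i k'
          rw [h0]
          exact dvd_zero _
        · exact hspan 0 i
        · exact hspan 1 i) J'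
      exact this
    set X : ℤ := ℓ l (J' 0) * P (J' 1) (J' 2) - ℓ l (J' 1) * P (J' 0) (J' 2) +
      ℓ l (J' 2) * P (J' 0) (J' 1) with hX
    have h5 : mnr ![ℓ l, v 0, v 1] J' = (s : ℤ) ^ 2 * X := by
      rw [mnr_three, hP, hP, hP, hX]
      ring
    have hX0 : X ≠ 0 := by
      intro h0
      apply hlP
      rw [h5, h0, mul_zero]
    have h6 : (p : ℤ) ^ 2 ∣ X := by
      obtain ⟨r, hr⟩ := hpsd
      have hpr : ¬ p ∣ r := by
        intro hpr
        have : p * p ∣ s := by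
          rw [hr]
          exact Nat.mul_dvd_mul_left p hpr
        exact hp.one_lt.ne' (Nat.isUnit_iff.1 (hsq p this))
      rw [h5, hr] at h4
      have h7 : (p : ℤ) ^ 2 ∣ (r : ℤ) ^ 2 * X := by
        have hp0 : ((p : ℤ) ^ 2) ≠ 0 := by
          have := hp.pos
          positivity
        obtain ⟨e, he⟩ := h4
        refine ⟨e, mul_left_cancel₀ hp0 ?_⟩
        push_cast at he
        linear_combination he
      refine PP.dvd_cancel hp (a := (r : ℤ)) ?_ 2 2 h7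
      intro h8
      exact hpr (by exact_mod_cast h8)
    have hmin : s.minFac ≤ p := Nat.minFac_le_of_dvd hp.two_le hpsd
    have h7 : (p : ℤ) ^ 2 ≤ |X| := by
      have : |((p : ℤ) ^ 2)| ≤ |X| := Int.le_of_dvd (abs_pos.2 hX0) ((abs_dvd_abs _ _).2 h6)
      rwa [abs_of_nonneg (by positivity)] at this
    obtain ⟨a, b, hab⟩ : ∃ a b, (p : ℤ) ^ 2 ≤ 3 * H * |P a b| := by
      by_contra hcon
      push Not at hcon
      have hb := fun k a b => mul_le_mul_of_nonneg_right (g.bd l k) (abs_nonneg (P a b))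
      have h8 : |X| ≤ H * |P (J' 1) (J' 2)| + H * |P (J' 0) (J' 2)| + H * |P (J' 0) (J' 1)| := by
        rw [hX]
        calc _ ≤ |ℓ l (J' 0) * P (J' 1) (J' 2)| + |ℓ l (J' 1) * P (J' 0) (J' 2)| +
              |ℓ l (J' 2) * P (J' 0) (J' 1)| := by
              refine (abs_add_le _ _).trans (add_le_add_left ?_ _)
              exact abs_sub _ _
          _ ≤ _ := by
              rw [abs_mul, abs_mul, abs_mul]
              exact add_le_add (add_le_add (hb _ _ _) (hb _ _ _)) (hb _ _ _)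
      have e1 := hcon (J' 1) (J' 2)
      have e2 := hcon (J' 0) (J' 2)
      have e3 := hcon (J' 0) (J' 1)
      nlinarith
    have h8 := hcard ![a, b]
    rw [hmn, hP, Int.natAbs_mul, Int.natAbs_pow, Int.natAbs_natCast, Fin.prod_univ_two] at h8
    have hab' : p ^ 2 ≤ 3 * H * (P a b).natAbs := by
      rw [Int.abs_eq_natAbs] at hab
      exact_mod_cast hab
    have h10 : Z ^ 2 ≤ M ^ 2 * (s ^ 2 * p ^ 2) := by
      rw [← mul_pow, ← mul_pow]
      refine Nat.pow_le_pow_left (hZM.le.trans ?_) 2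
      gcongr
    have h11 : T.card * Z ^ 2 ≤ (3 * H * M ^ 2 * CN N) * Z ^ 2 := by
      calc T.card * Z ^ 2 ≤ T.card * (M ^ 2 * (s ^ 2 * p ^ 2)) := by gcongr
        _ ≤ T.card * (M ^ 2 * (s ^ 2 * (3 * H * (P a b).natAbs))) := by gcongr
        _ = 3 * H * M ^ 2 * (T.card * (s ^ 2 * (P a b).natAbs)) := by ring
        _ ≤ 3 * H * M ^ 2 * (CN N * (Z * Z)) := Nat.mul_le_mul_left _ h8
        _ = _ := by ring
    have h12 := Nat.le_of_mul_le_mul_right h11 (by positivity)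
    have h13 := Nat.zero_le (CN N * C₁ ^ N)
    omega

end Pool.Agent.K4H9.PN
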