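import Pool.Agent.K4H9.PN.Fib

set_option autoImplicit false

/-!
Points whose minors with the hyperplanes are divisible by many squares of primes.
-/

namespace Pool.Agent.K4H9.PN

open Finset

variable {N q : ℕ} {ℓ : Fin q → Fin N → ℤ} {Θ H : ℕ}

/-- the property of the lemma -/
def Gd (ℓ : Fin q → Fin N → ℤ) (Θ M Z : ℕ) (Y : Fin N → ℤ) : Prop :=
  Cont 1 Y ∧ (∀ k, |Y k| ≤ Z) ∧ (∀ l, ∃ i j, mn Y (ℓ l) i j ≠ 0) ∧
    ∃ s : ℕ, Squarefree s ∧ s.Coprime Θ ∧ Z < M * s ∧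
      ∀ p : ℕ, p.Prime → p ∣ s → ∃ l, ∀ i j, (p : ℤ) ^ 2 ∣ mn Y (ℓ l) i j

lemma exists_tup (hq : 1 ≤ q) {Y : Fin N → ℤ} {s : ℕ} (hs : Squarefree s)
    (h : ∀ p : ℕ, p.Prime → p ∣ s → ∃ l, ∀ i j, (p : ℤ) ^ 2 ∣ mn Y (ℓ l) i j) :
    ∃ t : Fin q → ℕ, ∏ l, t l = s ∧
      ∀ l, ∀ p : ℕ, p.Prime → p ∣ t l → ∀ i j, (p : ℤ) ^ 2 ∣ mn Y (ℓ l) i j := by
  classical
  have h1 : ∀ p : ℕ, ∃ l : Fin q, p.Prime → p ∣ s → ∀ i j, (p : ℤ) ^ 2 ∣ mn Y (ℓ l) i j := by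
    intro p
    by_cases hp : p.Prime ∧ p ∣ s
    · obtain ⟨l, hl⟩ := h p hp.1 hp.2
      exact ⟨l, fun _ _ => hl⟩
    · exact ⟨⟨0, hq⟩, fun h2 h3 => absurd ⟨h2, h3⟩ hp⟩
  choose a ha using h1
  refine ⟨fun l => ∏ p ∈ s.primeFactors with a p = l, p, ?_, ?_⟩
  · rw [Finset.prod_fiberwise]
    exact Nat.prod_primeFactors_of_squarefree hs
  · intro l p hp hpt
    obtain ⟨p', hp', hpp'⟩ := (hp.prime.dvd_finsetProd_iff _).1 hpt
    rw [mem_filter] at hp'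
    have he : p = p' := (Nat.prime_dvd_prime_iff_eq hp (Nat.prime_of_mem_primeFactors hp'.1)).1 hpp'
    subst he
    rw [← hp'.2]
    exact ha p hp (Nat.dvd_of_mem_primeFactors hp'.1)

lemma mn_le (g : GP ℓ Θ H) {Y : Fin N → ℤ} {Z : ℕ} (hY : ∀ k, |Y k| ≤ Z) (l : Fin q)
    (i j : Fin N) : |mn Y (ℓ l) i j| ≤ 2 * H * Z := by
  have h1 : ∀ a b : Fin N, |Y a * ℓ l b| ≤ Z * H := by
    intro a b
    rw [abs_mul]
    exact mul_le_mul (hY a) (g.bd l b) (abs_nonneg _) (Int.natCast_nonneg Z)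
  unfold mn
  calc |Y i * ℓ l j - Y j * ℓ l i| ≤ |Y i * ℓ l j| + |Y j * ℓ l i| := abs_sub _ _
    _ ≤ Z * H + Z * H := add_le_add (h1 i j) (h1 j i)
    _ = _ := by ring

lemma t3_le (g : GP ℓ Θ H) {Y : Fin N → ℤ} {Z : ℕ} (hY : ∀ k, |Y k| ≤ Z) (i j : Fin q)
    (J : Fin 3 → Fin N) : |mnr ![Y, ℓ i, ℓ j] J| ≤ 6 * H ^ 2 * Z := by
  have hcr : ∀ a b : Fin N, |mn (ℓ i) (ℓ j) a b| ≤ 2 * H * H := fun a b => mn_le g (g.bd i) j a b
  have hterm : ∀ k a b : Fin N, |Y k * mn (ℓ i) (ℓ j) a b| ≤ Z * (2 * H * H) := by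
    intro k a b
    rw [abs_mul]
    exact mul_le_mul (hY k) (hcr a b) (abs_nonneg _) (Int.natCast_nonneg Z)
  rw [mnr_three]
  calc _ ≤ |Y (J 0) * mn (ℓ i) (ℓ j) (J 1) (J 2)| + |Y (J 1) * mn (ℓ i) (ℓ j) (J 0) (J 2)| +
        |Y (J 2) * mn (ℓ i) (ℓ j) (J 0) (J 1)| :=
        (abs_add_le _ _).trans (add_le_add_left (abs_sub _ _) _)
    _ ≤ (Z : ℤ) * (2 * H * H) + Z * (2 * H * H) + Z * (2 * H * H) :=
        add_le_add (add_le_add (hterm _ _ _) (hterm _ _ _)) (hterm _ _ _)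
    _ = _ := by ring

lemma pairP (g : GP ℓ Θ H) {Y : Fin N → ℤ} {Z : ℕ} (hY : ∀ k, |Y k| ≤ Z) {i j : Fin q}
    {J : Fin 3 → Fin N} (h0 : mnr ![Y, ℓ i, ℓ j] J ≠ 0) {u : ℕ} (hu : Squarefree u)
    (h : ∀ p : ℕ, p.Prime → p ∣ u → (∀ a b, (p : ℤ) ^ 2 ∣ mn Y (ℓ i) a b) ∨
      (∀ a b, (p : ℤ) ^ 2 ∣ mn Y (ℓ j) a b)) : u ^ 2 ≤ 6 * H ^ 2 * Z := by
  have h1 : (u : ℤ) ^ 2 ∣ mnr ![Y, ℓ i, ℓ j] J := by
    refine PP.sqf_dvd hu 2 fun p hp hpu => ?_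
    rcases h p hp hpu with h2 | h2
    · exact dvd_t3_left h2 J
    · exact dvd_t3_right h2 J
  have h2 : (u : ℤ) ^ 2 ≤ |mnr ![Y, ℓ i, ℓ j] J| := by
    have : |((u : ℤ) ^ 2)| ≤ |mnr ![Y, ℓ i, ℓ j] J| := Int.le_of_dvd (abs_pos.2 h0)
      ((abs_dvd_abs _ _).2 h1)
    rwa [abs_of_nonneg (by positivity)] at this
  exact_mod_cast h2.trans (t3_le g hY i j J)

lemma single (g : GP ℓ Θ H) {Y : Fin N → ℤ} {Z : ℕ} (hY : ∀ k, |Y k| ≤ Z) {i : Fin q}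
    (h0 : ∃ a b, mn Y (ℓ i) a b ≠ 0) {u : ℕ} (hu : Squarefree u)
    (h : ∀ p : ℕ, p.Prime → p ∣ u → ∀ a b, (p : ℤ) ^ 2 ∣ mn Y (ℓ i) a b) : u ^ 2 ≤ 2 * H * Z := by
  obtain ⟨a, b, hab⟩ := h0
  have h1 : (u : ℤ) ^ 2 ∣ mn Y (ℓ i) a b := PP.sqf_dvd hu 2 fun p hp hpu => h p hp hpu a b
  have h2 : (u : ℤ) ^ 2 ≤ |mn Y (ℓ i) a b| := by
    have : |((u : ℤ) ^ 2)| ≤ |mn Y (ℓ i) a b| := Int.le_of_dvd (abs_pos.2 hab)
      ((abs_dvd_abs _ _).2 h1)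
    rwa [abs_of_nonneg (by positivity)] at this
  exact_mod_cast h2.trans (mn_le g hY i a b)

lemma caseA (g : GP ℓ Θ H) {M Z : ℕ} (hM : 1 ≤ M) (hZ : 1 ≤ Z) {i j : Fin q} (hij : i ≠ j)
    (T : Finset (Fin N → ℤ)) (hT : ∀ Y ∈ T, Gd ℓ Θ M Z Y ∧ ∀ J, mnr ![Y, ℓ i, ℓ j] J = 0) :
    T.card ≤ (2 + CN N * M ^ (2 * N)) * (2 * H * Z) := by
  classical
  have hex : ∀ Y ∈ T, ∃ t : Fin q → ℕ, Squarefree (∏ l, t l) ∧ (∏ l, t l).Coprime Θ ∧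
      Z < M * ∏ l, t l ∧ (∀ l, l ≠ i → l ≠ j → t l = 1) ∧
      ∀ l, ∀ p : ℕ, p.Prime → p ∣ t l → ∀ a b, (p : ℤ) ^ 2 ∣ mn Y (ℓ l) a b := by
    intro Y hY
    obtain ⟨⟨hY1, hY2, hY3, s, hs1, hs2, hs3, hs4⟩, h0⟩ := hT Y hY
    obtain ⟨t, ht1, ht2⟩ := exists_tup (by have := g.qN; have := g.N3; omega) hs1 hs4
    refine ⟨t, ht1 ▸ hs1, ht1 ▸ hs2, ht1 ▸ hs3, ?_, ht2⟩
    intro l hli hlj
    by_contra hne
    obtain ⟨p, hp, hpt⟩ := Nat.exists_prime_and_dvd hne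
    have hps : p ∣ s := by
      rw [← ht1]
      exact hpt.trans (Finset.dvd_prod_of_mem t (mem_univ l))
    have hpΘ : ¬ p ∣ Θ := fun h' => hp.one_lt.ne' (Nat.dvd_one.1 (hs2 ▸ Nat.dvd_gcd hps h'))
    have h1 : ∀ a b, (p : ℤ) ∣ mn Y (ℓ l) a b := fun a b =>
      (Dvd.intro _ (sq (p : ℤ)).symm).trans (ht2 l p hp hpt a b)
    obtain ⟨J, hJ⟩ := g.exists_t hpΘ hli hlj hij
    apply hY1.prime hp
    intro k
    have h2 := dvd_of_t3 h1 (h0 J) k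
    have hp' : Prime (p : ℤ) := Nat.prime_iff_prime_int.1 hp
    exact (hp'.dvd_or_dvd h2).resolve_right hJ
  choose! t h1 h2 h3 h4 h5 using hex
  set S := Nat.sqrt (2 * H * Z) with hS
  have hfib : ∀ c ∈ T.image t, (T.filter fun Y => t Y = c).card ≤ 2 + CN N * M ^ (2 * N) := by
    intro c hc
    obtain ⟨Y0, hY0, rfl⟩ := mem_image.1 hc
    refine fib0 g hM (t Y0) (h1 Y0 hY0) (h2 Y0 hY0) hZ (h3 Y0 hY0) _ fun Y hY => ?_
    rw [mem_filter] at hY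
    obtain ⟨⟨hY1, hY2, -⟩, -⟩ := hT Y hY.1
    exact ⟨hY1, hY2, hY.2 ▸ h5 Y hY.1⟩
  have hcard := Finset.card_le_mul_card_image_of_maps_to
    (fun Y hY => mem_image_of_mem t hY) _ hfib
  refine hcard.trans (Nat.mul_le_mul_left _ ?_)
  have himg : (T.image t).card ≤ (Icc 1 S ×ˢ Icc 1 S).card := by
    refine Finset.card_le_card_of_injOn (fun c => (c i, c j)) ?_ ?_
    · intro c hc
      obtain ⟨Y, hY, rfl⟩ := mem_image.1 (Finset.mem_coe.1 hc)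
      obtain ⟨⟨hY1, hY2, hY3, -⟩, -⟩ := hT Y hY
      have hsq : ∀ l, Squarefree (t Y l) := fun l =>
        (h1 Y hY).squarefree_of_dvd (Finset.dvd_prod_of_mem (t Y) (mem_univ l))
      have hle : ∀ l, 1 ≤ t Y l ∧ t Y l ≤ S := by
        intro l
        refine ⟨Nat.pos_of_ne_zero (hsq l).ne_zero, Nat.le_sqrt'.2 ?_⟩
        exact single g hY2 (hY3 l) (hsq l) (h5 Y hY l)
      rw [Finset.mem_coe, mem_product, mem_Icc, mem_Icc]
      exact ⟨hle i, hle j⟩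
    · intro c hc c' hc' heq
      obtain ⟨Y, hY, rfl⟩ := mem_image.1 (Finset.mem_coe.1 hc)
      obtain ⟨Y', hY', rfl⟩ := mem_image.1 (Finset.mem_coe.1 hc')
      simp only [Prod.mk.injEq] at heq
      funext l
      by_cases hli : l = i
      · rw [hli]; exact heq.1
      by_cases hlj : l = j
      · rw [hlj]; exact heq.2
      rw [h4 Y hY l hli hlj, h4 Y' hY' l hli hlj]
  refine himg.trans ?_
  rw [Finset.card_product, Nat.card_Icc, Nat.add_sub_cancel]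
  exact Nat.sqrt_le _

lemma caseB (g : GP ℓ Θ H) {M : ℕ} (hM : 1 ≤ M) {ε : ℝ} (hε : 0 < ε) :
    ∃ C : ℝ, 0 < C ∧ ∀ Z : ℕ, 216 * H ^ 6 * M ^ 4 < Z → ∀ T : Finset (Fin N → ℤ),
      (∀ Y ∈ T, Gd ℓ Θ M Z Y ∧ ∀ i j, i ≠ j → ∃ J, mnr ![Y, ℓ i, ℓ j] J ≠ 0) →
      (T.card : ℝ) ≤ C * (Z : ℝ) ^ (1 + ε) := by
  classical
  obtain ⟨C, hC0, hC⟩ := PP.card_tuples_le q hε
  set A : ℕ := 2 + CN N * (6 * H ^ 2 * M ^ 4) ^ N + 3 * H * M ^ 2 * CN N with hA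
  have hH := g.H1
  refine ⟨A * C, by positivity, fun Z hZ0 T hT => ?_⟩
  have hM4 : M ≤ M ^ 4 := Nat.le_self_pow (by norm_num) M
  have hM42 : M ^ 2 ≤ M ^ 4 := Nat.pow_le_pow_right hM (by norm_num)
  have hH6 : 1 ≤ H ^ 6 := Nat.one_le_pow _ _ hH
  have hH62 : H ^ 2 ≤ H ^ 6 := Nat.pow_le_pow_right hH (by norm_num)
  have hZM : M < Z := by
    calc M ≤ M ^ 4 := hM4
      _ = 1 * 1 * M ^ 4 := by ring
      _ ≤ 216 * H ^ 6 * M ^ 4 := by gcongr; norm_num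
      _ < Z := hZ0
  have hZ1 : 1 ≤ Z := by omega
  have hZ2 : 6 * H ^ 2 * M ^ 2 < Z := by
    calc 6 * H ^ 2 * M ^ 2 ≤ 216 * H ^ 6 * M ^ 4 := by gcongr; norm_num
      _ < Z := hZ0
  have hex : ∀ Y ∈ T, ∃ t : Fin q → ℕ, Squarefree (∏ l, t l) ∧ (∏ l, t l).Coprime Θ ∧
      ∏ l, t l ≤ Z ∧ Z < M * ((∏ l, t l) * (∏ l, t l).minFac) ∧
      Z ^ 3 ≤ (6 * H ^ 2 * M ^ 4) * (∏ l, t l) ^ 4 ∧
      (∃ i j k, i ≠ j ∧ i ≠ k ∧ j ≠ k ∧ t i ≠ 1 ∧ t j ≠ 1 ∧ t k ≠ 1) ∧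
      (∀ l, ∀ p : ℕ, p.Prime → p ∣ t l → ∀ a b, (p : ℤ) ^ 2 ∣ mn Y (ℓ l) a b) := by
    intro Y hY
    obtain ⟨⟨hY1, hY2, hY3, s, hs1, hs2, hs3, hs4⟩, h0⟩ := hT Y hY
    -- the minimal divisor
    have hs0 := hs1.ne_zero
    have hne : (s.divisors.filter fun d => Z < M * d).Nonempty :=
      ⟨s, by rw [mem_filter, Nat.mem_divisors]; exact ⟨⟨dvd_rfl, hs0⟩, hs3⟩⟩
    obtain ⟨s', hs'mem, hs'min⟩ := Finset.exists_min_image _ (fun d => d) hne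
    rw [mem_filter, Nat.mem_divisors] at hs'mem
    obtain ⟨⟨hs's, -⟩, hs'Z⟩ := hs'mem
    have hs'sq : Squarefree s' := hs1.squarefree_of_dvd hs's
    have hs'1 : s' ≠ 1 := by
      rintro rfl
      omega
    set p₀ := s'.minFac with hp₀
    have hp₀p : p₀.Prime := Nat.minFac_prime hs'1
    obtain ⟨s₀, hs₀⟩ : p₀ ∣ s' := Nat.minFac_dvd s'
    have hs₀s : s₀ ∣ s := (Dvd.intro_left _ hs₀.symm).trans hs's
    have hs₀0 : s₀ ≠ 0 := by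
      rintro rfl
      exact hs'sq.ne_zero (by rw [hs₀, mul_zero])
    have hs₀Z : M * s₀ ≤ Z := by
      by_contra hcon
      push Not at hcon
      have h1 := hs'min s₀ (by
        rw [mem_filter, Nat.mem_divisors]
        exact ⟨⟨hs₀s, hs0⟩, hcon⟩)
      rw [hs₀] at h1
      have h2 := hp₀p.two_le
      have h3 : 1 ≤ s₀ := Nat.pos_of_ne_zero hs₀0
      nlinarith
    have hs₀sq : Squarefree s₀ := hs1.squarefree_of_dvd hs₀s
    have hp₀s₀ : ¬ p₀ ∣ s₀ := by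
      intro h1
      have : p₀ * p₀ ∣ s' := by
        rw [hs₀]
        exact Nat.mul_dvd_mul_left p₀ h1
      exact hp₀p.one_lt.ne' (Nat.isUnit_iff.1 (hs'sq p₀ this))
    -- the pair of types
    have hpair : ∀ p p' : ℕ, p.Prime → p'.Prime → p ∣ s → p' ∣ s → Squarefree (p * p') →
        (p * p') ^ 2 ≤ 6 * H ^ 2 * Z := by
      intro p p' hp hp' hps hp's hsq
      obtain ⟨l, hl⟩ := hs4 p hp hps
      obtain ⟨l', hl'⟩ := hs4 p' hp' hp's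
      by_cases hll : l = l'
      · obtain ⟨j, hj⟩ : ∃ j : Fin q, j ≠ l := by
          have : Nontrivial (Fin q) := Fin.nontrivial_iff_two_le.2 (by have := g.qN; have := g.N3; omega)
          exact exists_ne l
        obtain ⟨J, hJ⟩ := h0 l j hj.symm
        refine pairP g hY2 hJ hsq fun r hr hrd => Or.inl ?_
        rcases (hr.dvd_mul).1 hrd with h1 | h1
        · rw [(Nat.prime_dvd_prime_iff_eq hr hp).1 h1]; exact hl
        · rw [(Nat.prime_dvd_prime_iff_eq hr hp').1 h1, hll]; exact hl'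
      · obtain ⟨J, hJ⟩ := h0 l l' hll
        refine pairP g hY2 hJ hsq fun r hr hrd => ?_
        rcases (hr.dvd_mul).1 hrd with h1 | h1
        · left; rw [(Nat.prime_dvd_prime_iff_eq hr hp).1 h1]; exact hl
        · right; rw [(Nat.prime_dvd_prime_iff_eq hr hp').1 h1]; exact hl'
    have hp₀s : p₀ ∣ s := (Nat.minFac_dvd s').trans hs's
    have hs₀1 : s₀ ≠ 1 := by
      rintro rfl
      rw [mul_one] at hs₀
      obtain ⟨l, hl⟩ := hs4 p₀ hp₀p hp₀s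
      obtain ⟨j, hj⟩ : ∃ j : Fin q, j ≠ l := by
        have : Nontrivial (Fin q) := Fin.nontrivial_iff_two_le.2 (by have := g.qN; have := g.N3; omega)
        exact exists_ne l
      have h1 : p₀ ^ 2 ≤ 6 * H ^ 2 * Z := by
        obtain ⟨J, hJ⟩ := h0 l j hj.symm
        refine pairP g hY2 hJ hp₀p.prime.squarefree fun r hr hrd => Or.inl ?_
        rw [(Nat.prime_dvd_prime_iff_eq hr hp₀p).1 hrd]; exact hl
      have h2 : Z ^ 2 < (6 * H ^ 2 * M ^ 2) * Z := by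
        calc Z ^ 2 < (M * s') ^ 2 := Nat.pow_lt_pow_left hs'Z (by norm_num)
          _ = M ^ 2 * p₀ ^ 2 := by rw [mul_pow, ← hs₀]
          _ ≤ M ^ 2 * (6 * H ^ 2 * Z) := by gcongr
          _ = _ := by ring
      rw [sq] at h2
      exact absurd (Nat.lt_of_mul_lt_mul_right h2) (by omega)
    set p₁ := s₀.minFac with hp₁
    have hp₁p : p₁.Prime := Nat.minFac_prime hs₀1
    have hp₁s₀ : p₁ ∣ s₀ := Nat.minFac_dvd s₀
    have hp₀₁ : p₀ ≤ p₁ := Nat.minFac_le_of_dvd hp₁p.two_le (hp₁s₀.trans (Dvd.intro_left _ hs₀.symm))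
    have hne01 : p₀ ≠ p₁ := by
      intro h1
      exact hp₀s₀ (h1 ▸ hp₁s₀)
    have hsq01 : Squarefree (p₀ * p₁) := by
      rw [Nat.squarefree_mul ((Nat.coprime_primes hp₀p hp₁p).2 hne01)]
      exact ⟨hp₀p.prime.squarefree, hp₁p.prime.squarefree⟩
    have h4 : p₀ ^ 4 ≤ 6 * H ^ 2 * Z := by
      calc p₀ ^ 4 = (p₀ * p₀) ^ 2 := by ring
        _ ≤ (p₀ * p₁) ^ 2 := by gcongr
        _ ≤ _ := hpair p₀ p₁ hp₀p hp₁p hp₀s (hp₁s₀.trans hs₀s) hsq01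
    have hB2 : Z ^ 3 ≤ (6 * H ^ 2 * M ^ 4) * s₀ ^ 4 := by
      have h5 : Z ^ 3 * Z ≤ ((6 * H ^ 2 * M ^ 4) * s₀ ^ 4) * Z := by
        calc Z ^ 3 * Z = Z ^ 4 := by ring
          _ ≤ (M * s') ^ 4 := Nat.pow_le_pow_left hs'Z.le 4
          _ = M ^ 4 * s₀ ^ 4 * p₀ ^ 4 := by rw [hs₀]; ring
          _ ≤ M ^ 4 * s₀ ^ 4 * (6 * H ^ 2 * Z) := by gcongr
          _ = _ := by ring
      exact Nat.le_of_mul_le_mul_right h5 hZ1
    obtain ⟨t, ht1, ht2⟩ := exists_tup (by have := g.qN; have := g.N3; omega) hs₀sq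
      fun p hp hps => hs4 p hp (hps.trans hs₀s)
    refine ⟨t, ht1 ▸ hs₀sq, ?_, ?_, ?_, ?_, ?_, ht2⟩
    · rw [ht1]
      exact Nat.Coprime.coprime_dvd_left hs₀s hs2
    · rw [ht1]
      nlinarith
    · rw [ht1]
      calc Z < M * s' := hs'Z
        _ = M * (s₀ * p₀) := by rw [hs₀]; ring
        _ ≤ M * (s₀ * p₁) := by gcongr
    · rw [ht1]
      exact hB2
    · -- three types
      by_contra hcon
      have hcard : (univ.filter fun l => t l ≠ 1).card ≤ 2 := by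
        by_contra h5
        push Not at h5
        obtain ⟨i, j, k, hi, hj, hk, hij, hik, hjk⟩ := Finset.two_lt_card_iff.1 h5
        apply hcon
        rw [mem_filter] at hi hj hk
        exact ⟨i, j, k, hij, hik, hjk, hi.2, hj.2, hk.2⟩
      obtain ⟨i, j, hij, hsub⟩ : ∃ i j : Fin q, i ≠ j ∧ (univ.filter fun l => t l ≠ 1) ⊆ {i, j} := by
        obtain ⟨u, hu1, hu2⟩ : ∃ u : Finset (Fin q), (univ.filter fun l => t l ≠ 1) ⊆ u ∧
            u.card = 2 := by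
          obtain ⟨u, hu1, -, hu2⟩ := Finset.exists_subsuperset_card_eq
            (subset_univ (univ.filter fun l => t l ≠ 1)) hcard (by
              rw [Finset.card_univ, Fintype.card_fin]; have := g.qN; have := g.N3; omega)
          exact ⟨u, hu1, hu2⟩
        obtain ⟨i, j, hij, rfl⟩ := Finset.card_eq_two.1 hu2
        exact ⟨i, j, hij, hu1⟩
      have h5 : s₀ ^ 2 ≤ 6 * H ^ 2 * Z := by
        obtain ⟨J, hJ⟩ := h0 i j hij
        refine pairP g hY2 hJ hs₀sq fun p hp hps => ?_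
        rw [← ht1] at hps
        obtain ⟨l, -, hl⟩ := (hp.prime.dvd_finsetProd_iff _).1 hps
        have hl1 : t l ≠ 1 := by
          intro h6
          rw [h6] at hl
          exact hp.one_lt.ne' (Nat.dvd_one.1 hl)
        have h7 := hsub (mem_filter.2 ⟨mem_univ l, hl1⟩)
        rw [mem_insert, mem_singleton] at h7
        rcases h7 with rfl | rfl
        · exact Or.inl (ht2 _ p hp hl)
        · exact Or.inr (ht2 _ p hp hl)
      have h6 : Z ^ 2 * Z ≤ Z ^ 2 * (216 * H ^ 6 * M ^ 4) := by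
        calc Z ^ 2 * Z = Z ^ 3 := by ring
          _ ≤ (6 * H ^ 2 * M ^ 4) * s₀ ^ 4 := hB2
          _ = (6 * H ^ 2 * M ^ 4) * (s₀ ^ 2) ^ 2 := by ring
          _ ≤ (6 * H ^ 2 * M ^ 4) * (6 * H ^ 2 * Z) ^ 2 := by gcongr
          _ = _ := by ring
      exact absurd (Nat.le_of_mul_le_mul_left h6 (by positivity)) (by omega)
  choose! t ht using hex
  have hmaps : ∀ Y ∈ T, t Y ∈ T.image t := fun Y hY => mem_image_of_mem t hY
  have hfib : ∀ c ∈ T.image t, (T.filter fun Y => t Y = c).card ≤ A := by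
    intro c hc
    obtain ⟨Y0, hY0, rfl⟩ := mem_image.1 hc
    obtain ⟨h1, h2, h3, h4, h5, h6, -⟩ := ht Y0 hY0
    refine fibB g hZ1 (Nat.mul_pos (Nat.mul_pos (by norm_num) (pow_pos hH 2)) (pow_pos hM 4)) (t Y0) h1 h2 h4 h5 h6 _ fun Y hY => ?_
    rw [mem_filter] at hY
    obtain ⟨-, -, -, -, -, -, h7⟩ := ht Y hY.1
    obtain ⟨⟨hY1, hY2, -⟩, -⟩ := hT Y hY.1
    exact ⟨hY1, hY2, hY.2 ▸ h7⟩
  have h1 := Finset.card_le_mul_card_image_of_maps_to hmaps _ hfib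
  have h2 := hC Z hZ1 (T.image t) (by
    intro c hc
    obtain ⟨Y0, hY0, rfl⟩ := mem_image.1 hc
    obtain ⟨h1, h2, h3, -⟩ := ht Y0 hY0
    exact ⟨Nat.pos_of_ne_zero h1.ne_zero, h3⟩)
  calc (T.card : ℝ) ≤ A * (T.image t).card := by exact_mod_cast h1
    _ ≤ A * (C * (Z : ℝ) ^ (1 + ε)) := by gcongr
    _ = _ := by ring

theorem glem (g : GP ℓ Θ H) {M : ℕ} (hM : 1 ≤ M) {ε : ℝ} (hε : 0 < ε) :
    ∃ C : ℝ, 0 < C ∧ ∀ Z : ℕ, 1 ≤ Z → ∀ T : Finset (Fin N → ℤ), (∀ Y ∈ T, Gd ℓ Θ M Z Y) →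
      (T.card : ℝ) ≤ C * (Z : ℝ) ^ (1 + ε) := by
  classical
  obtain ⟨C, hC0, hC⟩ := caseB g hM hε
  set Z₀ : ℕ := 216 * H ^ 6 * M ^ 4 with hZ₀
  refine ⟨C + (q * q * ((2 + CN N * M ^ (2 * N)) * (2 * H)) : ℕ) + ((3 * (Z₀ + 1)) ^ N : ℕ), by positivity,
    fun Z hZ T hT => ?_⟩
  have hZ1 : (1 : ℝ) ≤ Z := by exact_mod_cast hZ
  have hZ0 : (0 : ℝ) < Z := by linarith
  have hZe : (1 : ℝ) ≤ (Z : ℝ) ^ (1 + ε) := Real.one_le_rpow hZ1 (by positivity)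
  have hZe' : (Z : ℝ) ≤ (Z : ℝ) ^ (1 + ε) := by
    calc (Z : ℝ) = (Z : ℝ) ^ (1 : ℝ) := (Real.rpow_one _).symm
      _ ≤ _ := Real.rpow_le_rpow_of_exponent_le hZ1 (by linarith)
  rcases le_or_gt Z Z₀ with hZs | hZb
  · -- small boxes
    have h1 : T ⊆ Fintype.piFinset fun _ : Fin N => Icc (-(Z : ℤ)) Z := by
      intro Y hY
      rw [Fintype.mem_piFinset]
      intro k
      rw [mem_Icc]
      exact abs_le.1 ((hT Y hY).2.1 k)
    have h2 := Finset.card_le_card h1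
    rw [Fintype.card_piFinset_const, Int.card_Icc] at h2
    have h3 : (Z + 1 - -(Z : ℤ)).toNat = 2 * Z + 1 := by omega
    rw [h3] at h2
    have h4 : T.card ≤ (3 * (Z₀ + 1)) ^ N := h2.trans (Nat.pow_le_pow_left (by omega) N)
    have h5 : (T.card : ℝ) ≤ (((3 * (Z₀ + 1)) ^ N : ℕ) : ℝ) := by exact_mod_cast h4
    calc (T.card : ℝ) ≤ (((3 * (Z₀ + 1)) ^ N : ℕ) : ℝ) * 1 := by rw [mul_one]; exact h5
      _ ≤ (((3 * (Z₀ + 1)) ^ N : ℕ) : ℝ) * (Z : ℝ) ^ (1 + ε) := by gcongr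
      _ ≤ _ := by
          refine mul_le_mul_of_nonneg_right ?_ (by positivity)
          have : (0 : ℝ) ≤ (q * q * ((2 + CN N * M ^ (2 * N)) * (2 * H)) : ℕ) := Nat.cast_nonneg _
          linarith
  · set TB := T.filter fun Y => ∀ i j, i ≠ j → ∃ J, mnr ![Y, ℓ i, ℓ j] J ≠ 0 with hTB
    set TA := T.filter fun Y => ¬ ∀ i j, i ≠ j → ∃ J, mnr ![Y, ℓ i, ℓ j] J ≠ 0 with hTA
    have hcard : T.card = TB.card + TA.card := (Finset.card_filter_add_card_filter_not _).symm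
    have hB : (TB.card : ℝ) ≤ C * (Z : ℝ) ^ (1 + ε) := by
      refine hC Z hZb TB fun Y hY => ?_
      rw [hTB, mem_filter] at hY
      exact ⟨hT Y hY.1, hY.2⟩
    have hA : TA.card ≤ q * q * ((2 + CN N * M ^ (2 * N)) * (2 * H)) * Z := by
      have h1 : TA ⊆ ((univ : Finset (Fin q × Fin q)).filter fun x => x.1 ≠ x.2).biUnion
          fun x => T.filter fun Y => ∀ J, mnr ![Y, ℓ x.1, ℓ x.2] J = 0 := by
        intro Y hY
        rw [hTA, mem_filter] at hY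
        obtain ⟨hY1, hY2⟩ := hY
        push Not at hY2
        obtain ⟨i, j, hij, h0⟩ := hY2
        rw [mem_biUnion]
        exact ⟨(i, j), mem_filter.2 ⟨mem_univ _, hij⟩, mem_filter.2 ⟨hY1, h0⟩⟩
      refine (Finset.card_le_card h1).trans ?_
      refine Finset.card_biUnion_le.trans ?_
      have h2 : ∀ x ∈ ((univ : Finset (Fin q × Fin q)).filter fun x => x.1 ≠ x.2),
          (T.filter fun Y => ∀ J, mnr ![Y, ℓ x.1, ℓ x.2] J = 0).card ≤ (2 + CN N * M ^ (2 * N)) * (2 * H * Z) := by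
        intro x hx
        rw [mem_filter] at hx
        refine caseA g hM hZ hx.2 _ fun Y hY => ?_
        rw [mem_filter] at hY
        exact ⟨hT Y hY.1, hY.2⟩
      refine (Finset.sum_le_sum h2).trans ?_
      rw [Finset.sum_const, smul_eq_mul]
      have h3 : ((univ : Finset (Fin q × Fin q)).filter fun x => x.1 ≠ x.2).card ≤ q * q := by
        refine (Finset.card_filter_le _ _).trans ?_
        rw [Finset.card_univ, Fintype.card_prod, Fintype.card_fin]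
      calc _ ≤ q * q * ((2 + CN N * M ^ (2 * N)) * (2 * H * Z)) := Nat.mul_le_mul_right _ h3
        _ = _ := by ring
    have hA' : (TA.card : ℝ) ≤ (q * q * ((2 + CN N * M ^ (2 * N)) * (2 * H)) : ℕ) * (Z : ℝ) ^ (1 + ε) := by
      calc (TA.card : ℝ) ≤ ((q * q * ((2 + CN N * M ^ (2 * N)) * (2 * H)) * Z : ℕ) : ℝ) := by
            exact_mod_cast hA
        _ = (q * q * ((2 + CN N * M ^ (2 * N)) * (2 * H)) : ℕ) * (Z : ℝ) := by push_cast; ring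
        _ ≤ _ := by gcongr
    have hnn : (0 : ℝ) ≤ ((3 * (Z₀ + 1)) ^ N : ℕ) * (Z : ℝ) ^ (1 + ε) := by positivity
    rw [hcard]
    push_cast at hA' hnn ⊢
    linarith

end Pool.Agent.K4H9.PN
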