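import Pool.Agent.K4H9.PP.Pack

set_option autoImplicit false

/-!
Minors of tuples of integer vectors; finite sets of integer points in a box, by rank.
-/

namespace Pool.Agent.K4H9.PN

open Finset Module

/-- the minor with the columns `J` -/
def mnr {r N : ℕ} (v : Fin r → Fin N → ℤ) (J : Fin r → Fin N) : ℤ :=
  (Matrix.of fun a c => v a (J c)).det

lemma li_rat {r N : ℕ} {v : Fin r → Fin N → ℤ} (h : LinearIndependent ℤ v) :
    LinearIndependent ℚ (fun a j => (v a j : ℚ)) := by
  rw [← LinearIndependent.iff_fractionRing ℤ ℚ]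
  set φ : (Fin N → ℤ) →ₗ[ℤ] (Fin N → ℚ) :=
    { toFun := fun z j => (z j : ℚ)
      map_add' := fun x y => by funext j; simp
      map_smul' := fun c x => by funext j; simp } with hφ
  have hk : LinearMap.ker φ = ⊥ := by
    rw [LinearMap.ker_eq_bot]
    intro x y hxy
    funext j
    have := congrFun hxy j
    simpa [hφ] using this
  exact h.map' φ hk

lemma det_cast {r : ℕ} (A : Matrix (Fin r) (Fin r) ℤ) :
    ((A.det : ℤ) : ℚ) = (A.map (Int.cast : ℤ → ℚ)).det := Int.cast_det A

lemma exists_minor {r N : ℕ} {v : Fin r → Fin N → ℤ} (h : LinearIndependent ℤ v) :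
    ∃ J : Fin r → Fin N, mnr v J ≠ 0 := by
  classical
  set A : Matrix (Fin r) (Fin N) ℚ := Matrix.of fun a j => (v a j : ℚ) with hA
  have hrow : LinearIndependent ℚ A.row := li_rat h
  have hrank : A.rank = r := by
    rw [hrow.rank_matrix, Fintype.card_fin]
  rw [Matrix.rank_eq_finrank_span_cols] at hrank
  obtain ⟨f, hf1, -, hf3⟩ := Submodule.exists_fun_fin_finrank_span_eq ℚ (Set.range A.col)
  choose J' hJ' using hf1
  set J : Fin r → Fin N := fun c => J' (Fin.cast hrank.symm c) with hJ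
  refine ⟨J, ?_⟩
  have h1 : LinearIndependent ℚ (fun c => A.col (J c)) := by
    have h2 : (fun c => A.col (J c)) = f ∘ Fin.cast hrank.symm := by
      funext c
      rw [Function.comp_apply, hJ]
      exact hJ' _
    rw [h2]
    exact hf3.comp _ (Fin.cast_injective _)
  have h2 : LinearIndependent ℚ (Matrix.of fun a c => A a (J c)).col := h1
  rw [Matrix.linearIndependent_cols_iff_isUnit, Matrix.isUnit_iff_isUnit_det] at h2
  intro h0
  apply h2.ne_zero
  have h3 : (Matrix.of fun a c => A a (J c)) = (Matrix.of fun a c => v a (J c)).map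
      (Int.cast : ℤ → ℚ) := by
    ext a c
    simp [hA]
  rw [h3, ← det_cast]
  have h4 : (Matrix.of fun a c => v a (J c)).det = 0 := h0
  rw [h4]
  simp

/-- the coordinates `J` -/
def prj {r N : ℕ} (J : Fin r → Fin N) : (Fin N → ℤ) →ₗ[ℤ] (Fin r → ℤ) where
  toFun z := fun c => z (J c)
  map_add' _ _ := rfl
  map_smul' _ _ := rfl

/-- elements of a set which spans the space -/
lemma exists_det {r : ℕ} (S : Set (Fin r → ℤ)) (w : Fin r → Fin r → ℤ)
    (hw : ∀ a, w a ∈ Submodule.span ℤ S) (hd : (Matrix.of w).det ≠ 0) :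
    ∃ P : Fin r → Fin r → ℤ, (∀ a, P a ∈ S) ∧ (Matrix.of P).det ≠ 0 := by
  classical
  set ι : (Fin r → ℤ) → (Fin r → ℚ) := fun z j => (z j : ℚ) with hι
  set s : Set (Fin r → ℚ) := ι '' S with hs
  have hmem : ∀ z ∈ Submodule.span ℤ S, ι z ∈ Submodule.span ℚ s := by
    intro z hz
    induction hz using Submodule.span_induction with
    | mem x hx => exact Submodule.subset_span ⟨x, hx, rfl⟩
    | zero =>
      have : ι 0 = 0 := by funext j; simp [hι]
      rw [this]
      exact Submodule.zero_mem _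
    | add x y _ _ hx hy =>
      have : ι (x + y) = ι x + ι y := by funext j; simp [hι]
      rw [this]
      exact Submodule.add_mem _ hx hy
    | smul c x _ hx =>
      have : ι (c • x) = (c : ℚ) • ι x := by funext j; simp [hι]
      rw [this]
      exact Submodule.smul_mem _ _ hx
  have hli : LinearIndependent ℚ (fun a => ι (w a)) := by
    have h1 : LinearIndependent ℤ w :=
      Matrix.linearIndependent_rows_of_det_ne_zero (A := Matrix.of w) hd
    exact li_rat h1
  have htop : Submodule.span ℚ s = ⊤ := by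
    have h1 : Submodule.span ℚ (Set.range fun a => ι (w a)) = ⊤ := by
      apply hli.span_eq_top_of_card_eq_finrank'
      simp
    rw [eq_top_iff, ← h1, Submodule.span_le]
    rintro _ ⟨a, rfl⟩
    exact hmem _ (hw a)
  have hrank : finrank ℚ (Submodule.span ℚ s) = r := by
    rw [htop]
    simp
  obtain ⟨f, hf1, -, hf3⟩ := Submodule.exists_fun_fin_finrank_span_eq ℚ s
  choose P' hP'1 hP'2 using hf1
  set P : Fin r → Fin r → ℤ := fun a => P' (Fin.cast hrank.symm a) with hP
  refine ⟨P, fun a => hP'1 _, ?_⟩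
  have h1 : LinearIndependent ℚ (fun a => ι (P a)) := by
    have h2 : (fun a => ι (P a)) = f ∘ Fin.cast hrank.symm := by
      funext c
      rw [Function.comp_apply, hP]
      exact hP'2 _
    rw [h2]
    exact hf3.comp _ (Fin.cast_injective _)
  have h2 : LinearIndependent ℚ ((Matrix.of P).map (Int.cast : ℤ → ℚ)).row := h1
  rw [Matrix.linearIndependent_rows_iff_isUnit, Matrix.isUnit_iff_isUnit_det, ← det_cast] at h2
  intro h0
  rw [h0] at h2
  simp at h2

/-- **the points of a finite set in a box, by rank** -/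
theorem packR {N : ℕ} (T : Finset (Fin N → ℤ)) (b : Fin N → ℕ) (hb : ∀ j, 1 ≤ b j)
    (hTb : ∀ z ∈ T, ∀ j, |z j| ≤ b j) :
    ∃ (r : ℕ) (v : Fin r → Fin N → ℤ), r ≤ N ∧
      (∀ a, v a ∈ Submodule.span ℤ (T : Set (Fin N → ℤ))) ∧ LinearIndependent ℤ v ∧
      (∀ z ∈ T, ∃ c : Fin r → ℤ, z = ∑ a, c a • v a) ∧
      ∀ J : Fin r → Fin N, T.card * (mnr v J).natAbs ≤ (3 * (N + 1)) ^ N * ∏ c, b (J c) := by
  classical
  set Λ : Submodule ℤ (Fin N → ℤ) := Submodule.span ℤ (T : Set (Fin N → ℤ)) with hΛ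
  have hTΛ : ∀ z ∈ T, z ∈ Λ := fun z hz => Submodule.subset_span hz
  obtain ⟨r, bN⟩ := Submodule.basisOfPid (Pi.basisFun ℤ (Fin N)) Λ
  set v : Fin r → Fin N → ℤ := fun i => (bN i : Fin N → ℤ) with hv
  have hvΛ : ∀ i, v i ∈ Λ := fun i => (bN i).2
  have hli : LinearIndependent ℤ v := by
    have := bN.linearIndependent.map' Λ.subtype (Submodule.ker_subtype Λ)
    exact this
  have hrN : r ≤ N := by
    have := hli.fintype_card_le_finrank
    simpa using this
  have hsum : ∀ z ∈ Λ, ∃ c : Fin r → ℤ, z = ∑ i, c i • v i := by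
    intro z hz
    refine ⟨fun i => bN.repr ⟨z, hz⟩ i, ?_⟩
    have := congrArg Subtype.val (bN.sum_repr ⟨z, hz⟩)
    simp only [Submodule.coe_sum, Submodule.coe_smul] at this
    exact this.symm
  refine ⟨r, v, hrN, hvΛ, hli, fun z hz => hsum z (hTΛ z hz), fun J => ?_⟩
  by_cases hJ : mnr v J = 0
  · rw [hJ]; simp
  set w : Fin r → Fin r → ℤ := fun a => prj J (v a) with hw
  have hwd : (Matrix.of w).det ≠ 0 := hJ
  have hwli : LinearIndependent ℤ w :=
    Matrix.linearIndependent_rows_of_det_ne_zero (A := Matrix.of w) hwd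
  have hrange : ∀ z ∈ Λ, prj J z ∈ Submodule.span ℤ (Set.range w) := by
    intro z hz
    obtain ⟨c, hc⟩ := hsum z hz
    rw [hc, map_sum]
    refine Submodule.sum_mem _ fun i _ => ?_
    rw [map_smul]
    exact Submodule.smul_mem _ _ (Submodule.subset_span ⟨i, rfl⟩)
  have hinj : Set.InjOn (prj J) (T : Set (Fin N → ℤ)) := by
    intro z hz z' hz' heq
    obtain ⟨c, hc⟩ := hsum z (hTΛ z hz)
    obtain ⟨d, hd⟩ := hsum z' (hTΛ z' hz')
    have h1 : ∑ i, (c i - d i) • w i = 0 := by
      have h2 : prj J z - prj J z' = ∑ i, (c i - d i) • w i := by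
        rw [hc, hd, map_sum, map_sum, ← Finset.sum_sub_distrib]
        refine Finset.sum_congr rfl fun i _ => ?_
        rw [map_smul, map_smul, sub_smul]
      rw [← h2, heq, sub_self]
    have h2 := Fintype.linearIndependent_iff.1 hwli _ h1
    rw [hc, hd]
    refine Finset.sum_congr rfl fun i _ => ?_
    rw [sub_eq_zero.1 (h2 i)]
  obtain ⟨P, hP1, hP2⟩ := exists_det ((T.image (prj J) : Finset (Fin r → ℤ)) : Set (Fin r → ℤ)) w
    (by
      intro a
      have h1 : Submodule.map (prj J) Λ = Submodule.span ℤ ((T.image (prj J) :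
          Finset (Fin r → ℤ)) : Set (Fin r → ℤ)) := by
        rw [hΛ, Submodule.map_span, Finset.coe_image]
      rw [← h1]
      exact ⟨v a, hvΛ a, rfl⟩) hwd
  have hPT : ∀ a, ∃ z ∈ T, prj J z = P a := fun a => by
    have := hP1 a
    rw [Finset.coe_image] at this
    obtain ⟨z, hz, he⟩ := this
    exact ⟨z, hz, he⟩
  have hp := Pool.Agent.K4H9.PP.pack w hwd (T.image (prj J)) (by
    intro z hz
    obtain ⟨y, hy, rfl⟩ := Finset.mem_image.1 hz
    exact hrange y (hTΛ y hy)) P (by
    intro a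
    obtain ⟨z, hz, he⟩ := hPT a
    rw [← he]
    exact hrange z (hTΛ z hz)) hP2 (fun c => b (J c)) (by
    intro z hz j
    obtain ⟨y, hy, rfl⟩ := Finset.mem_image.1 hz
    exact hTb y hy _) (by
    intro a j
    obtain ⟨z, hz, he⟩ := hPT a
    rw [← he]
    exact hTb z hz _)
  rw [Finset.card_image_of_injOn hinj] at hp
  have h3 : ∏ c, (2 * ((r + 1) * b (J c)) + 1) ≤ (3 * (N + 1)) ^ N * ∏ c, b (J c) := by
    calc ∏ c, (2 * ((r + 1) * b (J c)) + 1) ≤ ∏ c, ((3 * (N + 1)) * b (J c)) := by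
          refine Finset.prod_le_prod' fun c _ => ?_
          have h4 := hb (J c)
          have h5 : (r + 1) * b (J c) ≤ (N + 1) * b (J c) := Nat.mul_le_mul_right _ (by omega)
          have h6 : 1 ≤ (N + 1) * b (J c) := Nat.mul_pos (by omega) h4
          calc 2 * ((r + 1) * b (J c)) + 1 ≤ 3 * ((N + 1) * b (J c)) := by omega
            _ = _ := by ring
      _ = (3 * (N + 1)) ^ r * ∏ c, b (J c) := by
          rw [Finset.prod_mul_distrib, Finset.prod_const, Finset.card_univ, Fintype.card_fin]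
      _ ≤ _ := Nat.mul_le_mul_right _ (Nat.pow_le_pow_right (by omega) hrN)
  exact hp.trans h3

end Pool.Agent.K4H9.PN
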