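import Pool.Agent.K4H9.PN.Up
import Pool.Agent.K4H9.PP.Low

set_option autoImplicit false

/-!
The lower bound.
-/

namespace Pool.Agent.K4H9.PN

open Finset

variable {N q : ℕ}

/-- divide by the content -/
lemma prim_image {G : ℕ} (hG : 1 ≤ G) (T : Finset (Fin N → ℤ)) (hT : ∀ z ∈ T, Cont G z) :
    ∃ T' : Finset (Fin N → ℤ), T.card ≤ G * T'.card ∧ ∀ Y ∈ T', Cont 1 Y ∧ ∃ z ∈ T, ∃ t : ℕ,
      1 ≤ t ∧ t ≤ G ∧ z = (t : ℤ) • Y := by
  classical
  have hex : ∀ z ∈ T, ∃ (t : ℕ) (Y : Fin N → ℤ), 1 ≤ t ∧ z = (t : ℤ) • Y ∧ Cont 1 Y :=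
    fun z hz => exists_prim (hT z hz).1
  choose! t Y h1 h2 h3 using hex
  have htG : ∀ z ∈ T, t z ≤ G := by
    intro z hz
    have h4 : ((t z : ℕ) : ℤ) ∣ (G : ℤ) := by
      refine (hT z hz).2 _ fun k => ?_
      rw [h2 z hz, Pi.smul_apply, smul_eq_mul, ← h2 z hz]
      exact Dvd.intro _ rfl
    exact Nat.le_of_dvd (by omega) (by exact_mod_cast h4)
  refine ⟨T.image Y, ?_, ?_⟩
  · refine Finset.card_le_mul_card_image_of_maps_to (fun z hz => mem_image_of_mem Y hz) G ?_
    intro y _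
    have h4 : ((T.filter fun z => Y z = y).card) ≤ (Icc 1 G).card := by
      refine Finset.card_le_card_of_injOn t ?_ ?_
      · intro z hz
        have hz' := (mem_filter.1 (Finset.mem_coe.1 hz)).1
        rw [Finset.mem_coe, mem_Icc]
        exact ⟨h1 z hz', htG z hz'⟩
      · intro z hz z' hz' h
        have e1 := mem_filter.1 (Finset.mem_coe.1 hz)
        have e2 := mem_filter.1 (Finset.mem_coe.1 hz')
        rw [h2 z e1.1, h2 z' e2.1, e1.2, e2.2, h]
    rwa [Nat.card_Icc, Nat.add_sub_cancel] at h4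
  · intro y hy
    obtain ⟨z, hz, rfl⟩ := mem_image.1 hy
    exact ⟨h3 z hz, z, hz, t z, h1 z hz, htG z hz, h2 z hz⟩

/-- the columns of the adjugate -/
def col (A : Fin N → Fin N → ℤ) (a : Fin N) : Fin N → ℤ := fun k => (Matrix.of A).adjugate k a

lemma dot_col (A : Fin N → Fin N → ℤ) (a b : Fin N) :
    dot (col A a) (A b) = if b = a then (Matrix.of A).det else 0 := by
  have h1 := congrFun (congrFun (Matrix.mul_adjugate (Matrix.of A)) b) a
  rw [Matrix.mul_apply, Matrix.smul_apply, Matrix.one_apply, smul_eq_mul] at h1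
  have h2 : dot (col A a) (A b) = ∑ k, (Matrix.of A) b k * (Matrix.of A).adjugate k a := by
    unfold dot col
    exact Finset.sum_congr rfl fun k _ => by
      show _ * A b k = A b k * _
      ring
  rw [h2, h1]
  split_ifs <;> simp

variable {r : ℕ} {L : Fin q → Fin (r + 3) → ℤ} {Θ H : ℕ}

lemma col_ne (g : GP L Θ H) {s : Fin (r + 3) → Fin q} (hs : Function.Injective s)
    (a : Fin (r + 3)) (l : Fin q) (hl : ∀ b, b ≠ a → l ≠ s b) :
    dot (col (fun c => L (s c)) a) (L l) ≠ 0 := by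
  classical
  intro h0
  have hD := (g.d s hs).1
  set t : Fin (r + 3) → Fin q := Function.update s a l with ht
  have hti : Function.Injective t := by
    intro b b' hbb
    by_cases hb : b = a
    · by_cases hb' : b' = a
      · rw [hb, hb']
      · exfalso
        rw [ht, hb, Function.update_self, Function.update_of_ne hb'] at hbb
        exact hl b' hb' hbb
    · by_cases hb' : b' = a
      · exfalso
        rw [ht, hb', Function.update_self, Function.update_of_ne hb] at hbb
        exact hl b hb hbb.symm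
      · rw [ht, Function.update_of_ne hb, Function.update_of_ne hb'] at hbb
        exact hs hbb
  have hDt := (g.d t hti).1
  have h1 : ∀ b, zz (fun c => L (t c)) (col (fun c => L (s c)) a) b = 0 := by
    intro b
    change dot (col (fun c => L (s c)) a) (L (t b)) = 0
    by_cases hb : b = a
    · rw [hb, ht, Function.update_self]
      exact h0
    · rw [ht, Function.update_of_ne hb]
      have h2 := dot_col (fun c => L (s c)) a b
      rw [if_neg hb] at h2
      exact h2
  have h2 : ∀ k, col (fun c => L (s c)) a k = 0 := by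
    intro k
    have h3 := adj_zz (fun c => L (t c)) (col (fun c => L (s c)) a) k
    rw [Finset.sum_eq_zero fun b _ => by rw [h1 b, mul_zero]] at h3
    exact (mul_eq_zero.1 h3).resolve_left hDt
  have h3 := dot_col (fun c => L (s c)) a a
  rw [if_pos rfl] at h3
  apply hD
  change (Matrix.of fun c => L (s c)).det = 0
  rw [← h3]
  unfold dot
  exact Finset.sum_eq_zero fun k _ => by rw [h2 k, zero_mul]

/-- the vector of the parameters -/
def vec (x : ℕ × (ℕ × ℕ) × (Fin r → ℕ)) : Fin (r + 3) → ℕ :=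
  Fin.cons x.1 (Fin.cons x.2.1.1 (Fin.cons x.2.1.2 x.2.2))

lemma vec_inj : Function.Injective (vec (r := r)) := by
  intro x y h
  have h0 := congrFun h 0
  have h1 : Fin.cons x.2.1.1 (Fin.cons x.2.1.2 x.2.2) =
      (Fin.cons y.2.1.1 (Fin.cons y.2.1.2 y.2.2) : Fin (r + 2) → ℕ) := by
    funext a
    exact congrFun h a.succ
  have h2 := congrFun h1 0
  have h3 : Fin.cons x.2.1.2 x.2.2 = (Fin.cons y.2.1.2 y.2.2 : Fin (r + 1) → ℕ) := by
    funext a
    exact congrFun h1 a.succ
  have h4 := congrFun h3 0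
  have h5 : x.2.2 = y.2.2 := by
    funext a
    exact congrFun h3 a.succ
  exact Prod.ext h0 (Prod.ext (Prod.ext h2 h4) h5)

lemma col_sum_le (L : Fin q → Fin N → ℤ) (s : Fin N → Fin q) (k : Fin N) :
    ∑ a, (col (fun c => L (s c)) a k).natAbs ≤ EE L := by
  have h5 : ∑ a, ((Matrix.of fun c => L (s c)).adjugate k a).natAbs ≤
      ∑ k, ∑ a, ((Matrix.of fun c => L (s c)).adjugate k a).natAbs :=
    Finset.single_le_sum (f := fun k => ∑ a, ((Matrix.of fun c => L (s c)).adjugate k a).natAbs)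
      (fun _ _ => Nat.zero_le _) (mem_univ k)
  have h6 : ∑ k, ∑ a, ((Matrix.of fun c => L (s c)).adjugate k a).natAbs ≤
      ∑ s : Fin N → Fin q, ∑ k, ∑ a, ((Matrix.of fun c => L (s c)).adjugate k a).natAbs :=
    Finset.single_le_sum
      (f := fun s : Fin N → Fin q => ∑ k, ∑ a,
        ((Matrix.of fun c => L (s c)).adjugate k a).natAbs)
      (fun _ _ => Nat.zero_le _) (mem_univ s)
  unfold EE
  have h7 : ∑ a, (col (fun c => L (s c)) a k).natAbs =
      ∑ a, ((Matrix.of fun c => L (s c)).adjugate k a).natAbs := rfl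
  omega

/-- the construction -/
theorem lower (g : GP L Θ H) {κ : ℝ} (hκ0 : 0 ≤ κ) (hκ1 : κ ≤ 1) :
    ∃ C m : ℝ, 0 < C ∧ 0 < m ∧ ∀ M : ℕ, 16 * q ≤ M → 1 ≤ M → ∃ T : Finset (Fin (r + 3) → ℤ),
      m * (M : ℝ) ^ ((r : ℝ) + 3 - κ) ≤ (T.card : ℝ) ∧ ∀ x ∈ T, Cont 1 x ∧ nm x ≤ EE L * M ∧
      (∀ l, dot x (L l) ≠ 0) ∧
      (PP.rd (∏ l, (dot x (L l)).natAbs) : ℝ) ≤ C * (nm x : ℝ) ^ ((q : ℝ) - κ) := by
  classical
  have hqN := g.qN
  have hH := g.H1
  set s : Fin (r + 3) → Fin q := Fin.castLE hqN with hs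
  have hsi : Function.Injective s := Fin.castLE_injective hqN
  set D := (Matrix.of fun a => L (s a)).det with hD
  have hD0 : D ≠ 0 := (g.d s hsi).1
  set Dn := D.natAbs with hDn
  have hDn1 : 1 ≤ Dn := by omega
  have hDr : (1 : ℝ) ≤ Dn := by exact_mod_cast hDn1
  have hHr : (1 : ℝ) ≤ H := by exact_mod_cast hH
  obtain ⟨F, hF⟩ : ∃ F : ℕ, F = (r + 3) * H := ⟨_, rfl⟩
  have hF1 : 1 ≤ F := by
    rw [hF]
    have : 0 < (r + 3) * H := by positivity
    exact this
  have hFr : (1 : ℝ) ≤ F := by exact_mod_cast hF1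
  refine ⟨4 * F * Dn ^ 2 * (F : ℝ) ^ (q - 1), 1 / (16 * Dn), by positivity, by positivity,
    fun M hMq hM1 => ?_⟩
  have hM1r : (1 : ℝ) ≤ M := by exact_mod_cast hM1
  have hM0 : (0 : ℝ) < M := by linarith
  set Y : ℕ := ⌊(M : ℝ) ^ (1 - κ)⌋₊ with hY
  have hYr : 1 ≤ (M : ℝ) ^ (1 - κ) := Real.one_le_rpow hM1r (by linarith)
  have hY1 : 1 ≤ Y := by rw [hY]; exact Nat.le_floor (by exact_mod_cast hYr)
  have hYle : (Y : ℝ) ≤ (M : ℝ) ^ (1 - κ) := Nat.floor_le (by positivity)
  have hYge : (M : ℝ) ^ (1 - κ) / 2 ≤ Y := by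
    have h1 := Nat.lt_floor_add_one ((M : ℝ) ^ (1 - κ))
    rw [← hY] at h1
    have h2 : (1 : ℝ) ≤ Y := by exact_mod_cast hY1
    linarith
  have hYM : Y ≤ M := by
    have h1 : (M : ℝ) ^ (1 - κ) ≤ M := by
      calc (M : ℝ) ^ (1 - κ) ≤ (M : ℝ) ^ (1 : ℝ) :=
            Real.rpow_le_rpow_of_exponent_le hM1r (by linarith)
        _ = M := Real.rpow_one _
    exact_mod_cast hYle.trans h1
  set cc : Fin (r + 3) → Fin (r + 3) → ℤ := col (fun c => L (s c)) with hcc
  set P : ℕ × (ℕ × ℕ) × (Fin r → ℕ) → Fin (r + 3) → ℤ := fun x =>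
    ∑ a, ((vec x a : ℕ) : ℤ) • cc a with hP
  have hPdot : ∀ x l, dot (P x) (L l) = ∑ a, (vec x a : ℤ) * dot (cc a) (L l) := by
    intro x l
    rw [hP]
    exact dot_sum cc (fun a => ((vec x a : ℕ) : ℤ)) (L l)
  have hPs : ∀ x b, dot (P x) (L (s b)) = (vec x b : ℤ) * D := by
    intro x b
    rw [hPdot, Finset.sum_eq_single b]
    · have h1 := dot_col (fun c => L (s c)) b b
      rw [if_pos rfl] at h1
      rw [hcc, h1]
    · intro a _ hab
      have h1 := dot_col (fun c => L (s c)) a b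
      rw [if_neg (Ne.symm hab)] at h1
      rw [hcc, h1, mul_zero]
    · intro h
      exact absurd (mem_univ b) h
  set i0 : Fin (r + 3) := 0 with hi0
  set i1 : Fin (r + 3) := Fin.succ 0 with hi1
  set i2 : Fin (r + 3) := Fin.succ (Fin.succ 0) with hi2
  have hv0 : ∀ x, vec (r := r) x i0 = x.1 := fun x => rfl
  have hv1 : ∀ x, vec (r := r) x i1 = x.2.1.1 := fun x => rfl
  have hv2 : ∀ x, vec (r := r) x i2 = x.2.1.2 := fun x => rfl
  have hv3 : ∀ x (a : Fin r), vec (r := r) x (Fin.succ (Fin.succ (Fin.succ a))) = x.2.2 a :=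
    fun x a => rfl
  set CP := (Ioc 0 M ×ˢ Ioc 0 M).filter fun x => x.1.Coprime x.2 with hCP
  set CQ := CP.filter fun x => M < 4 * max x.1 x.2 with hCQ
  set CR := CP.filter fun x => ¬ M < 4 * max x.1 x.2 with hCR
  have hCQcard : 3 / 16 * (M : ℝ) ^ 2 ≤ CQ.card := by
    have h1 := PP.coprime_pairs M
    rw [← hCP] at h1
    have h2 : CQ.card + CR.card = CP.card := Finset.card_filter_add_card_filter_not _
    have h3 : CR ⊆ Ioc 0 (M / 4) ×ˢ Ioc 0 (M / 4) := by
      intro x hx
      rw [hCR, mem_filter, hCP, mem_filter, mem_product, mem_Ioc, mem_Ioc] at hx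
      obtain ⟨⟨⟨h4, h5⟩, -⟩, h6⟩ := hx
      rw [mem_product, mem_Ioc, mem_Ioc]
      have h7 := le_max_left x.1 x.2
      have h8 := le_max_right x.1 x.2
      omega
    have h4 := Finset.card_le_card h3
    rw [Finset.card_product, Nat.card_Ioc, Nat.sub_zero] at h4
    have h5 : ((M / 4 : ℕ) : ℝ) ≤ (M : ℝ) / 4 := Nat.cast_div_le
    have h6 : (CR.card : ℝ) ≤ (M : ℝ) ^ 2 / 16 := by
      calc (CR.card : ℝ) ≤ ((M / 4 : ℕ) : ℝ) * ((M / 4 : ℕ) : ℝ) := by exact_mod_cast h4
        _ ≤ ((M : ℝ) / 4) * ((M : ℝ) / 4) := mul_le_mul h5 h5 (Nat.cast_nonneg _) (by positivity)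
        _ = _ := by ring
    have h7 : (CQ.card : ℝ) + CR.card = CP.card := by exact_mod_cast h2
    linarith
  set PR : Finset (Fin r → ℕ) := Fintype.piFinset fun _ : Fin r => Ioc 0 M with hPR
  have hPRcard : PR.card = M ^ r := by
    rw [hPR, Fintype.card_piFinset]
    simp
  set TB : Finset (ℕ × (ℕ × ℕ) × (Fin r → ℕ)) := Ioc 0 Y ×ˢ CQ ×ˢ PR with hTB
  have hTBcard : TB.card = Y * (CQ.card * M ^ r) := by
    rw [hTB, Finset.card_product, Finset.card_product, Nat.card_Ioc, Nat.sub_zero, hPRcard]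
  set T₀ := TB.filter fun x => ∀ l, dot (P x) (L l) ≠ 0 with hT₀
  set T₁ := TB.filter fun x => ¬ ∀ l, dot (P x) (L l) ≠ 0 with hT₁
  have hmemCQ : ∀ x ∈ CQ, 0 < x.1 ∧ x.1 ≤ M ∧ 0 < x.2 ∧ x.2 ≤ M ∧ x.1.Coprime x.2 ∧
      M < 4 * max x.1 x.2 := by
    intro x hx
    rw [hCQ, mem_filter, hCP, mem_filter, mem_product, mem_Ioc, mem_Ioc] at hx
    obtain ⟨⟨⟨⟨h1, h2⟩, h3, h4⟩, h5⟩, h6⟩ := hx
    exact ⟨h1, h2, h3, h4, h5, h6⟩
  have hmemTB : ∀ x ∈ TB, (0 < x.1 ∧ x.1 ≤ Y) ∧ x.2.1 ∈ CQ ∧ ∀ a, 0 < x.2.2 a ∧ x.2.2 a ≤ M := by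
    intro x hx
    rw [hTB, mem_product, mem_product, mem_Ioc, hPR, Fintype.mem_piFinset] at hx
    exact ⟨hx.1, hx.2.1, fun a => mem_Ioc.1 (hx.2.2 a)⟩
  have hvec : ∀ x ∈ TB, ∀ a, 0 < vec x a ∧ vec x a ≤ M := by
    intro x hx a
    obtain ⟨h1, h2, h3⟩ := hmemTB x hx
    obtain ⟨h4, h5, h6, h7, -, -⟩ := hmemCQ _ h2
    refine Fin.cases ?_ (fun a => ?_) a
    · exact ⟨h1.1, h1.2.trans hYM⟩
    refine Fin.cases ?_ (fun a => ?_) a
    · exact ⟨h4, h5⟩
    refine Fin.cases ?_ (fun a => ?_) a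
    · exact ⟨h6, h7⟩
    · exact h3 a
  have hT₁card : T₁.card ≤ q * (Y * (M * M ^ r)) := by
    have h1 : T₁ ⊆ (univ : Finset (Fin q)).biUnion fun l =>
        TB.filter fun x => dot (P x) (L l) = 0 := by
      intro x hx
      rw [hT₁, mem_filter] at hx
      obtain ⟨h2, h3⟩ := hx
      push Not at h3
      obtain ⟨l, hl⟩ := h3
      rw [mem_biUnion]
      exact ⟨l, mem_univ _, mem_filter.2 ⟨h2, hl⟩⟩
    refine (Finset.card_le_card h1).trans (Finset.card_biUnion_le.trans ?_)
    have h2 : ∀ l ∈ (univ : Finset (Fin q)),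
        (TB.filter fun x => dot (P x) (L l) = 0).card ≤ Y * (M * M ^ r) := by
      intro l _
      by_cases hls : ∃ b, b ≠ i2 ∧ l = s b
      · obtain ⟨b, -, rfl⟩ := hls
        have h3 : TB.filter (fun x => dot (P x) (L (s b)) = 0) = ∅ := by
          rw [Finset.filter_eq_empty_iff]
          intro x hx h4
          rw [hPs] at h4
          rcases mul_eq_zero.1 h4 with h5 | h5
          · have h6 := (hvec x hx b).1
            have h7 : vec x b = 0 := by exact_mod_cast h5
            omega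
          · exact hD0 h5
        rw [h3]
        simp
      · have hγ : dot (cc i2) (L l) ≠ 0 := by
          refine col_ne g hsi i2 l fun b hb hlb => hls ⟨b, hb, hlb⟩
        have h3 : (TB.filter fun x => dot (P x) (L l) = 0).card ≤
            (Ioc 0 Y ×ˢ Ioc 0 M ×ˢ PR).card := by
          refine Finset.card_le_card_of_injOn (fun x => (x.1, x.2.1.1, x.2.2)) ?_ ?_
          · intro x hx
            have hx' := mem_filter.1 (Finset.mem_coe.1 hx)
            obtain ⟨h4, h5, h6⟩ := hmemTB x hx'.1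
            have h7 := hmemCQ _ h5
            rw [Finset.mem_coe, mem_product, mem_product]
            refine ⟨mem_Ioc.2 h4, mem_Ioc.2 ⟨h7.1, h7.2.1⟩, ?_⟩
            rw [hPR, Fintype.mem_piFinset]
            exact fun a => mem_Ioc.2 (h6 a)
          · intro x hx y hy h
            have hx' := (mem_filter.1 (Finset.mem_coe.1 hx)).2
            have hy' := (mem_filter.1 (Finset.mem_coe.1 hy)).2
            simp only [Prod.mk.injEq] at h
            rw [hPdot] at hx' hy'
            have h4 : ∑ a, ((vec x a : ℤ) - vec y a) * dot (cc a) (L l) = 0 := by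
              simp only [sub_mul, Finset.sum_sub_distrib]
              rw [hx', hy', sub_zero]
            rw [Finset.sum_eq_single i2] at h4
            · have h5 := (mul_eq_zero.1 h4).resolve_right hγ
              rw [hv2, hv2] at h5
              have h6 : x.2.1.2 = y.2.1.2 := by
                have : (x.2.1.2 : ℤ) = y.2.1.2 := by linarith
                exact_mod_cast this
              exact Prod.ext h.1 (Prod.ext (Prod.ext h.2.1 h6) h.2.2)
            · intro a _ ha
              have h5 : vec x a = vec y a := by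
                revert ha
                refine Fin.cases ?_ (fun a => ?_) a
                · intro _
                  exact h.1
                refine Fin.cases ?_ (fun a => ?_) a
                · intro _
                  exact h.2.1
                refine Fin.cases ?_ (fun a => ?_) a
                · intro ha
                  exact absurd rfl ha
                · intro _
                  exact congrFun h.2.2 a
              rw [h5, sub_self, zero_mul]
            · intro h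
              exact absurd (mem_univ i2) h
        rw [Finset.card_product, Finset.card_product, Nat.card_Ioc, Nat.card_Ioc, Nat.sub_zero,
          Nat.sub_zero, hPRcard] at h3
        exact h3
    refine (Finset.sum_le_sum h2).trans ?_
    rw [Finset.sum_const, Finset.card_univ, Fintype.card_fin, smul_eq_mul]
  have hT₀card : (1 / 16) * (M : ℝ) ^ ((r : ℝ) + 3 - κ) ≤ T₀.card := by
    have h1 : T₀.card + T₁.card = Y * (CQ.card * M ^ r) := by
      rw [hT₀, hT₁, Finset.card_filter_add_card_filter_not, hTBcard]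
    have h2 : (T₀.card : ℝ) + T₁.card = Y * (CQ.card * (M : ℝ) ^ r) := by exact_mod_cast h1
    have h3 : (T₁.card : ℝ) ≤ q * (Y * (M * (M : ℝ) ^ r)) := by exact_mod_cast hT₁card
    have h4 : (16 * q : ℝ) ≤ M := by exact_mod_cast hMq
    have hY0 : (0 : ℝ) ≤ Y := Nat.cast_nonneg Y
    have hMr : (0 : ℝ) ≤ (M : ℝ) ^ r := by positivity
    have h5 : (Y : ℝ) * (3 / 16 * (M : ℝ) ^ 2 * (M : ℝ) ^ r) ≤ Y * (CQ.card * (M : ℝ) ^ r) :=
      mul_le_mul_of_nonneg_left (mul_le_mul_of_nonneg_right hCQcard hMr) hY0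
    have h6 : (q : ℝ) * (Y * (M * (M : ℝ) ^ r)) ≤ Y * (1 / 16 * (M : ℝ) ^ 2 * (M : ℝ) ^ r) := by
      have h7 : (q : ℝ) * M ≤ 1 / 16 * (M : ℝ) ^ 2 := by nlinarith
      calc (q : ℝ) * (Y * (M * (M : ℝ) ^ r)) = Y * ((q * M) * (M : ℝ) ^ r) := by ring
        _ ≤ _ := mul_le_mul_of_nonneg_left (mul_le_mul_of_nonneg_right h7 hMr) hY0
    have h7 : (M : ℝ) ^ ((r : ℝ) + 3 - κ) = (M : ℝ) ^ (1 - κ) * ((M : ℝ) ^ 2 * (M : ℝ) ^ r) := by
      rw [← Real.rpow_natCast (M : ℝ) 2, ← Real.rpow_natCast (M : ℝ) r, ← Real.rpow_add hM0,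
        ← Real.rpow_add hM0]
      congr 1
      push_cast
      ring
    rw [h7]
    have h8 : (M : ℝ) ^ (1 - κ) / 2 * (1 / 8 * ((M : ℝ) ^ 2 * (M : ℝ) ^ r)) ≤
        Y * (1 / 8 * ((M : ℝ) ^ 2 * (M : ℝ) ^ r)) :=
      mul_le_mul_of_nonneg_right hYge (by positivity)
    linarith
  -- the image
  have hinj : Set.InjOn P (T₀ : Set (ℕ × (ℕ × ℕ) × (Fin r → ℕ))) := by
    intro x _ y _ h
    apply vec_inj
    funext a
    have h1 := hPs x a
    rw [h, hPs] at h1
    exact_mod_cast (mul_right_cancel₀ hD0 h1).symm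
  have hmemT : ∀ x ∈ T₀, x ∈ TB ∧ ∀ l, dot (P x) (L l) ≠ 0 := by
    intro x hx
    rw [hT₀, mem_filter] at hx
    exact hx
  obtain ⟨T', hT'card, hT'⟩ := prim_image hDn1 (T₀.image P) (by
    intro z hz
    obtain ⟨x, hx, rfl⟩ := mem_image.1 hz
    obtain ⟨h1, h4⟩ := hmemT x hx
    obtain ⟨h2, h3, -⟩ := hmemTB x h1
    obtain ⟨h5, h6, h7, h8, h9, h10⟩ := hmemCQ x.2.1 h3
    refine ⟨?_, fun d hd => ?_⟩
    · intro h0
      apply h4 (s i0)
      rw [h0, dot_zero]
    · have h11 : ∀ l, d ∣ dot (P x) (L l) := by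
        intro l
        unfold dot
        exact Finset.dvd_sum fun k _ => Dvd.dvd.mul_right (hd k) _
      have h12 := h11 (s i1)
      have h13 := h11 (s i2)
      rw [hPs, hv1] at h12
      rw [hPs, hv2] at h13
      exact Int.dvd_natAbs.2 (PP.coprime_dvd h9 h12 h13))
  refine ⟨T', ?_, ?_⟩
  · rw [Finset.card_image_of_injOn hinj] at hT'card
    have h1 : (T₀.card : ℝ) ≤ Dn * T'.card := by exact_mod_cast hT'card
    calc 1 / (16 * (Dn : ℝ)) * (M : ℝ) ^ ((r : ℝ) + 3 - κ) =
          (1 / 16 * (M : ℝ) ^ ((r : ℝ) + 3 - κ)) / Dn := by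
          field_simp
      _ ≤ (Dn * T'.card) / Dn := by
          refine div_le_div_of_nonneg_right (hT₀card.trans h1) (by positivity)
      _ = _ := by field_simp
  · intro x hx
    obtain ⟨hx1, z, hz, t, ht1, htD, hzx⟩ := hT' x hx
    obtain ⟨y, hy, rfl⟩ := mem_image.1 hz
    obtain ⟨h1, h4⟩ := hmemT y hy
    obtain ⟨h2, h3, -⟩ := hmemTB y h1
    obtain ⟨h5, h6, h7, h8, h9, h10⟩ := hmemCQ y.2.1 h3
    have hdotx : ∀ l, dot (P y) (L l) = t * dot x (L l) := by
      intro l
      rw [hzx, dot_smul]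
    have hnm : nm (P y) = t * nm x := by
      rw [hzx]
      exact nm_smul _ _
    have hnmx : nm x ≤ nm (P y) := by
      rw [hnm]
      exact Nat.le_mul_of_pos_left _ ht1
    have hnm2 : nm (P y) ≤ Dn * nm x := by
      rw [hnm]
      exact Nat.mul_le_mul_right _ htD
    have hx0 : ∀ l, dot x (L l) ≠ 0 := by
      intro l h0
      apply h4 l
      rw [hdotx, h0, mul_zero]
    have hdle : ∀ (w : Fin (r + 3) → ℤ) l, (dot w (L l)).natAbs ≤ F * nm w := by
      intro w l
      rw [hF]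
      exact dot_le g (abs_le_nm w) l
    refine ⟨hx1, ?_, hx0, ?_⟩
    · refine hnmx.trans ?_
      refine Finset.sup_le fun k _ => ?_
      have hval : P y k = ∑ a, (vec y a : ℤ) * cc a k := by
        rw [hP]
        simp only [Finset.sum_apply, Pi.smul_apply, smul_eq_mul]
      rw [hval]
      calc (∑ a, (vec y a : ℤ) * cc a k).natAbs ≤ ∑ a, ((vec y a : ℤ) * cc a k).natAbs :=
            Int.natAbs_sum_le _ _
        _ ≤ ∑ a, (cc a k).natAbs * M := by
            refine Finset.sum_le_sum fun a _ => ?_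
            rw [Int.natAbs_mul, Int.natAbs_natCast, mul_comm]
            exact Nat.mul_le_mul_left _ (hvec y h1 a).2
        _ = (∑ a, (cc a k).natAbs) * M := (Finset.sum_mul _ _ _).symm
        _ ≤ _ := Nat.mul_le_mul_right _ (col_sum_le L s k)
    · -- the lower bound of the height
      have hMx : M ≤ 4 * F * (Dn * nm x) := by
        have hmax : max y.2.1.1 y.2.1.2 ≤ F * nm (P y) := by
          refine max_le ?_ ?_
          · have e1 := hdle (P y) (s i1)
            rw [hPs, Int.natAbs_mul, Int.natAbs_natCast, hv1] at e1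
            exact (Nat.le_mul_of_pos_right _ (by omega)).trans e1
          · have e1 := hdle (P y) (s i2)
            rw [hPs, Int.natAbs_mul, Int.natAbs_natCast, hv2] at e1
            exact (Nat.le_mul_of_pos_right _ (by omega)).trans e1
        calc M ≤ 4 * max y.2.1.1 y.2.1.2 := h10.le
          _ ≤ 4 * (F * nm (P y)) := by omega
          _ ≤ 4 * (F * (Dn * nm x)) := by gcongr
          _ = _ := by ring
      have hx1' : (1 : ℝ) ≤ nm x := by exact_mod_cast nm_pos hx1.1
      have hLi : ((dot x (L (s i0))).natAbs : ℝ) ≤ Y * Dn := by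
        have e1 := hdotx (s i0)
        rw [hPs, hv0] at e1
        have e2 : y.1 * Dn = t * (dot x (L (s i0))).natAbs := by
          have := congrArg Int.natAbs e1
          rwa [Int.natAbs_mul, Int.natAbs_mul, Int.natAbs_natCast, Int.natAbs_natCast] at this
        have e3 : (dot x (L (s i0))).natAbs ≤ Y * Dn := by
          calc (dot x (L (s i0))).natAbs ≤ t * (dot x (L (s i0))).natAbs :=
                Nat.le_mul_of_pos_left _ ht1
            _ = y.1 * Dn := e2.symm
            _ ≤ _ := Nat.mul_le_mul_right _ h2.2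
        exact_mod_cast e3
      have hYx : (Y : ℝ) ≤ 4 * F * Dn * (nm x : ℝ) ^ (1 - κ) := by
        have e1 : (M : ℝ) ≤ (4 * F * Dn) * nm x := by
          have : (M : ℝ) ≤ 4 * F * (Dn * nm x) := by exact_mod_cast hMx
          linarith
        have e2 : (1 : ℝ) ≤ 4 * F * Dn := by nlinarith
        calc (Y : ℝ) ≤ (M : ℝ) ^ (1 - κ) := hYle
          _ ≤ ((4 * F * Dn) * nm x : ℝ) ^ (1 - κ) :=
              Real.rpow_le_rpow hM0.le e1 (by linarith)
          _ = (4 * F * Dn : ℝ) ^ (1 - κ) * (nm x : ℝ) ^ (1 - κ) :=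
              Real.mul_rpow (by positivity) (by positivity)
          _ ≤ (4 * F * Dn : ℝ) ^ (1 : ℝ) * (nm x : ℝ) ^ (1 - κ) := by
              refine mul_le_mul_of_nonneg_right ?_ (by positivity)
              exact Real.rpow_le_rpow_of_exponent_le e2 (by linarith)
          _ = _ := by rw [Real.rpow_one]
      have hprod0 : ∏ l, (dot x (L l)).natAbs ≠ 0 :=
        Finset.prod_ne_zero_iff.2 fun l _ => by simpa using hx0 l
      have hrest : ((∏ l ∈ univ.erase (s i0), (dot x (L l)).natAbs : ℕ) : ℝ) ≤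
          (F * nm x : ℝ) ^ (q - 1) := by
        have hc : (univ.erase (s i0) : Finset (Fin q)).card = q - 1 := by
          rw [Finset.card_erase_of_mem (mem_univ _), Finset.card_univ, Fintype.card_fin]
        rw [← hc, ← Finset.prod_const, Nat.cast_prod]
        refine Finset.prod_le_prod (fun l _ => by positivity) fun l _ => ?_
        have e1 := hdle x l
        exact_mod_cast e1
      have hle : ((∏ l, (dot x (L l)).natAbs : ℕ) : ℝ) ≤
          (4 * F * Dn * (nm x : ℝ) ^ (1 - κ) * Dn) * (F * nm x : ℝ) ^ (q - 1) := by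
        rw [← Finset.mul_prod_erase univ _ (mem_univ (s i0)), Nat.cast_mul]
        refine mul_le_mul (hLi.trans ?_) hrest (Nat.cast_nonneg _) (by positivity)
        exact mul_le_mul_of_nonneg_right hYx (by positivity)
      calc (PP.rd (∏ l, (dot x (L l)).natAbs) : ℝ) ≤
            ((∏ l, (dot x (L l)).natAbs : ℕ) : ℝ) := by
            exact_mod_cast PP.rd_le_self hprod0
        _ ≤ _ := hle
        _ = 4 * F * Dn ^ 2 * (F : ℝ) ^ (q - 1) *
            ((nm x : ℝ) ^ (1 - κ) * (nm x : ℝ) ^ (q - 1)) := by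
            rw [mul_pow]
            ring
        _ = _ := by
            rw [← Real.rpow_natCast (nm x : ℝ) (q - 1), ← Real.rpow_add (by linarith)]
            congr 2
            rw [Nat.cast_sub (by omega)]
            push_cast
            ring

end Pool.Agent.K4H9.PN
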