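import Pool.Agent.K4H9.PN.Low

set_option autoImplicit false

/-!
The bound by the number of radicals.
-/

namespace Pool.Agent.K4H9.PN

open Finset

variable {N q : ℕ} {L : Fin q → Fin N → ℤ} {Θ H : ℕ}

theorem upper_triv (g : GP L Θ H) {κ : ℝ} (hκq : κ ≤ q) {Cc : ℝ} (hCc : 1 ≤ Cc)
    {δ : ℝ} (hδ : 0 < δ) :
    ∃ C : ℝ, 0 < C ∧ ∀ B : ℕ, 1 ≤ B → ∀ T : Finset (Fin N → ℤ), (∀ x ∈ T, Cont 1 x ∧
      nm x ≤ B ∧ (∀ l, dot x (L l) ≠ 0) ∧
      (PP.rd (∏ l, (dot x (L l)).natAbs) : ℝ) ≤ Cc * (nm x : ℝ) ^ ((q : ℝ) - κ)) →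
      (T.card : ℝ) ≤ C * (B : ℝ) ^ ((q : ℝ) - κ + δ) := by
  classical
  have hN3 := g.N3
  have hqN := g.qN
  have hH := g.H1
  obtain ⟨C₁, hC₁0, hC₁⟩ := PP.sum_inv_rd q hδ
  obtain ⟨F, hF⟩ : ∃ F : ℕ, F = N * H := ⟨_, rfl⟩
  have hF1 : 1 ≤ F := by
    rw [hF]
    exact Nat.mul_pos (by omega) hH
  set s : Fin N → Fin q := Fin.castLE hqN with hs
  have hsi : Function.Injective s := Fin.castLE_injective hqN
  have hD0 := (g.d s hsi).1
  refine ⟨2 ^ N * Cc * C₁ * (F : ℝ) ^ δ, by positivity, fun B hB T hT => ?_⟩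
  have hB1 : (1 : ℝ) ≤ B := by exact_mod_cast hB
  have hB0 : (0 : ℝ) < B := by linarith
  set f : (Fin N → ℤ) → Fin q → ℕ := fun x l => (dot x (L l)).natAbs with hf
  have h1 : T.card ≤ 2 ^ N * (T.image f).card := by
    refine Finset.card_le_mul_card_image_of_maps_to (fun z hz => mem_image_of_mem f hz) _ ?_
    intro m _
    have h2 : (T.filter fun x => f x = m).card ≤
        (Fintype.piFinset fun a : Fin N => ({(m (s a) : ℤ), -(m (s a) : ℤ)} : Finset ℤ)).card := by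
      refine Finset.card_le_card_of_injOn (zz fun a => L (s a)) ?_ ?_
      · intro x hx
        have hx' := (mem_filter.1 (Finset.mem_coe.1 hx)).2
        rw [Finset.mem_coe, Fintype.mem_piFinset]
        intro a
        have h3 : (dot x (L (s a))).natAbs = m (s a) := congrFun hx' (s a)
        rw [mem_insert, mem_singleton]
        change dot x (L (s a)) = _ ∨ dot x (L (s a)) = _
        rw [← h3]
        exact Int.natAbs_eq _
      · intro x _ y _ h
        exact zz_inj hD0 h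
    refine h2.trans ?_
    rw [Fintype.card_piFinset]
    calc ∏ a : Fin N, ({(m (s a) : ℤ), -(m (s a) : ℤ)} : Finset ℤ).card ≤ ∏ _a : Fin N, 2 :=
          Finset.prod_le_prod' fun a _ => Finset.card_le_two
      _ = 2 ^ N := by simp
  set X : ℕ := F * B with hX
  have hX1 : 1 ≤ X := Nat.mul_pos hF1 hB
  have h2 : ((T.image f).card : ℝ) ≤ Cc * (B : ℝ) ^ ((q : ℝ) - κ) * (C₁ * (X : ℝ) ^ δ) := by
    have h3 : ∀ m ∈ T.image f, (1 : ℝ) ≤
        Cc * (B : ℝ) ^ ((q : ℝ) - κ) * (1 / (PP.rd (∏ l, m l) : ℝ)) := by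
      intro m hm
      obtain ⟨x, hx, rfl⟩ := mem_image.1 hm
      obtain ⟨h4, h5, h6, h7⟩ := hT x hx
      have h8 : (0 : ℝ) < PP.rd (∏ l, f x l) := by exact_mod_cast PP.rd_pos _
      rw [mul_one_div, le_div_iff₀ h8, one_mul]
      refine h7.trans ?_
      refine mul_le_mul_of_nonneg_left ?_ (by linarith)
      exact Real.rpow_le_rpow (Nat.cast_nonneg _) (by exact_mod_cast h5) (by linarith)
    calc ((T.image f).card : ℝ) = ∑ _m ∈ T.image f, (1 : ℝ) := by
          rw [Finset.sum_const, nsmul_eq_mul, mul_one]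
      _ ≤ ∑ m ∈ T.image f, Cc * (B : ℝ) ^ ((q : ℝ) - κ) * (1 / (PP.rd (∏ l, m l) : ℝ)) :=
          Finset.sum_le_sum h3
      _ = Cc * (B : ℝ) ^ ((q : ℝ) - κ) * ∑ m ∈ T.image f, 1 / (PP.rd (∏ l, m l) : ℝ) := by
          rw [Finset.mul_sum]
      _ ≤ Cc * (B : ℝ) ^ ((q : ℝ) - κ) * (C₁ * (X : ℝ) ^ δ) := by
          refine mul_le_mul_of_nonneg_left ?_ (by positivity)
          refine le_trans ?_ (hC₁ X hX1)
          refine Finset.sum_le_sum_of_subset_of_nonneg ?_ fun _ _ _ => by positivity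
          intro m hm
          obtain ⟨x, hx, rfl⟩ := mem_image.1 hm
          obtain ⟨h4, h5, h6, h7⟩ := hT x hx
          rw [Fintype.mem_piFinset]
          intro l
          rw [mem_Icc]
          refine ⟨?_, ?_⟩
          · have := h6 l
            simp only [hf]
            omega
          · rw [hX, hF]
            exact (dot_le g (abs_le_nm x) l).trans (Nat.mul_le_mul_left _ h5)
  have h3 : (T.card : ℝ) ≤ 2 ^ N * ((T.image f).card : ℝ) := by exact_mod_cast h1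
  calc (T.card : ℝ) ≤ 2 ^ N * ((T.image f).card : ℝ) := h3
    _ ≤ 2 ^ N * (Cc * (B : ℝ) ^ ((q : ℝ) - κ) * (C₁ * (X : ℝ) ^ δ)) := by gcongr
    _ = 2 ^ N * Cc * C₁ * (F : ℝ) ^ δ * ((B : ℝ) ^ ((q : ℝ) - κ) * (B : ℝ) ^ δ) := by
        rw [hX]
        push_cast
        rw [Real.mul_rpow (Nat.cast_nonneg _) hB0.le]
        ring
    _ = _ := by rw [← Real.rpow_add hB0]

end Pool.Agent.K4H9.PN
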