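import Pool.Agent.K4H9.PN.Two
import Pool.Agent.K4H9.PN.Triv
import Pool.Agent.K4H9.PP.Main

set_option autoImplicit false

/-!
Translation to heights and counting functions.
-/

namespace Pool.Agent.K4H9.PN

open Finset

/-- the value at `x` of the linear form with coefficients `a` -/
def form {n : ℕ} (a x : Fin (n + 1) → ℤ) : ℤ := ∑ j, a j * x j

/-- the truncated counting function -/
noncomputable def N1 (S : Finset ℕ) (a : ℤ) : ℝ := ∑ p ∈ a.natAbs.primeFactors \ S, Real.log p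

/-- the height -/
noncomputable def ht {n : ℕ} (x : Fin (n + 1) → ℤ) : ℝ :=
  Real.log ((univ.sup fun j => (x j).natAbs : ℕ) : ℝ)

/-- the exceptions -/
def Exc {n q : ℕ} (L : Fin q → Fin (n + 1) → ℤ) (S : Finset ℕ) (κ c B : ℝ) :
    Set (Fin (n + 1) → ℤ) :=
  {x | univ.gcd x = 1 ∧ (∀ i, form (L i) x ≠ 0) ∧ ht x ≤ Real.log B ∧
    N1 S (∏ i, form (L i) x) ≤ ((q : ℝ) - κ) * ht x + c}

variable {n q : ℕ} {L : Fin q → Fin (n + 1) → ℤ}

lemma form_eq (a x : Fin (n + 1) → ℤ) : form a x = dot x a := by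
  unfold form dot
  exact Finset.sum_congr rfl fun j _ => mul_comm _ _

lemma ht_eq (x : Fin (n + 1) → ℤ) : ht x = Real.log (nm x) := rfl

lemma cont_of_gcd {x : Fin (n + 1) → ℤ} (h : univ.gcd x = 1) : Cont 1 x := by
  refine ⟨?_, fun d hd => ?_⟩
  · rintro rfl
    have h1 : univ.gcd (0 : Fin (n + 1) → ℤ) = 0 := by
      rw [Finset.gcd_eq_zero_iff]
      intro i _
      rfl
    rw [h1] at h
    exact zero_ne_one h
  · have : d ∣ univ.gcd x := Finset.dvd_gcd fun i _ => hd i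
    rw [h] at this
    exact_mod_cast this

lemma gcd_of_cont {x : Fin (n + 1) → ℤ} (h : Cont 1 x) : univ.gcd x = 1 := by
  have h1 : univ.gcd x ∣ ((1 : ℕ) : ℤ) := h.2 _ fun k => Finset.gcd_dvd (mem_univ k)
  rw [Nat.cast_one] at h1
  have h2 : normalize (univ.gcd x) = univ.gcd x := Finset.normalize_gcd
  rw [← h2]
  exact normalize_eq_one.2 (isUnit_of_dvd_one h1)

lemma ht_nonneg {x : Fin (n + 1) → ℤ} (h : Cont 1 x) : 0 ≤ ht x := by
  rw [ht_eq]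
  exact Real.log_nonneg (by exact_mod_cast nm_pos h.1)

lemma natAbs_prod (L : Fin q → Fin (n + 1) → ℤ) (x : Fin (n + 1) → ℤ) :
    (∏ i, form (L i) x).natAbs = ∏ l, (dot x (L l)).natAbs := by
  have h1 := map_prod Int.natAbsHom (fun i => form (L i) x) univ
  simp only [Int.natAbsHom_apply] at h1
  rw [h1]
  exact Finset.prod_congr rfl fun l _ => by rw [form_eq]

lemma exc_sub (S : Finset ℕ) (κ c B : ℝ) (hB : 1 ≤ B) :
    Exc L S κ c B ⊆ {x | Cont 1 x ∧ nm x ≤ ⌊B⌋₊} := by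
  intro x hx
  obtain ⟨h1, h2, h3, h4⟩ := hx
  have hc := cont_of_gcd h1
  refine ⟨hc, ?_⟩
  rw [ht_eq] at h3
  have h5 : (0 : ℝ) < nm x := by exact_mod_cast nm_pos hc.1
  exact Nat.le_floor ((Real.log_le_log_iff h5 (by linarith)).1 h3)

lemma exc_finite (S : Finset ℕ) (κ c B : ℝ) (hB : 1 ≤ B) : (Exc L S κ c B).Finite := by
  refine ((Fintype.piFinset fun _ : Fin (n + 1) =>
    Icc (-(⌊B⌋₊ : ℤ)) ⌊B⌋₊).finite_toSet).subset ?_
  intro x hx
  obtain ⟨-, h1⟩ := exc_sub S κ c B hB hx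
  rw [Finset.mem_coe, Fintype.mem_piFinset]
  intro k
  rw [mem_Icc]
  refine abs_le.1 ((abs_le_nm x k).trans ?_)
  exact_mod_cast h1

lemma rd_of_exc {S : Finset ℕ} {κ c B : ℝ} {x : Fin (n + 1) → ℤ} (hx : x ∈ Exc L S κ c B) {κ' : ℝ}
    (hκ' : κ' ≤ κ) : (PP.rd (∏ l, (dot x (L l)).natAbs) : ℝ) ≤
      ((∏ p ∈ S, (p + 1 : ℕ) : ℕ) * Real.exp (max c 0)) * (nm x : ℝ) ^ ((q : ℝ) - κ') := by
  obtain ⟨h1, h2, h3, h4⟩ := hx
  have hc := cont_of_gcd h1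
  have h5 : (0 : ℝ) < nm x := by exact_mod_cast nm_pos hc.1
  rw [← natAbs_prod]
  refine (PP.rd_le_exp S _).trans ?_
  rw [mul_assoc]
  refine mul_le_mul_of_nonneg_left ?_ (Nat.cast_nonneg _)
  have h6 : PP.N1 S (∏ i, form (L i) x) ≤ max c 0 + ((q : ℝ) - κ') * ht x := by
    have h7 := ht_nonneg hc
    have h8 : ((q : ℝ) - κ) * ht x ≤ ((q : ℝ) - κ') * ht x :=
      mul_le_mul_of_nonneg_right (by linarith) h7
    have h9 := le_max_left c 0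
    have h10 : PP.N1 S (∏ i, form (L i) x) = N1 S (∏ i, form (L i) x) := rfl
    rw [h10]
    linarith
  calc Real.exp (PP.N1 S (∏ i, form (L i) x)) ≤ Real.exp (max c 0 + ((q : ℝ) - κ') * ht x) :=
        Real.exp_le_exp.2 h6
    _ = _ := by
        rw [Real.exp_add, ht_eq, Real.rpow_def_of_pos h5]
        congr 2
        ring

/-- the exponent -/
noncomputable def ex (n q : ℕ) (κ : ℝ) : ℝ := max ((n : ℝ) + 1 - κ) (min n (q - κ))

lemma upper_one (hn : 2 ≤ n) (hq : n + 1 ≤ q)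
    (hL : ∀ s : Fin (n + 1) → Fin q, Function.Injective s → (Matrix.of fun a => L (s a)).det ≠ 0)
    (S : Finset ℕ) {κ : ℝ} (hκ : 0 ≤ κ) (hκq : κ ≤ q) (c : ℝ) {δ : ℝ} (hδ : 0 < δ) :
    ∃ C : ℝ, 0 < C ∧ ∀ B : ℕ, 1 ≤ B → ∀ T : Finset (Fin (n + 1) → ℤ),
      (∀ x ∈ T, x ∈ Exc L S κ c B) → (T.card : ℝ) ≤ C * (B : ℝ) ^ (ex n q κ + δ) := by
  obtain ⟨Θ, H, g⟩ := exists_GP (by omega) hq L hL
  set Cc : ℝ := (∏ p ∈ S, (p + 1 : ℕ) : ℕ) * Real.exp (max c 0) with hCc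
  have hCc1 : 1 ≤ Cc := by
    have h1 : (1 : ℝ) ≤ ((∏ p ∈ S, (p + 1 : ℕ) : ℕ) : ℝ) := by
      have : 1 ≤ ∏ p ∈ S, (p + 1 : ℕ) := Finset.one_le_prod' fun p _ => by omega
      exact_mod_cast this
    have h2 : 1 ≤ Real.exp (max c 0) := Real.one_le_exp (le_max_right _ _)
    calc (1 : ℝ) = 1 * 1 := by norm_num
      _ ≤ _ := mul_le_mul h1 h2 (by norm_num) (by linarith)
  have hmem : ∀ (κ' : ℝ), κ' ≤ κ → ∀ B : ℕ, 1 ≤ B → ∀ x ∈ Exc L S κ c (B : ℝ), Cont 1 x ∧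
      nm x ≤ B ∧ (∀ l, dot x (L l) ≠ 0) ∧
      (PP.rd (∏ l, (dot x (L l)).natAbs) : ℝ) ≤ Cc * (nm x : ℝ) ^ ((q : ℝ) - κ') := by
    intro κ' hκ' B hB x hx
    have hB' : (1 : ℝ) ≤ B := by exact_mod_cast hB
    obtain ⟨h2, h3⟩ := exc_sub S κ c B hB' hx
    rw [Nat.floor_natCast] at h3
    refine ⟨h2, h3, fun l => ?_, rd_of_exc hx hκ'⟩
    have := hx.2.1 l
    rwa [form_eq] at this
  by_cases hcase : 1 < κ ∧ (q : ℝ) - κ < n
  · obtain ⟨C, hC0, hC⟩ := upper_triv g hκq hCc1 hδ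
    refine ⟨C, hC0, fun B hB T hT => ?_⟩
    have hB' : (1 : ℝ) ≤ B := by exact_mod_cast hB
    refine (hC B hB T fun x hx => hmem κ le_rfl B hB x (hT x hx)).trans ?_
    refine mul_le_mul_of_nonneg_left ?_ hC0.le
    refine Real.rpow_le_rpow_of_exponent_le hB' ?_
    have h1 : (q : ℝ) - κ ≤ ex n q κ := by
      unfold ex
      refine le_trans ?_ (le_max_right _ _)
      exact le_min hcase.2.le le_rfl
    linarith
  · set κ' := min κ 1 with hκ'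
    have hκ'0 : 0 ≤ κ' := le_min hκ zero_le_one
    have hκ'1 : κ' ≤ 1 := min_le_right _ _
    obtain ⟨C, hC0, hC⟩ := upper g hκ'0 hκ'1 hCc1 hδ
    refine ⟨C, hC0, fun B hB T hT => ?_⟩
    have hB' : (1 : ℝ) ≤ B := by exact_mod_cast hB
    refine (hC B hB T fun x hx => hmem κ' (min_le_left _ _) B hB x (hT x hx)).trans ?_
    refine mul_le_mul_of_nonneg_left ?_ hC0.le
    refine Real.rpow_le_rpow_of_exponent_le hB' ?_
    have h1 : (n : ℝ) + 1 - κ' ≤ ex n q κ := by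
      unfold ex
      rw [hκ']
      rcases le_or_gt κ 1 with h | h
      · rw [min_eq_left h]
        exact le_max_left _ _
      · rw [min_eq_right h.le]
        refine le_trans ?_ (le_max_right _ _)
        have h2 : (n : ℝ) ≤ q - κ := by
          by_contra h3
          exact hcase ⟨h, not_le.1 h3⟩
        exact le_min (by linarith) (by linarith)
    linarith

theorem upper_main (hn : 2 ≤ n) (hq : n + 1 ≤ q)
    (hL : ∀ s : Fin (n + 1) → Fin q, Function.Injective s → (Matrix.of fun a => L (s a)).det ≠ 0)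
    (S : Finset ℕ) {κ : ℝ} (hκ : 0 ≤ κ) (hκq : κ ≤ q) (c : ℝ) {δ : ℝ} (hδ : 0 < δ) :
    ∃ C : ℝ, ∀ B : ℝ, 1 ≤ B → (Exc L S κ c B).Finite ∧
      ((Exc L S κ c B).ncard : ℝ) ≤ C * B ^ (max ((n : ℝ) + 1 - κ) (min n (q - κ)) + δ) := by
  obtain ⟨C, hC0, hC⟩ := upper_one hn hq hL S hκ hκq c hδ
  refine ⟨C, fun B hB => ?_⟩
  have hfin := exc_finite (L := L) S κ c B hB
  refine ⟨hfin, ?_⟩
  have hB1 : 1 ≤ ⌊B⌋₊ := Nat.le_floor (by exact_mod_cast hB)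
  rw [Set.ncard_eq_toFinset_card _ hfin]
  have h1 := hC ⌊B⌋₊ hB1 hfin.toFinset (by
    intro x hx
    rw [Set.Finite.mem_toFinset] at hx
    obtain ⟨h2, h3⟩ := exc_sub S κ c B hB hx
    refine ⟨hx.1, hx.2.1, ?_, hx.2.2.2⟩
    rw [ht_eq]
    refine Real.log_le_log ?_ (by exact_mod_cast h3)
    exact_mod_cast nm_pos h2.1)
  refine h1.trans ?_
  refine mul_le_mul_of_nonneg_left ?_ hC0.le
  refine Real.rpow_le_rpow (Nat.cast_nonneg _) (Nat.floor_le (by linarith)) ?_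
  have h2 : 0 ≤ ex n q κ := by
    unfold ex
    refine le_trans ?_ (le_max_right _ _)
    exact le_min (Nat.cast_nonneg n) (by linarith)
  linarith

lemma mem_exc {S : Finset ℕ} {κ c B C : ℝ} (hC : 0 < C) (hc : Real.log C ≤ c)
    {x : Fin (n + 1) → ℤ} (hx : Cont 1 x) (hxB : (nm x : ℝ) ≤ B) (hx0 : ∀ l, dot x (L l) ≠ 0)
    (hrd : (PP.rd (∏ l, (dot x (L l)).natAbs) : ℝ) ≤ C * (nm x : ℝ) ^ ((q : ℝ) - κ)) :
    x ∈ Exc L S κ c B := by
  have h5 : (0 : ℝ) < nm x := by exact_mod_cast nm_pos hx.1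
  refine ⟨gcd_of_cont hx, fun i => by rw [form_eq]; exact hx0 i, ?_, ?_⟩
  · rw [ht_eq]
    exact Real.log_le_log h5 hxB
  · have h0 : N1 S (∏ i, form (L i) x) = PP.N1 S (∏ i, form (L i) x) := rfl
    rw [h0]
    refine (PP.N1_le S _).trans ?_
    rw [natAbs_prod]
    have h6 : (0 : ℝ) < PP.rd (∏ l, (dot x (L l)).natAbs) := by exact_mod_cast PP.rd_pos _
    have h7 := Real.log_le_log h6 hrd
    rw [Real.log_mul hC.ne' (by positivity), Real.log_rpow h5, ← ht_eq] at h7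
    linarith

/-- from finite sets to the exceptions -/
lemma transfer (S : Finset ℕ) {κ e C m : ℝ} {E M₀ : ℕ} (he : 0 ≤ e) (hC : 0 < C) (hm : 0 < m)
    (hE : 1 ≤ E) (hT : ∀ M : ℕ, M₀ ≤ M → 1 ≤ M → ∃ T : Finset (Fin (n + 1) → ℤ),
      m * (M : ℝ) ^ e ≤ (T.card : ℝ) ∧ ∀ x ∈ T, Cont 1 x ∧ nm x ≤ E * M ∧
      (∀ l, dot x (L l) ≠ 0) ∧
      (PP.rd (∏ l, (dot x (L l)).natAbs) : ℝ) ≤ C * (nm x : ℝ) ^ ((q : ℝ) - κ)) :
    ∃ c₀ : ℝ, ∀ c : ℝ, c₀ ≤ c → ∃ m : ℝ, 0 < m ∧ ∃ B₀ : ℝ, 1 ≤ B₀ ∧ ∀ B : ℝ, B₀ ≤ B →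
      m * B ^ e ≤ ((Exc L S κ c B).ncard : ℝ) := by
  have hEr : (1 : ℝ) ≤ E := by exact_mod_cast hE
  have hE0 : (0 : ℝ) < E := by linarith
  refine ⟨Real.log C, fun c hc => ?_⟩
  refine ⟨m * (1 / (2 * E)) ^ e, by positivity, 2 * E * (M₀ + 1), ?_, fun B hB => ?_⟩
  · have hq0 : (0 : ℝ) ≤ M₀ := Nat.cast_nonneg M₀
    nlinarith
  have hq0 : (0 : ℝ) ≤ M₀ := Nat.cast_nonneg M₀
  have hB1 : 1 ≤ B := by
    refine le_trans ?_ hB
    nlinarith
  set M : ℕ := ⌊B / E⌋₊ with hM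
  have hMle : (M : ℝ) ≤ B / E := Nat.floor_le (by positivity)
  have hMlt : B / E < M + 1 := Nat.lt_floor_add_one _
  have hBM : 2 * (M₀ + 1) ≤ B / (E : ℝ) := by
    rw [le_div_iff₀ hE0]
    linarith
  have hMge : B / (2 * E) ≤ M := by
    have e1 : B / (2 * (E : ℝ)) = (B / E) / 2 := by
      field_simp
    rw [e1]
    linarith
  have hM1 : M₀ + 1 ≤ M := by
    have : ((M₀ + 1 : ℕ) : ℝ) ≤ M := by
      push_cast
      linarith
    exact_mod_cast this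
  obtain ⟨T, hT1, hT2⟩ := hT M (by omega) (by omega)
  have hsub : (T : Set (Fin (n + 1) → ℤ)) ⊆ Exc L S κ c B := by
    intro x hx
    obtain ⟨h1, h2, h3, h4⟩ := hT2 x hx
    refine mem_exc hC hc h1 ?_ h3 h4
    calc (nm x : ℝ) ≤ E * M := by exact_mod_cast h2
      _ ≤ E * (B / E) := by gcongr
      _ = B := by field_simp
  have hcard : (T.card : ℝ) ≤ ((Exc L S κ c B).ncard : ℝ) := by
    have := Set.ncard_le_ncard hsub (exc_finite S κ c B hB1)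
    rw [Set.ncard_coe_finset] at this
    exact_mod_cast this
  refine le_trans ?_ (hT1.trans hcard)
  rw [mul_assoc, ← Real.mul_rpow (by positivity) (by linarith)]
  refine mul_le_mul_of_nonneg_left ?_ hm.le
  refine Real.rpow_le_rpow (by positivity) ?_ he
  calc 1 / (2 * (E : ℝ)) * B = B / (2 * (E : ℝ)) := by ring
    _ ≤ (M : ℝ) := hMge

theorem lower_main (hn : 2 ≤ n) (hq : n + 2 ≤ q)
    (hL : ∀ s : Fin (n + 1) → Fin q, Function.Injective s → (Matrix.of fun a => L (s a)).det ≠ 0)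
    (S : Finset ℕ) {κ : ℝ} (hκ : 0 ≤ κ) (hκq : κ ≤ q)
    (hcase : κ ≤ 1 ∨ (n = 2 ∧ κ ≤ 2) ∨ (q = n + 2 ∧ n ≤ κ)) :
    ∃ c₀ : ℝ, ∀ c : ℝ, c₀ ≤ c → ∃ m : ℝ, 0 < m ∧ ∃ B₀ : ℝ, 1 ≤ B₀ ∧ ∀ B : ℝ, B₀ ≤ B →
      m * B ^ (max ((n : ℝ) + 1 - κ) (min n (q - κ))) ≤ ((Exc L S κ c B).ncard : ℝ) := by
  rcases hcase with h | ⟨rfl, h⟩ | ⟨rfl, h⟩
  · obtain ⟨r, rfl⟩ : ∃ r, n = r + 2 := ⟨n - 2, by omega⟩
    obtain ⟨Θ, H, g⟩ := exists_GP (by omega) (by omega) L hL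
    obtain ⟨C, m, hC, hm, hT⟩ := lower (r := r) g hκ h
    have h1 : max (((r + 2 : ℕ) : ℝ) + 1 - κ) (min ((r + 2 : ℕ) : ℝ) (q - κ)) =
        (r : ℝ) + 3 - κ := by
      rw [max_eq_left]
      · push_cast
        ring
      · refine le_trans (min_le_left _ _) ?_
        linarith
    rw [h1]
    refine transfer S ?_ hC hm (EE_pos L) hT
    have : (0 : ℝ) ≤ r := Nat.cast_nonneg r
    linarith
  · have h1 := PP.lower_main (q := q) (L := L) (by omega) (by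
      intro i j k hij hik hjk
      have h2 := hL ![i, j, k] (inj3 hij hik hjk)
      have h3 : (Matrix.of fun a => L (![i, j, k] a)) = Matrix.of ![L i, L j, L k] := by
        ext a b
        fin_cases a <;> rfl
      rw [h3] at h2
      exact h2) S hκ h
    have h4 : max (((2 : ℕ) : ℝ) + 1 - κ) (min ((2 : ℕ) : ℝ) (q - κ)) = max (3 - κ) 2 := by
      have h5 : (4 : ℝ) ≤ q := by exact_mod_cast hq
      push_cast
      rw [min_eq_left (by linarith)]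
      congr 1
      ring
    rw [h4]
    exact h1
  · obtain ⟨r, rfl⟩ : ∃ r, n = r + 2 := ⟨n - 2, by omega⟩
    obtain ⟨Θ, H, g⟩ := exists_GP (by omega) (by omega) L hL
    have h0 : 0 ≤ ((r + 3 + 1 : ℕ) : ℝ) - κ := by
      have : ((r + 3 + 1 : ℕ) : ℝ) = ((r + 2 + 2 : ℕ) : ℝ) := by norm_cast
      rw [this]
      linarith
    have h2 : ((r + 3 + 1 : ℕ) : ℝ) - κ ≤ 2 := by
      push_cast at h ⊢
      linarith
    obtain ⟨C, m, E, hC, hm, hE, hT⟩ := lower_two (r := r) g h0 h2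
    have h1 : max (((r + 2 : ℕ) : ℝ) + 1 - κ) (min ((r + 2 : ℕ) : ℝ) ((r + 2 + 2 : ℕ) - κ)) =
        ((r + 3 + 1 : ℕ) : ℝ) - κ := by
      have h3 : (0 : ℝ) ≤ r := Nat.cast_nonneg r
      push_cast at h2 ⊢
      rw [min_eq_right (by linarith), max_eq_right (by linarith)]
      ring
    rw [h1]
    exact transfer (M₀ := 0) S h0 hC hm hE fun M _ hM => hT M hM

end Pool.Agent.K4H9.PN
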