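import Pool.Agent.K4H9.PN.Low

set_option autoImplicit false

/-!
Lower bounds from lines on which the forms fall into two classes.
-/

namespace Pool.Agent.K4H9.PN

open Finset

/-- pairs of coprime integers in a rectangle -/
lemma coprime_rect (Y M : ℕ) : (Y : ℝ) * M / 4 ≤
    (((Ioc 0 Y ×ˢ Ioc 0 M).filter fun x => x.1.Coprime x.2).card : ℝ) := by
  classical
  have hM0 : (0 : ℝ) ≤ M := Nat.cast_nonneg M
  have hY0 : (0 : ℝ) ≤ Y := Nat.cast_nonneg Y
  have hYM : (0 : ℝ) ≤ (Y : ℝ) * M := mul_nonneg hY0 hM0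
  set A := (Ioc 0 Y ×ˢ Ioc 0 M).filter fun x => x.1.Coprime x.2 with hA
  set A' := (Ioc 0 Y ×ˢ Ioc 0 M).filter fun x => ¬ x.1.Coprime x.2 with hA'
  have h1 : A.card + A'.card = Y * M := by
    rw [hA, hA', Finset.card_filter_add_card_filter_not, Finset.card_product, Nat.card_Ioc,
      Nat.card_Ioc, Nat.sub_zero, Nat.sub_zero]
  have h2 : A' ⊆ (Icc 2 Y).biUnion fun d =>
      ((Ioc 0 Y).filter fun x => d ∣ x) ×ˢ ((Ioc 0 M).filter fun x => d ∣ x) := by
    intro x hx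
    rw [hA', mem_filter, mem_product, mem_Ioc, mem_Ioc] at hx
    obtain ⟨⟨⟨h3, h4⟩, h5, h6⟩, h7⟩ := hx
    rw [mem_biUnion]
    refine ⟨x.1.gcd x.2, ?_, ?_⟩
    · rw [mem_Icc]
      have h8 : x.1.gcd x.2 ≤ x.1 := Nat.gcd_le_left _ h3
      have h9 : 0 < x.1.gcd x.2 := Nat.gcd_pos_of_pos_left _ h3
      unfold Nat.Coprime at h7
      omega
    · rw [mem_product, mem_filter, mem_filter, mem_Ioc, mem_Ioc]
      exact ⟨⟨⟨h3, h4⟩, Nat.gcd_dvd_left _ _⟩, ⟨h5, h6⟩, Nat.gcd_dvd_right _ _⟩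
  have h3 : (A'.card : ℝ) ≤ 3 / 4 * ((Y : ℝ) * M) := by
    have h4 : (A'.card : ℝ) ≤ ∑ d ∈ Icc 2 Y, ((Y : ℝ) * M) * (1 / (d : ℝ) ^ 2) := by
      have h5 : A'.card ≤ ∑ d ∈ Icc 2 Y, (Y / d) * (M / d) := by
        refine (Finset.card_le_card h2).trans (Finset.card_biUnion_le.trans ?_)
        refine Finset.sum_le_sum fun d _ => ?_
        rw [Finset.card_product, Nat.Ioc_filter_dvd_card_eq_div, Nat.Ioc_filter_dvd_card_eq_div]
      have h6 : (A'.card : ℝ) ≤ ∑ d ∈ Icc 2 Y, ((Y / d : ℕ) : ℝ) * ((M / d : ℕ) : ℝ) := by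
        exact_mod_cast h5
      refine h6.trans (Finset.sum_le_sum fun d hd => ?_)
      rw [mem_Icc] at hd
      have hd0 : (0 : ℝ) < d := by exact_mod_cast (by omega : 0 < d)
      have h7 : ((M / d : ℕ) : ℝ) ≤ (M : ℝ) / d := Nat.cast_div_le
      have h8 : ((Y / d : ℕ) : ℝ) ≤ (Y : ℝ) / d := Nat.cast_div_le
      calc ((Y / d : ℕ) : ℝ) * ((M / d : ℕ) : ℝ) ≤ ((Y : ℝ) / d) * ((M : ℝ) / d) :=
            mul_le_mul h8 h7 (Nat.cast_nonneg _) (by positivity)
        _ = _ := by field_simp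
    rw [← Finset.mul_sum] at h4
    rcases le_or_gt 2 Y with hY | hY
    · have h5 := PP.sum_inv_sq Y hY
      have h6 : (0 : ℝ) ≤ 1 / Y := by positivity
      have h7 : ((Y : ℝ) * M) * ∑ d ∈ Icc 2 Y, (1 / (d : ℝ) ^ 2) ≤ ((Y : ℝ) * M) * (3 / 4) :=
        mul_le_mul_of_nonneg_left (by linarith) hYM
      linarith
    · have h5 : Icc 2 Y = ∅ := Finset.Icc_eq_empty (by omega)
      rw [h5, Finset.sum_empty, mul_zero] at h4
      linarith
  have h4 : (A.card : ℝ) + A'.card = (Y : ℝ) * M := by exact_mod_cast h1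
  linarith

/-- pairs of coprime integers with a small radical -/
lemma pairs {θ : ℝ} (hθ0 : 0 ≤ θ) (hθ2 : θ ≤ 2) {M : ℕ} (hM1 : 1 ≤ M) :
    ∃ PS : Finset (ℕ × ℕ), (M : ℝ) ^ θ / 16 ≤ PS.card ∧ ∀ y ∈ PS, 0 < y.1 ∧ y.1 ≤ M ∧ 0 < y.2 ∧
      y.2 ≤ M ∧ y.1.Coprime y.2 ∧ M < 8 * y.2 ∧ (PP.rd (y.1 * y.2) : ℝ) ≤ 2 * (M : ℝ) ^ θ := by
  classical
  have hM1r : (1 : ℝ) ≤ M := by exact_mod_cast hM1
  have hM0 : (0 : ℝ) < M := by linarith
  rcases le_or_gt 1 θ with hθ | hθ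
  · set Y : ℕ := ⌊(M : ℝ) ^ (θ - 1)⌋₊ with hY
    have hYr : 1 ≤ (M : ℝ) ^ (θ - 1) := Real.one_le_rpow hM1r (by linarith)
    have hY1 : 1 ≤ Y := by rw [hY]; exact Nat.le_floor (by exact_mod_cast hYr)
    have hYle : (Y : ℝ) ≤ (M : ℝ) ^ (θ - 1) := Nat.floor_le (by positivity)
    have hYge : (M : ℝ) ^ (θ - 1) / 2 ≤ Y := by
      have h1 := Nat.lt_floor_add_one ((M : ℝ) ^ (θ - 1))
      rw [← hY] at h1
      have h2 : (1 : ℝ) ≤ Y := by exact_mod_cast hY1
      linarith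
    have hYM : Y ≤ M := by
      have h1 : (M : ℝ) ^ (θ - 1) ≤ M := by
        calc (M : ℝ) ^ (θ - 1) ≤ (M : ℝ) ^ (1 : ℝ) :=
              Real.rpow_le_rpow_of_exponent_le hM1r (by linarith)
          _ = M := Real.rpow_one _
      exact_mod_cast hYle.trans h1
    have hpow : (M : ℝ) ^ (θ - 1) * M = (M : ℝ) ^ θ := by
      rw [← Real.rpow_add_one hM0.ne']
      congr 1
      ring
    set CP := (Ioc 0 Y ×ˢ Ioc 0 M).filter fun x => x.1.Coprime x.2 with hCP
    have hsp : (CP.filter fun x => M < 8 * x.2).card + (CP.filter fun x => ¬ M < 8 * x.2).card =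
        CP.card := Finset.card_filter_add_card_filter_not _
    have hbad : (CP.filter fun x => ¬ M < 8 * x.2) ⊆ Ioc 0 Y ×ˢ Ioc 0 (M / 8) := by
      intro x hx
      rw [mem_filter, hCP, mem_filter, mem_product, mem_Ioc, mem_Ioc] at hx
      obtain ⟨⟨⟨h4, h5⟩, -⟩, h6⟩ := hx
      rw [mem_product, mem_Ioc, mem_Ioc]
      exact ⟨h4, h5.1, by omega⟩
    have hbc := Finset.card_le_card hbad
    rw [Finset.card_product, Nat.card_Ioc, Nat.card_Ioc, Nat.sub_zero, Nat.sub_zero] at hbc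
    refine ⟨CP.filter fun x => M < 8 * x.2, ?_, ?_⟩
    · have h1 := coprime_rect Y M
      rw [← hCP] at h1
      have h2 : ((CP.filter fun x => M < 8 * x.2).card : ℝ) +
          ((CP.filter fun x => ¬ M < 8 * x.2).card : ℝ) = CP.card := by exact_mod_cast hsp
      have h5 : ((M / 8 : ℕ) : ℝ) ≤ (M : ℝ) / 8 := Nat.cast_div_le
      have h3 : ((CP.filter fun x => ¬ M < 8 * x.2).card : ℝ) ≤ Y * ((M : ℝ) / 8) := by
        calc ((CP.filter fun x => ¬ M < 8 * x.2).card : ℝ) ≤ (Y : ℝ) * ((M / 8 : ℕ) : ℝ) := by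
              exact_mod_cast hbc
          _ ≤ _ := mul_le_mul_of_nonneg_left h5 (Nat.cast_nonneg _)
      have h4 : (M : ℝ) ^ (θ - 1) / 2 * M ≤ Y * M := mul_le_mul_of_nonneg_right hYge hM0.le
      rw [← hpow]
      linarith
    · intro y hy
      rw [mem_filter, hCP, mem_filter, mem_product, mem_Ioc, mem_Ioc] at hy
      obtain ⟨⟨⟨h4, h5⟩, h6⟩, h7⟩ := hy
      refine ⟨h4.1, h4.2.trans hYM, h5.1, h5.2, h6, h7, ?_⟩
      have h8 : PP.rd (y.1 * y.2) ≤ Y * M :=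
        (PP.rd_le_self (Nat.mul_ne_zero h4.1.ne' h5.1.ne')).trans (Nat.mul_le_mul h4.2 h5.2)
      have h9 : (PP.rd (y.1 * y.2) : ℝ) ≤ Y * M := by exact_mod_cast h8
      have h10 : (Y : ℝ) * M ≤ (M : ℝ) ^ θ := by
        rw [← hpow]
        exact mul_le_mul_of_nonneg_right hYle hM0.le
      have h11 : (0 : ℝ) ≤ (M : ℝ) ^ θ := by positivity
      linarith
  · set U : ℕ := ⌊(M : ℝ) ^ θ⌋₊ with hU
    have hUr : 1 ≤ (M : ℝ) ^ θ := Real.one_le_rpow hM1r hθ0
    have hU1 : 1 ≤ U := by rw [hU]; exact Nat.le_floor (by exact_mod_cast hUr)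
    have hUle : (U : ℝ) ≤ (M : ℝ) ^ θ := Nat.floor_le (by positivity)
    have hUge : (M : ℝ) ^ θ / 2 ≤ U := by
      have h1 := Nat.lt_floor_add_one ((M : ℝ) ^ θ)
      rw [← hU] at h1
      have h2 : (1 : ℝ) ≤ U := by exact_mod_cast hU1
      linarith
    have hUM : U ≤ M := by
      have h1 : (M : ℝ) ^ θ ≤ M := by
        calc (M : ℝ) ^ θ ≤ (M : ℝ) ^ (1 : ℝ) :=
              Real.rpow_le_rpow_of_exponent_le hM1r hθ.le
          _ = M := Real.rpow_one _
      exact_mod_cast hUle.trans h1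
    set k := Nat.log 2 (M / U) with hk
    have hMU : M / U ≠ 0 := by
      rw [Nat.div_ne_zero_iff]
      exact ⟨by omega, hUM⟩
    have hk1 : 2 ^ k ≤ M / U := Nat.pow_log_le_self 2 hMU
    have hk2 : M / U < 2 ^ (k + 1) := Nat.lt_pow_succ_log_self (by norm_num) _
    have hk3 : M < 2 ^ (k + 1) * U := (Nat.div_lt_iff_lt_mul (by omega)).1 hk2
    have hk4 : 2 ^ k * U ≤ M := (Nat.mul_le_mul_right U hk1).trans (Nat.div_mul_le_self M U)
    have hinj : Function.Injective fun u : ℕ => ((1 : ℕ), 2 ^ k * u) := by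
      intro u v h
      simp only [Prod.mk.injEq, true_and] at h
      exact Nat.eq_of_mul_eq_mul_left (by positivity) h
    refine ⟨(Ioc (U / 2) U).image fun u => ((1 : ℕ), 2 ^ k * u), ?_, ?_⟩
    · rw [Finset.card_image_of_injective _ hinj, Nat.card_Ioc]
      have h1 : U ≤ 2 * (U - U / 2) := by omega
      have h2 : (U : ℝ) ≤ 2 * ((U - U / 2 : ℕ) : ℝ) := by exact_mod_cast h1
      have h3 : (0 : ℝ) ≤ (M : ℝ) ^ θ := by positivity
      linarith
    · intro y hy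
      obtain ⟨u, hu, rfl⟩ := mem_image.1 hy
      rw [mem_Ioc] at hu
      have hu0 : 0 < u := by omega
      refine ⟨one_pos, hM1, by positivity, ?_, Nat.coprime_one_left _, ?_, ?_⟩
      · exact (Nat.mul_le_mul_left _ hu.2).trans hk4
      · calc M < 2 ^ (k + 1) * U := hk3
          _ ≤ 2 ^ (k + 1) * (2 * u) := Nat.mul_le_mul_left _ (by omega)
          _ = 4 * (2 ^ k * u) := by ring
          _ ≤ 8 * (2 ^ k * u) := Nat.mul_le_mul_right _ (by norm_num)
      · have h1 : PP.rd (1 * (2 ^ k * u)) ≤ 2 * U := by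
          rw [one_mul]
          refine (PP.rd_mul_le _ _).trans (Nat.mul_le_mul ?_ ?_)
          · by_cases hk0 : k = 0
            · rw [hk0, pow_zero]
              exact (PP.rd_le_self one_ne_zero).trans (by norm_num)
            · rw [PP.rd_pow hk0]
              exact PP.rd_le_self (by norm_num)
          · exact (PP.rd_le_self hu0.ne').trans hu.2
        have h2 : (PP.rd (1 * (2 ^ k * u)) : ℝ) ≤ 2 * U := by exact_mod_cast h1
        exact h2.trans (by linarith)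

variable {N q : ℕ} {L : Fin q → Fin N → ℤ} {Θ H : ℕ}

/-- two vectors and two classes of forms -/
theorem lower_pair (g : GP L Θ H) {κ : ℝ} (hκ0 : 0 ≤ (q : ℝ) - κ) (hκ2 : (q : ℝ) - κ ≤ 2)
    (P₁ P₂ : Fin N → ℤ) (G : Finset (Fin q)) (hG : G.Nonempty) (hG' : (univ \ G).Nonempty)
    (h1 : ∀ l ∈ G, dot P₁ (L l) ≠ 0 ∧ dot P₂ (L l) = 0)
    (h2 : ∀ l, l ∉ G → dot P₁ (L l) = 0 ∧ dot P₂ (L l) ≠ 0) :
    ∃ (C m : ℝ) (E : ℕ), 0 < C ∧ 0 < m ∧ 1 ≤ E ∧ ∀ M : ℕ, 1 ≤ M →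
      ∃ T : Finset (Fin N → ℤ),
      m * (M : ℝ) ^ ((q : ℝ) - κ) ≤ (T.card : ℝ) ∧ ∀ x ∈ T, Cont 1 x ∧ nm x ≤ E * M ∧
      (∀ l, dot x (L l) ≠ 0) ∧
      (PP.rd (∏ l, (dot x (L l)).natAbs) : ℝ) ≤ C * (nm x : ℝ) ^ ((q : ℝ) - κ) := by
  classical
  have hN3 := g.N3
  have hH := g.H1
  obtain ⟨l₁, hl₁⟩ := hG
  obtain ⟨l₂, hl₂⟩ := hG'
  have hl₂' : l₂ ∉ G := (mem_sdiff.1 hl₂).2
  set a₁ := dot P₁ (L l₁) with ha₁
  set a₂ := dot P₂ (L l₂) with ha₂
  have ha₁0 : a₁ ≠ 0 := (h1 l₁ hl₁).1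
  have ha₂0 : a₂ ≠ 0 := (h2 l₂ hl₂').2
  set E : ℕ := (a₁ * a₂).natAbs with hE
  have hE1 : 1 ≤ E := by
    have := mul_ne_zero ha₁0 ha₂0
    omega
  have hEr : (1 : ℝ) ≤ E := by exact_mod_cast hE1
  have hHr : (1 : ℝ) ≤ H := by exact_mod_cast hH
  -- the constants of the forms
  set co : Fin q → ℕ := fun l => if l ∈ G then (dot P₁ (L l)).natAbs else (dot P₂ (L l)).natAbs
    with hco
  have hco0 : ∀ l, co l ≠ 0 := by
    intro l
    simp only [hco]
    split_ifs with h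
    · have := (h1 l h).1; omega
    · have := (h2 l h).2; omega
  set F : ℕ := ∏ l, co l with hF
  have hF0 : F ≠ 0 := Finset.prod_ne_zero_iff.2 fun l _ => hco0 l
  have hFr : (0 : ℝ) < F := by exact_mod_cast Nat.pos_of_ne_zero hF0
  obtain ⟨W, hW⟩ : ∃ W : ℕ, W = N * H := ⟨_, rfl⟩
  have hW1 : 1 ≤ W := by
    rw [hW]
    exact Nat.mul_pos (by omega) hH
  have hWr : (1 : ℝ) ≤ W := by exact_mod_cast hW1
  refine ⟨F * 2 * (8 * W * E : ℝ) ^ ((q : ℝ) - κ), 1 / (16 * E), nm P₁ + nm P₂ + 1,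
    by positivity, by positivity, by omega, fun M hM1 => ?_⟩
  have hM1r : (1 : ℝ) ≤ M := by exact_mod_cast hM1
  have hM0 : (0 : ℝ) < M := by linarith
  obtain ⟨PS, hPScard, hPS⟩ := pairs hκ0 hκ2 hM1
  set P : ℕ × ℕ → Fin N → ℤ := fun x => (x.1 : ℤ) • P₁ + (x.2 : ℤ) • P₂ with hP
  have hPdot : ∀ x l, dot (P x) (L l) = x.1 * dot P₁ (L l) + x.2 * dot P₂ (L l) := by
    intro x l
    simp only [hP, dot_add, dot_smul]
  have hPG : ∀ x, ∀ l ∈ G, dot (P x) (L l) = x.1 * dot P₁ (L l) := by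
    intro x l hl
    rw [hPdot, (h1 l hl).2]
    ring
  have hPG' : ∀ x l, l ∉ G → dot (P x) (L l) = x.2 * dot P₂ (L l) := by
    intro x l hl
    rw [hPdot, (h2 l hl).1]
    ring
  have hne : ∀ x ∈ PS, ∀ l, dot (P x) (L l) ≠ 0 := by
    intro x hx l
    obtain ⟨h3, -, h4, -⟩ := hPS x hx
    by_cases hl : l ∈ G
    · rw [hPG x l hl]
      exact mul_ne_zero (by exact_mod_cast h3.ne') (h1 l hl).1
    · rw [hPG' x l hl]
      exact mul_ne_zero (by exact_mod_cast h4.ne') (h2 l hl).2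
  have hinj : Set.InjOn P (PS : Set (ℕ × ℕ)) := by
    intro x _ y _ h
    have e1 := hPG x l₁ hl₁
    have e2 := hPG' x l₂ hl₂'
    rw [h] at e1 e2
    rw [hPG y l₁ hl₁] at e1
    rw [hPG' y l₂ hl₂'] at e2
    have e3 : y.1 = x.1 := by exact_mod_cast mul_right_cancel₀ ha₁0 e1
    have e4 : y.2 = x.2 := by exact_mod_cast mul_right_cancel₀ ha₂0 e2
    exact (Prod.ext e3 e4).symm
  obtain ⟨T', hT'card, hT'⟩ := prim_image hE1 (PS.image P) (by
    intro z hz
    obtain ⟨x, hx, rfl⟩ := mem_image.1 hz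
    obtain ⟨h5, h6, h7, h8, h9, h10, h11⟩ := hPS x hx
    refine ⟨?_, fun d hd => ?_⟩
    · intro h0
      apply hne x hx l₁
      rw [h0, dot_zero]
    · have h11 : ∀ l, d ∣ dot (P x) (L l) := by
        intro l
        unfold dot
        exact Finset.dvd_sum fun k _ => Dvd.dvd.mul_right (hd k) _
      have h12 := h11 l₁
      have h13 := h11 l₂
      rw [hPG x l₁ hl₁] at h12
      rw [hPG' x l₂ hl₂'] at h13
      refine Int.dvd_natAbs.2 (PP.coprime_dvd h9 ?_ ?_)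
      · have : (x.1 : ℤ) * (a₁ * a₂) = ((x.1 : ℤ) * a₁) * a₂ := by ring
        rw [this]
        exact Dvd.dvd.mul_right h12 _
      · have : (x.2 : ℤ) * (a₁ * a₂) = ((x.2 : ℤ) * a₂) * a₁ := by ring
        rw [this]
        exact Dvd.dvd.mul_right h13 _)
  refine ⟨T', ?_, ?_⟩
  · rw [Finset.card_image_of_injOn hinj] at hT'card
    have h3 : (PS.card : ℝ) ≤ E * T'.card := by exact_mod_cast hT'card
    calc 1 / (16 * (E : ℝ)) * (M : ℝ) ^ ((q : ℝ) - κ) = ((M : ℝ) ^ ((q : ℝ) - κ) / 16) / E := by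
          field_simp
      _ ≤ (E * T'.card) / E := by
          refine div_le_div_of_nonneg_right (hPScard.trans h3) (by positivity)
      _ = _ := by field_simp
  · intro x hx
    obtain ⟨hx1, z, hz, t, ht1, htD, hzx⟩ := hT' x hx
    obtain ⟨y, hy, rfl⟩ := mem_image.1 hz
    obtain ⟨h5, h6, h7, h8, h9, h10, h11⟩ := hPS y hy
    have h4 := hne y hy
    have hdotx : ∀ l, dot (P y) (L l) = t * dot x (L l) := by
      intro l
      rw [hzx, dot_smul]
    have hnm : nm (P y) = t * nm x := by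
      rw [hzx]
      exact nm_smul _ _
    have hnmx : nm x ≤ nm (P y) := by
      rw [hnm]
      exact Nat.le_mul_of_pos_left _ ht1
    have hnm2 : nm (P y) ≤ E * nm x := by
      rw [hnm]
      exact Nat.mul_le_mul_right _ htD
    have hx0 : ∀ l, dot x (L l) ≠ 0 := by
      intro l h0
      apply h4 l
      rw [hdotx, h0, mul_zero]
    refine ⟨hx1, ?_, hx0, ?_⟩
    · refine hnmx.trans ?_
      refine Finset.sup_le fun k _ => ?_
      have hval : P y k = y.1 * P₁ k + y.2 * P₂ k := by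
        simp only [hP, Pi.add_apply, Pi.smul_apply, smul_eq_mul]
      rw [hval]
      calc ((y.1 : ℤ) * P₁ k + y.2 * P₂ k).natAbs ≤
            ((y.1 : ℤ) * P₁ k).natAbs + ((y.2 : ℤ) * P₂ k).natAbs := Int.natAbs_add_le _ _
        _ = y.1 * (P₁ k).natAbs + y.2 * (P₂ k).natAbs := by
            rw [Int.natAbs_mul, Int.natAbs_mul, Int.natAbs_natCast, Int.natAbs_natCast]
        _ ≤ M * nm P₁ + M * nm P₂ :=
            add_le_add (Nat.mul_le_mul h6 (natAbs_le_nm _ _)) (Nat.mul_le_mul h8 (natAbs_le_nm _ _))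
        _ ≤ (nm P₁ + nm P₂ + 1) * M := by nlinarith
    · have hMx : M ≤ 8 * (W * (E * nm x)) := by
        have e1 : y.2 ≤ W * nm (P y) := by
          have e2 := dot_le g (abs_le_nm (P y)) l₂
          rw [hPG' y l₂ hl₂', Int.natAbs_mul, Int.natAbs_natCast] at e2
          rw [hW]
          exact (Nat.le_mul_of_pos_right _ (by omega)).trans e2
        calc M ≤ 8 * y.2 := h10.le
          _ ≤ 8 * (W * nm (P y)) := Nat.mul_le_mul_left _ e1
          _ ≤ 8 * (W * (E * nm x)) := Nat.mul_le_mul_left _ (Nat.mul_le_mul_left _ hnm2)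
      have hx1' : (1 : ℝ) ≤ nm x := by exact_mod_cast nm_pos hx1.1
      have hprod0 : ∏ l, (dot (P y) (L l)).natAbs ≠ 0 :=
        Finset.prod_ne_zero_iff.2 fun l _ => by simpa using h4 l
      have hdvd : ∏ l, (dot x (L l)).natAbs ∣ ∏ l, (dot (P y) (L l)).natAbs := by
        refine Finset.prod_dvd_prod_of_dvd _ _ fun l _ => ?_
        rw [hdotx l, Int.natAbs_mul]
        exact Dvd.intro_left _ rfl
      have hdvd2 : ∏ l, (dot (P y) (L l)).natAbs ∣ (y.1 * y.2) ^ q * F := by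
        have e1 : (y.1 * y.2) ^ q * F = ∏ l, ((y.1 * y.2) * co l) := by
          rw [Finset.prod_mul_distrib, Finset.prod_const, Finset.card_univ, Fintype.card_fin]
        rw [e1]
        refine Finset.prod_dvd_prod_of_dvd _ _ fun l _ => ?_
        by_cases hl : l ∈ G
        · rw [hPG y l hl, Int.natAbs_mul, Int.natAbs_natCast]
          have e2 : co l = (dot P₁ (L l)).natAbs := by simp only [hco]; rw [if_pos hl]
          rw [e2]
          exact mul_dvd_mul_right (Dvd.intro _ rfl) _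
        · rw [hPG' y l hl, Int.natAbs_mul, Int.natAbs_natCast]
          have e2 : co l = (dot P₂ (L l)).natAbs := by simp only [hco]; rw [if_neg hl]
          rw [e2]
          exact mul_dvd_mul_right (Dvd.intro_left _ rfl) _
      have hyy : (y.1 * y.2) ^ q * F ≠ 0 :=
        Nat.mul_ne_zero (pow_ne_zero _ (Nat.mul_ne_zero h5.ne' h7.ne')) hF0
      have hq0 : q ≠ 0 := by
        have := g.qN
        omega
      have hrd : PP.rd (∏ l, (dot x (L l)).natAbs) ≤ PP.rd (y.1 * y.2) * F := by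
        refine (PP.rd_mono (hdvd.trans hdvd2) hyy).trans ?_
        refine (PP.rd_mul_le _ _).trans ?_
        rw [PP.rd_pow hq0]
        exact Nat.mul_le_mul_left _ (PP.rd_le_self hF0)
      have hrd' : (PP.rd (∏ l, (dot x (L l)).natAbs) : ℝ) ≤ (PP.rd (y.1 * y.2) : ℝ) * F := by
        exact_mod_cast hrd
      have hMx' : (M : ℝ) ≤ (8 * W * E) * nm x := by
        have : (M : ℝ) ≤ 8 * (W * (E * nm x)) := by exact_mod_cast hMx
        linarith
      calc (PP.rd (∏ l, (dot x (L l)).natAbs) : ℝ) ≤ (PP.rd (y.1 * y.2) : ℝ) * F := hrd'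
        _ ≤ (2 * (M : ℝ) ^ ((q : ℝ) - κ)) * F := mul_le_mul_of_nonneg_right h11 hFr.le
        _ ≤ (2 * ((8 * W * E) * nm x : ℝ) ^ ((q : ℝ) - κ)) * F := by
            refine mul_le_mul_of_nonneg_right ?_ hFr.le
            refine mul_le_mul_of_nonneg_left ?_ (by norm_num)
            exact Real.rpow_le_rpow hM0.le hMx' hκ0
        _ = _ := by
            rw [Real.mul_rpow (by positivity) (by positivity)]
            ring

end Pool.Agent.K4H9.PN
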