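import Pool.Agent.K4H9.PN.Zt
import Pool.Agent.K4H9.PP.Red

set_option autoImplicit false

/-!
The upper bound: from the height and the truncated counting function to boxes.
-/

namespace Pool.Agent.K4H9.PN

open Finset

variable {N q : ℕ}

/-- coordinates -/
def zz (A : Fin N → Fin N → ℤ) (x : Fin N → ℤ) : Fin N → ℤ := fun a => dot x (A a)

/-- the form `l` in the coordinates given by the forms `A` -/
def ll (A : Fin N → Fin N → ℤ) (l : Fin N → ℤ) : Fin N → ℤ := fun c =>
  ∑ b, l b * (Matrix.of A).adjugate b c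

lemma adj_zz (A : Fin N → Fin N → ℤ) (x : Fin N → ℤ) (k : Fin N) :
    (Matrix.of A).det * x k = ∑ a, (Matrix.of A).adjugate k a * zz A x a := by
  have h1 : (Matrix.of A).adjugate.mulVec ((Matrix.of A).mulVec x) = (Matrix.of A).det • x := by
    rw [Matrix.mulVec_mulVec, Matrix.adjugate_mul, Matrix.smul_mulVec, Matrix.one_mulVec]
  have h2 := congrFun h1 k
  rw [Pi.smul_apply, smul_eq_mul] at h2
  rw [← h2]
  have h4 : ∀ a, (Matrix.of A).mulVec x a = zz A x a := by
    intro a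
    unfold Matrix.mulVec dotProduct zz dot
    exact Finset.sum_congr rfl fun i _ => by
      show A a i * x i = x i * A a i
      ring
  have h5 : (Matrix.of A).adjugate.mulVec ((Matrix.of A).mulVec x) k =
      ∑ a, (Matrix.of A).adjugate k a * (Matrix.of A).mulVec x a := rfl
  rw [h5]
  exact Finset.sum_congr rfl fun a _ => by rw [h4]

lemma dot_zz_ll (A : Fin N → Fin N → ℤ) (l x : Fin N → ℤ) :
    dot (zz A x) (ll A l) = (Matrix.of A).det * dot x l := by
  unfold ll
  conv_lhs => unfold dot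
  conv_rhs => unfold dot
  rw [Finset.mul_sum]
  have h1 : ∀ b, (Matrix.of A).det * (x b * l b) =
      ∑ a, l b * ((Matrix.of A).adjugate b a * zz A x a) := by
    intro b
    rw [← Finset.mul_sum, ← adj_zz]
    ring
  rw [Finset.sum_congr rfl fun b _ => h1 b, Finset.sum_comm]
  refine Finset.sum_congr rfl fun c _ => ?_
  rw [Finset.mul_sum]
  exact Finset.sum_congr rfl fun b _ => by ring

lemma det_ll (A C : Fin N → Fin N → ℤ) :
    (Matrix.of fun a b => ll A (C a) b).det = (Matrix.of C).det * (Matrix.of A).det ^ (N - 1) := by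
  have h1 : (Matrix.of fun a b => ll A (C a) b) = Matrix.of C * (Matrix.of A).adjugate := by
    ext a b
    rw [Matrix.mul_apply]
    rfl
  rw [h1, Matrix.det_mul, Matrix.det_adjugate, Fintype.card_fin]

lemma cont_zz {A : Fin N → Fin N → ℤ} {x : Fin N → ℤ} (hd : (Matrix.of A).det ≠ 0)
    (hx : Cont 1 x) : Cont (Matrix.of A).det.natAbs (zz A x) := by
  refine ⟨?_, fun d hdz => ?_⟩
  · intro h
    apply hx.1
    funext k
    have h1 := adj_zz A x k
    rw [h] at h1
    simp only [Pi.zero_apply, mul_zero, Finset.sum_const_zero] at h1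
    exact (mul_eq_zero.1 h1).resolve_left hd
  · have h1 : ∀ k, d ∣ (Matrix.of A).det * x k := by
      intro k
      rw [adj_zz]
      exact Finset.dvd_sum fun a _ => Dvd.dvd.mul_left (hdz a) _
    have h2 := cont_dvd hx h1
    rw [Nat.cast_one, mul_one] at h2
    exact Int.dvd_natAbs.2 h2

lemma zz_inj {A : Fin N → Fin N → ℤ} {x y : Fin N → ℤ} (hd : (Matrix.of A).det ≠ 0)
    (h : zz A x = zz A y) : x = y := by
  funext k
  have h1 := adj_zz A x k
  rw [h, ← adj_zz] at h1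
  exact mul_left_cancel₀ hd h1

/-- a bound for the entries of all adjugates -/
def EE (L : Fin q → Fin N → ℤ) : ℕ := 1 + ∑ s : Fin N → Fin q, ∑ k, ∑ a,
  ((Matrix.of fun c => L (s c)).adjugate k a).natAbs

lemma EE_pos (L : Fin q → Fin N → ℤ) : 1 ≤ EE L := by
  unfold EE
  omega

lemma nm_bound {L : Fin q → Fin N → ℤ} (hN : 1 ≤ N) {x : Fin N → ℤ} {s : Fin N → Fin q}
    (hs : (Matrix.of fun a => L (s a)).det ≠ 0) {A : ℕ}
    (hA : ∀ a, (dot x (L (s a))).natAbs ≤ A) : nm x ≤ EE L * A := by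
  obtain ⟨k, hk⟩ := exists_nm hN x
  have h1 := adj_zz (fun a => L (s a)) x k
  have h2 : (x k).natAbs ≤ ((Matrix.of fun a => L (s a)).det * x k).natAbs := by
    rw [Int.natAbs_mul]
    refine Nat.le_mul_of_pos_left _ ?_
    omega
  have h3 : ((Matrix.of fun a => L (s a)).det * x k).natAbs ≤
      (∑ a, ((Matrix.of fun c => L (s c)).adjugate k a).natAbs) * A := by
    rw [h1, Finset.sum_mul]
    refine (Int.natAbs_sum_le _ _).trans (Finset.sum_le_sum fun a _ => ?_)
    rw [Int.natAbs_mul]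
    exact Nat.mul_le_mul_left _ (hA a)
  have h4 : ∑ a, ((Matrix.of fun c => L (s c)).adjugate k a).natAbs ≤ EE L := by
    have h5 : ∑ a, ((Matrix.of fun c => L (s c)).adjugate k a).natAbs ≤
        ∑ k, ∑ a, ((Matrix.of fun c => L (s c)).adjugate k a).natAbs :=
      Finset.single_le_sum (f := fun k => ∑ a, ((Matrix.of fun c => L (s c)).adjugate k a).natAbs)
        (fun _ _ => Nat.zero_le _) (mem_univ k)
    have h6 : ∑ k, ∑ a, ((Matrix.of fun c => L (s c)).adjugate k a).natAbs ≤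
        ∑ s : Fin N → Fin q, ∑ k, ∑ a, ((Matrix.of fun c => L (s c)).adjugate k a).natAbs :=
      Finset.single_le_sum
        (f := fun s : Fin N → Fin q => ∑ k, ∑ a,
          ((Matrix.of fun c => L (s c)).adjugate k a).natAbs)
        (fun _ _ => Nat.zero_le _) (mem_univ s)
    unfold EE
    omega
  rw [← hk]
  exact (h2.trans h3).trans (Nat.mul_le_mul_right _ h4)

lemma box_card (T : Finset (Fin N → ℤ)) (b : Fin N → ℕ) (hb : ∀ j, 1 ≤ b j)
    (hTb : ∀ z ∈ T, ∀ j, |z j| ≤ b j) : T.card ≤ 3 ^ N * ∏ j, b j := by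
  classical
  have h1 : T ⊆ Fintype.piFinset fun s => Icc (-(b s : ℤ)) (b s) := by
    intro z hz
    rw [Fintype.mem_piFinset]
    intro s
    rw [mem_Icc]
    exact abs_le.1 (hTb z hz s)
  have h2 := Finset.card_le_card h1
  rw [Fintype.card_piFinset] at h2
  have h3 : ∏ s, (Icc (-(b s : ℤ)) (b s)).card ≤ ∏ s, 3 * b s := by
    refine Finset.prod_le_prod' fun s _ => ?_
    rw [Int.card_Icc]
    have := hb s
    omega
  have h4 : ∏ s, 3 * b s = 3 ^ N * ∏ s, b s := by
    rw [Finset.prod_mul_distrib, Finset.prod_const, Finset.card_univ, Fintype.card_fin]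
  exact (h2.trans h3).trans (le_of_eq h4)

variable {M : ℕ} {L : Fin q → Fin (M + 1) → ℤ} {Θ H : ℕ}

/-- the product of the values of the forms -/
lemma prod_low (hMq : M + 1 ≤ q) {s : Fin (M + 1) → Fin q} (hs : Function.Injective s)
    {x : Fin (M + 1) → ℤ} {n : ℕ} {a : Fin M → ℕ} {E : ℕ} (hE : 1 ≤ E) (hn : 2 ^ n ≤ nm x)
    (ha : ∀ c : Fin M, 2 ^ a c ≤ (dot x (L (s c.succ))).natAbs)
    (hl : ∀ l, (∀ c : Fin M, l ≠ s c.succ) → nm x ≤ E * (dot x (L l)).natAbs) :
    ((∏ c, 2 ^ a c : ℕ) : ℝ) * ((2 : ℝ) ^ n / E) ^ (q - M) ≤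
      ((∏ l, (dot x (L l)).natAbs : ℕ) : ℝ) := by
  classical
  have hE0 : (0 : ℝ) < E := by exact_mod_cast hE
  set I : Finset (Fin q) := univ.image fun c : Fin M => s c.succ with hI
  have hinj : Function.Injective fun c : Fin M => s c.succ := fun c c' h =>
    Fin.succ_injective M (hs h)
  have hcard : I.card = M := by
    rw [hI, Finset.card_image_of_injective _ hinj, Finset.card_univ, Fintype.card_fin]
  have h1 : ∏ l, (dot x (L l)).natAbs = (∏ l ∈ univ \ I, (dot x (L l)).natAbs) *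
      ∏ l ∈ I, (dot x (L l)).natAbs := (Finset.prod_sdiff (subset_univ I)).symm
  have h2 : ∏ c, 2 ^ a c ≤ ∏ l ∈ I, (dot x (L l)).natAbs := by
    rw [hI, Finset.prod_image hinj.injOn]
    exact Finset.prod_le_prod' fun c _ => ha c
  have h3 : ((2 : ℝ) ^ n / E) ^ (q - M) ≤
      ((∏ l ∈ univ \ I, (dot x (L l)).natAbs : ℕ) : ℝ) := by
    have hcard' : (univ \ I).card = q - M := by
      rw [Finset.card_sdiff_of_subset (subset_univ I), Finset.card_univ, Fintype.card_fin, hcard]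
    rw [← hcard', ← Finset.prod_const, Nat.cast_prod]
    refine Finset.prod_le_prod (fun l _ => by positivity) fun l hlI => ?_
    have h4 : ∀ c : Fin M, l ≠ s c.succ := by
      intro c hc
      apply (mem_sdiff.1 hlI).2
      rw [hI, hc]
      exact mem_image_of_mem (fun c : Fin M => s c.succ) (mem_univ c)
    have h5 := hl l h4
    rw [div_le_iff₀ hE0]
    have h6 : 2 ^ n ≤ (dot x (L l)).natAbs * E := by
      rw [mul_comm]
      exact hn.trans h5
    exact_mod_cast h6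
  rw [h1, mul_comm, Nat.cast_mul]
  refine mul_le_mul h3 ?_ (Nat.cast_nonneg _) (Nat.cast_nonneg _)
  exact_mod_cast h2

/-- one box -/
lemma boxcount (g : GP L Θ H) {E : ℕ} (hE : 1 ≤ E) {κ : ℝ} (hκ0 : 0 ≤ κ) (hκ1 : κ ≤ 1) {Cc : ℝ}
    (hCc : 1 ≤ Cc) {s : Fin (M + 1) → Fin q} (hs : Function.Injective s) {ε : ℝ} (hε : 0 < ε) :
    ∃ C : ℝ, 0 < C ∧ ∀ (n : ℕ) (a : Fin M → ℕ), ∀ T : Finset (Fin (M + 1) → ℤ),
      (∀ x ∈ T, Cont 1 x ∧ 2 ^ n ≤ nm x ∧ nm x < 2 ^ (n + 1) ∧
      (∀ c : Fin M, 2 ^ a c ≤ (dot x (L (s c.succ))).natAbs) ∧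
      (∀ c : Fin M, (dot x (L (s c.succ))).natAbs < 2 ^ (a c + 1)) ∧
      (∀ l, (∀ c : Fin M, l ≠ s c.succ) → nm x ≤ E * (dot x (L l)).natAbs) ∧
      (∀ l, dot x (L l) ≠ 0) ∧
      (PP.rd (∏ l, (dot x (L l)).natAbs) : ℝ) ≤ Cc * (nm x : ℝ) ^ ((q : ℝ) - κ)) →
      (T.card : ℝ) ≤ C * ((2 : ℝ) ^ n) ^ ((M : ℝ) + 1 - κ + ε) := by
  classical
  have hN3 := g.N3
  have hqN := g.qN
  set D := (Matrix.of fun a => L (s a)).det with hD
  have hD0 : D ≠ 0 := (g.d s hs).1
  set ℓ : Fin q → Fin (M + 1) → ℤ := fun l => ll (fun a => L (s a)) (L l) with hℓ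
  obtain ⟨Θ', H', g'⟩ := exists_GP hN3 hqN ℓ (by
    intro t ht
    have h1 := det_ll (fun a => L (s a)) (fun a => L (t a))
    rw [h1]
    exact mul_ne_zero (g.d t ht).1 (pow_ne_zero _ hD0))
  obtain ⟨C, hC0, hC⟩ := zthm g' (c := D.natAbs) (by omega) hε
  have hH := g.H1
  have hHr : (1 : ℝ) ≤ H := by exact_mod_cast hH
  have hEr : (1 : ℝ) ≤ E := by exact_mod_cast hE
  have hq0 : (0 : ℝ) ≤ q := Nat.cast_nonneg q
  obtain ⟨F, hF⟩ : ∃ F : ℕ, F = 4 * (M + 1) * H := ⟨_, rfl⟩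
  have hF1 : 1 ≤ F := by
    rw [hF]
    have : 0 < 4 * (M + 1) * H := by positivity
    exact this
  have hFr : (1 : ℝ) ≤ F := by exact_mod_cast hF1
  set c' : ℝ := 1 / (Cc * 2 ^ q * (E : ℝ) ^ q * (F : ℝ) ^ M) with hc'
  have hc'0 : 0 < c' := by positivity
  refine ⟨(C * (F : ℝ) ^ ε + 3 ^ (M + 1)) * (F * 2 ^ M / c'), by positivity,
    fun n a T hT => ?_⟩
  set y : ℝ := (2 : ℝ) ^ n with hy
  have hy1 : 1 ≤ y := one_le_pow₀ (by norm_num)
  have hy0 : 0 < y := by linarith
  rcases T.eq_empty_or_nonempty with h0 | ⟨x0, hx0⟩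
  · rw [h0, Finset.card_empty, Nat.cast_zero]
    positivity
  set BZ : ℕ := F * 2 ^ n with hBZ
  have hBZ1 : 1 ≤ BZ := by
    have : 0 < F * 2 ^ n := by positivity
    exact this
  have hBZr : (BZ : ℝ) = F * y := by rw [hBZ, hy]; push_cast; ring
  set b : Fin (M + 1) → ℕ := Fin.cons BZ fun c => 2 ^ (a c + 1) with hb
  have hdotle : ∀ x ∈ T, ∀ l, 2 * (dot x (L l)).natAbs ≤ BZ := by
    intro x hx l
    obtain ⟨-, -, h2, -⟩ := hT x hx
    have h3 := dot_le g (B := nm x) (abs_le_nm x) l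
    calc 2 * (dot x (L l)).natAbs ≤ 2 * ((M + 1) * H * nm x) := Nat.mul_le_mul_left _ h3
      _ ≤ 2 * ((M + 1) * H * 2 ^ (n + 1)) := by
          exact Nat.mul_le_mul_left _ (Nat.mul_le_mul_left _ h2.le)
      _ = BZ := by rw [hBZ, hF]; ring
  have hb0 : b 0 = BZ := rfl
  have hbs : ∀ c : Fin M, b c.succ = 2 ^ (a c + 1) := fun c => by rw [hb, Fin.cons_succ]
  have hbB : ∀ j, 1 ≤ b j ∧ b j ≤ BZ := by
    intro j
    refine Fin.cases ?_ (fun c => ?_) j
    · rw [hb0]
      exact ⟨hBZ1, le_refl _⟩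
    · rw [hbs]
      refine ⟨Nat.one_le_two_pow, ?_⟩
      have h1 := hdotle x0 hx0 (s c.succ)
      have h2 := (hT x0 hx0).2.2.2.1 c
      calc 2 ^ (a c + 1) = 2 * 2 ^ a c := by ring
        _ ≤ 2 * (dot x0 (L (s c.succ))).natAbs := Nat.mul_le_mul_left _ h2
        _ ≤ BZ := h1
  set A : ℝ := ((∏ c, 2 ^ a c : ℕ) : ℝ) with hA
  have hA0 : 0 < A := by
    rw [hA]
    have : 0 < ∏ c, 2 ^ a c := Finset.prod_pos fun c _ => by positivity
    exact_mod_cast this
  have hprodb : ((∏ j, b j : ℕ) : ℝ) = F * 2 ^ M * (A * y) := by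
    rw [Fin.prod_univ_succ, hb0, Nat.cast_mul, hBZr, hA]
    have h1 : ∏ c : Fin M, b c.succ = 2 ^ M * ∏ c, 2 ^ a c := by
      calc ∏ c : Fin M, b c.succ = ∏ c : Fin M, 2 * 2 ^ a c :=
            Finset.prod_congr rfl fun c _ => by rw [hbs]; ring
        _ = _ := by
            rw [Finset.prod_mul_distrib, Finset.prod_const, Finset.card_univ, Fintype.card_fin]
    rw [h1]
    push_cast
    ring
  set K : ℝ := c' * A * y ^ (κ - M) with hK
  have hK0 : 0 < K := by positivity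
  have hbK : ((∏ j, b j : ℕ) : ℝ) / K = (F * 2 ^ M / c') * y ^ ((M : ℝ) + 1 - κ) := by
    rw [hprodb, hK]
    have h1 : y ^ ((M : ℝ) + 1 - κ) = y / y ^ (κ - M) := by
      rw [eq_div_iff (by positivity), ← Real.rpow_add hy0]
      have : (M : ℝ) + 1 - κ + (κ - M) = 1 := by ring
      rw [this, Real.rpow_one]
    rw [h1]
    field_simp
  -- the image
  set T' := T.image (zz fun a => L (s a)) with hT'
  have hcard : T'.card = T.card := Finset.card_image_of_injective _ fun x y h => zz_inj hD0 h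
  have hbox : ∀ z ∈ T', ∀ j, |z j| ≤ b j := by
    intro z hz j
    obtain ⟨x, hx, rfl⟩ := mem_image.1 hz
    refine Fin.cases ?_ (fun c => ?_) j
    · rw [hb0, Int.abs_eq_natAbs]
      have h5 := hdotle x hx (s 0)
      have h6 : (dot x (L (s 0))).natAbs ≤ BZ := by omega
      exact_mod_cast h6
    · rw [hbs, Int.abs_eq_natAbs]
      have h5 := ((hT x hx).2.2.2.2.1 c).le
      exact_mod_cast h5
  have hyκ : y ^ κ ≤ y := by
    calc y ^ κ ≤ y ^ (1 : ℝ) := Real.rpow_le_rpow_of_exponent_le hy1 hκ1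
      _ = y := Real.rpow_one y
  have hden1 : (1 : ℝ) ≤ Cc * 2 ^ q * (E : ℝ) ^ q := by
    have h2 : (1 : ℝ) ≤ 2 ^ q := one_le_pow₀ (by norm_num)
    have h3 : (1 : ℝ) ≤ (E : ℝ) ^ q := one_le_pow₀ hEr
    calc (1 : ℝ) = 1 * 1 * 1 := by norm_num
      _ ≤ _ := mul_le_mul (mul_le_mul hCc h2 (by norm_num) (by linarith)) h3 (by norm_num)
          (by positivity)
  have hc'F : c' * (F : ℝ) ^ M ≤ 1 := by
    rw [hc', div_mul_eq_mul_div, one_mul, div_le_one (by positivity)]
    calc ((F : ℝ) ^ M) = 1 * (F : ℝ) ^ M := by ring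
      _ ≤ _ := mul_le_mul_of_nonneg_right hden1 (by positivity)
  have hmono : y ^ ((M : ℝ) + 1 - κ) ≤ y ^ ((M : ℝ) + 1 - κ + ε) :=
    Real.rpow_le_rpow_of_exponent_le hy1 (by linarith)
  rcases lt_or_ge K 1 with hK1 | hK1
  · -- trivial
    have h5 : (T.card : ℝ) ≤ 3 ^ (M + 1) * ((∏ j, b j : ℕ) : ℝ) := by
      rw [← hcard]
      exact_mod_cast box_card T' b (fun j => (hbB j).1) hbox
    have h6 : ((∏ j, b j : ℕ) : ℝ) ≤ ((∏ j, b j : ℕ) : ℝ) / K := by
      rw [le_div_iff₀ hK0]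
      have : (0 : ℝ) ≤ ((∏ j, b j : ℕ) : ℝ) := Nat.cast_nonneg _
      nlinarith
    calc (T.card : ℝ) ≤ 3 ^ (M + 1) * (((∏ j, b j : ℕ) : ℝ) / K) :=
          h5.trans (mul_le_mul_of_nonneg_left h6 (by positivity))
      _ = 3 ^ (M + 1) * (F * 2 ^ M / c') * y ^ ((M : ℝ) + 1 - κ) := by rw [hbK]; ring
      _ ≤ 3 ^ (M + 1) * (F * 2 ^ M / c') * y ^ ((M : ℝ) + 1 - κ + ε) :=
          mul_le_mul_of_nonneg_left hmono (by positivity)
      _ ≤ (C * (F : ℝ) ^ ε + 3 ^ (M + 1)) * (F * 2 ^ M / c') * y ^ ((M : ℝ) + 1 - κ + ε) := by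
          refine mul_le_mul_of_nonneg_right ?_ (by positivity)
          refine mul_le_mul_of_nonneg_right ?_ (by positivity)
          have : 0 ≤ C * (F : ℝ) ^ ε := by positivity
          linarith
  · have hKb : K * (BZ : ℝ) ^ (M + 1 - 1) ≤ ((∏ j, b j : ℕ) : ℝ) := by
      rw [hprodb, hBZr, hK, Nat.add_sub_cancel]
      have h1 : y ^ (κ - M) * y ^ M = y ^ κ := by
        rw [← Real.rpow_natCast y M, ← Real.rpow_add hy0]
        congr 1
        ring
      have h2 : (1 : ℝ) ≤ F * 2 ^ M := by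
        have h3 : (1 : ℝ) ≤ 2 ^ M := one_le_pow₀ (by norm_num)
        calc (1 : ℝ) = 1 * 1 := by norm_num
          _ ≤ _ := mul_le_mul hFr h3 (by norm_num) (by linarith)
      calc c' * A * y ^ (κ - M) * (F * y) ^ M =
            A * ((c' * (F : ℝ) ^ M) * (y ^ (κ - M) * y ^ M)) := by
            rw [mul_pow]
            ring
        _ ≤ A * (1 * y) := by
            rw [h1]
            gcongr
        _ = 1 * (A * y) := by ring
        _ ≤ _ := mul_le_mul_of_nonneg_right h2 (by positivity)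
    have hmain := hC BZ hBZ1 b hbB K hK1 hKb T' (by
      intro z hz
      refine ⟨?_, hbox z hz, ?_, ?_⟩
      · obtain ⟨x, hx, rfl⟩ := mem_image.1 hz
        exact cont_zz hD0 (hT x hx).1
      · obtain ⟨x, hx, rfl⟩ := mem_image.1 hz
        intro l
        rw [hℓ]
        simp only
        rw [dot_zz_ll]
        exact mul_ne_zero hD0 ((hT x hx).2.2.2.2.2.2.1 l)
      · obtain ⟨x, hx, rfl⟩ := mem_image.1 hz
        obtain ⟨h1, h2, h3, h4, h5, h6, h7, h8⟩ := hT x hx
        have e1 : ∏ l, (dot (zz (fun a => L (s a)) x) (ℓ l)).natAbs =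
            D.natAbs ^ q * ∏ l, (dot x (L l)).natAbs := by
          rw [hℓ]
          simp only [dot_zz_ll, Int.natAbs_mul]
          rw [Finset.prod_mul_distrib, Finset.prod_const, Finset.card_univ, Fintype.card_fin]
        rw [e1]
        have hPlow := prod_low hqN hs hE h2 h4 h6
        set P := ∏ l, (dot x (L l)).natAbs with hP
        have hDn : D.natAbs ≠ 0 := by simpa using hD0
        have h11 : PP.rd (D.natAbs ^ q * P) ≤ D.natAbs * PP.rd P := by
          refine (PP.rd_mul_le _ _).trans ?_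
          rw [PP.rd_pow (by omega)]
          exact Nat.mul_le_mul_right _ (PP.rd_le_self hDn)
        have h12 : D.natAbs * P ≤ D.natAbs ^ q * P := by
          refine Nat.mul_le_mul_right _ ?_
          exact Nat.le_self_pow (by omega) _
        -- the main inequality
        have h13 : K * (PP.rd P : ℝ) ≤ (P : ℝ) := by
          have hqκ : 0 ≤ (q : ℝ) - κ := by
            have : (3 : ℝ) ≤ q := by exact_mod_cast hN3.trans hqN
            linarith
          have hnmy : (nm x : ℝ) ^ ((q : ℝ) - κ) ≤ 2 ^ q * y ^ ((q : ℝ) - κ) := by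
            have e5 : (nm x : ℝ) ≤ 2 * y := by
              have : (nm x : ℝ) ≤ (2 : ℝ) ^ (n + 1) := by exact_mod_cast h3.le
              rw [hy]
              calc (nm x : ℝ) ≤ (2 : ℝ) ^ (n + 1) := this
                _ = _ := by ring
            calc (nm x : ℝ) ^ ((q : ℝ) - κ) ≤ (2 * y) ^ ((q : ℝ) - κ) :=
                  Real.rpow_le_rpow (Nat.cast_nonneg _) e5 hqκ
              _ = 2 ^ ((q : ℝ) - κ) * y ^ ((q : ℝ) - κ) := Real.mul_rpow (by norm_num) hy0.le
              _ ≤ 2 ^ (q : ℝ) * y ^ ((q : ℝ) - κ) := by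
                  refine mul_le_mul_of_nonneg_right ?_ (by positivity)
                  exact Real.rpow_le_rpow_of_exponent_le (by norm_num) (by linarith)
              _ = _ := by rw [Real.rpow_natCast]
          have hsq : y ^ (κ - M) * y ^ ((q : ℝ) - κ) = y ^ (q - M) := by
            rw [← Real.rpow_add hy0, ← Real.rpow_natCast y (q - M)]
            congr 1
            rw [Nat.cast_sub (by omega)]
            ring
          have hden : (E : ℝ) ^ (q - M) ≤ (E : ℝ) ^ q := pow_le_pow_right₀ hEr (by omega)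
          have hcc : c' * (Cc * 2 ^ q) ≤ 1 / (E : ℝ) ^ (q - M) := by
            rw [hc', div_mul_eq_mul_div, one_mul, div_le_div_iff₀ (by positivity) (by positivity),
              one_mul]
            calc Cc * 2 ^ q * (E : ℝ) ^ (q - M) ≤ Cc * 2 ^ q * (E : ℝ) ^ q := by gcongr
              _ = Cc * 2 ^ q * (E : ℝ) ^ q * 1 := by ring
              _ ≤ Cc * 2 ^ q * (E : ℝ) ^ q * (F : ℝ) ^ M := by
                  refine mul_le_mul_of_nonneg_left (one_le_pow₀ hFr) (by positivity)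
          calc K * (PP.rd P : ℝ) ≤
                (c' * A * y ^ (κ - M)) * (Cc * (2 ^ q * y ^ ((q : ℝ) - κ))) := by
                rw [hK]
                refine mul_le_mul_of_nonneg_left (h8.trans ?_) (by positivity)
                gcongr
            _ = A * (c' * (Cc * 2 ^ q)) * (y ^ (κ - M) * y ^ ((q : ℝ) - κ)) := by ring
            _ ≤ A * (1 / (E : ℝ) ^ (q - M)) * (y ^ (κ - M) * y ^ ((q : ℝ) - κ)) := by
                gcongr
            _ = A * (y / E) ^ (q - M) := by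
                rw [hsq, div_pow]
                ring
            _ ≤ (P : ℝ) := hPlow
        calc K * (PP.rd (D.natAbs ^ q * P) : ℝ) ≤ K * ((D.natAbs * PP.rd P : ℕ) : ℝ) := by
              refine mul_le_mul_of_nonneg_left ?_ hK0.le
              exact_mod_cast h11
          _ = (D.natAbs : ℝ) * (K * (PP.rd P : ℝ)) := by push_cast; ring
          _ ≤ (D.natAbs : ℝ) * (P : ℝ) := by gcongr
          _ ≤ ((D.natAbs ^ q * P : ℕ) : ℝ) := by exact_mod_cast h12)
    rw [hcard, hbK, hBZr] at hmain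
    calc (T.card : ℝ) ≤ C * (F * y) ^ ε * (F * 2 ^ M / c' * y ^ ((M : ℝ) + 1 - κ)) := hmain
      _ = C * (F : ℝ) ^ ε * (F * 2 ^ M / c') * (y ^ ((M : ℝ) + 1 - κ) * y ^ ε) := by
          rw [Real.mul_rpow (by positivity) hy0.le]
          ring
      _ = C * (F : ℝ) ^ ε * (F * 2 ^ M / c') * y ^ ((M : ℝ) + 1 - κ + ε) := by
          rw [← Real.rpow_add hy0]
      _ ≤ (C * (F : ℝ) ^ ε + 3 ^ (M + 1)) * (F * 2 ^ M / c') * y ^ ((M : ℝ) + 1 - κ + ε) := by
          refine mul_le_mul_of_nonneg_right ?_ (by positivity)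
          refine mul_le_mul_of_nonneg_right ?_ (by positivity)
          have : (0 : ℝ) ≤ 3 ^ (M + 1) := by positivity
          linarith

end Pool.Agent.K4H9.PN
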