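import Pool.Agent.K4H9.PN.G
import Pool.Agent.K4H9.PP.Sum

set_option autoImplicit false

/-!
Sums of the inverse norms of vectors, and of the tuples which belong to them.
-/

namespace Pool.Agent.K4H9.PN

open Finset

variable {N q : ℕ} {ℓ : Fin q → Fin N → ℤ} {Θ H : ℕ}

/-- the property of the primitive vector -/
def Gp (ℓ : Fin q → Fin N → ℤ) (Θ : ℕ) (Y : Fin N → ℤ) : Prop :=
  Cont 1 Y ∧ (∀ l, ∃ i j, mn Y (ℓ l) i j ≠ 0) ∧
    ∃ s : ℕ, Squarefree s ∧ s.Coprime Θ ∧ nm Y < Θ * s ∧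
      ∀ p : ℕ, p.Prime → p ∣ s → ∃ l, ∀ i j, (p : ℤ) ^ 2 ∣ mn Y (ℓ l) i j

lemma sumY (g : GP ℓ Θ H) {ε : ℝ} (hε : 0 < ε) : ∃ C : ℝ, 0 < C ∧ ∀ W : ℕ, 1 ≤ W →
    ∀ T : Finset (Fin N → ℤ), (∀ Y ∈ T, Gp ℓ Θ Y ∧ nm Y ≤ W) →
      ∑ Y ∈ T, 1 / (nm Y : ℝ) ≤ C * (W : ℝ) ^ ε := by
  classical
  have hε2 : 0 < ε / 2 := half_pos hε
  obtain ⟨C, hC0, hC⟩ := glem g (M := 2 * Θ) (by have := g.Θ1; omega) hε2
  obtain ⟨C', hC'0, hC'⟩ := PP.log_le_pow hε2
  refine ⟨2 * C * 2 ^ (ε / 2) * C', by positivity, fun W hW T hT => ?_⟩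
  have hW1 : (1 : ℝ) ≤ W := by exact_mod_cast hW
  have hW0 : (0 : ℝ) < W := by linarith
  have hmaps : ∀ Y ∈ T, Nat.log 2 (nm Y) ∈ range (Nat.log 2 W + 1) := by
    intro Y hY
    rw [mem_range]
    have := Nat.log_mono_right (b := 2) (hT Y hY).2
    omega
  rw [← Finset.sum_fiberwise_of_maps_to hmaps]
  have hterm : ∀ i ∈ range (Nat.log 2 W + 1), ∑ Y ∈ T with Nat.log 2 (nm Y) = i, 1 / (nm Y : ℝ) ≤
      2 * C * 2 ^ (ε / 2) * (W : ℝ) ^ (ε / 2) := by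
    intro i hi
    rw [mem_range] at hi
    have h2i : (2 : ℝ) ^ i ≤ W := by
      have h1 : 2 ^ i ≤ W := (Nat.pow_le_pow_right (by norm_num) (by omega)).trans
        (Nat.pow_log_le_self 2 (by omega : W ≠ 0))
      exact_mod_cast h1
    have hpi : (0 : ℝ) < (2 : ℝ) ^ i := by positivity
    set F := T.filter fun Y => Nat.log 2 (nm Y) = i with hF
    have hFY : ∀ Y ∈ F, 2 ^ i ≤ nm Y ∧ nm Y < 2 ^ (i + 1) ∧ Gp ℓ Θ Y := by
      intro Y hY
      rw [hF, mem_filter] at hY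
      have h1 : 1 ≤ nm Y := nm_pos (hT Y hY.1).1.1.1
      rw [← hY.2]
      exact ⟨Nat.pow_log_le_self 2 (by omega), Nat.lt_pow_succ_log_self (by norm_num) _,
        (hT Y hY.1).1⟩
    have h1 := hC (2 ^ (i + 1)) Nat.one_le_two_pow F (by
      intro Y hY
      obtain ⟨h2, h3, h4, h5, s, h6, h7, h8, h9⟩ := hFY Y hY
      refine ⟨h4, fun k => ?_, h5, s, h6, h7, ?_, h9⟩
      · have := abs_le_nm Y k
        refine this.trans ?_
        exact_mod_cast h3.le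
      · calc 2 ^ (i + 1) = 2 * 2 ^ i := by ring
          _ ≤ 2 * nm Y := by omega
          _ < 2 * (Θ * s) := by omega
          _ = _ := by ring)
    calc ∑ Y ∈ F, 1 / (nm Y : ℝ) ≤ ∑ Y ∈ F, 1 / (2 : ℝ) ^ i := by
          refine Finset.sum_le_sum fun Y hY => ?_
          refine one_div_le_one_div_of_le hpi ?_
          exact_mod_cast (hFY Y hY).1
      _ = F.card * (1 / (2 : ℝ) ^ i) := by rw [Finset.sum_const, nsmul_eq_mul]
      _ ≤ (C * ((2 ^ (i + 1) : ℕ) : ℝ) ^ (1 + ε / 2)) * (1 / (2 : ℝ) ^ i) := by gcongr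
      _ = 2 * C * (2 ^ (ε / 2) * ((2 : ℝ) ^ i) ^ (ε / 2)) := by
          push_cast
          rw [Real.rpow_add (by positivity), Real.rpow_one, pow_succ',
            Real.mul_rpow (by norm_num) (by positivity)]
          field_simp
      _ ≤ 2 * C * (2 ^ (ε / 2) * (W : ℝ) ^ (ε / 2)) := by gcongr
      _ = _ := by ring
  calc _ ≤ ∑ i ∈ range (Nat.log 2 W + 1), 2 * C * 2 ^ (ε / 2) * (W : ℝ) ^ (ε / 2) :=
        Finset.sum_le_sum hterm
    _ = ((Nat.log 2 W + 1 : ℕ) : ℝ) * (2 * C * 2 ^ (ε / 2) * (W : ℝ) ^ (ε / 2)) := by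
        rw [Finset.sum_const, card_range, nsmul_eq_mul]
    _ ≤ (C' * (W : ℝ) ^ (ε / 2)) * (2 * C * 2 ^ (ε / 2) * (W : ℝ) ^ (ε / 2)) :=
        mul_le_mul_of_nonneg_right (hC' W hW) (by positivity)
    _ = 2 * C * 2 ^ (ε / 2) * C' * ((W : ℝ) ^ (ε / 2) * (W : ℝ) ^ (ε / 2)) := by ring
    _ = _ := by rw [← Real.rpow_add hW0, add_halves]

lemma nm_smul (t : ℕ) (Y : Fin N → ℤ) : nm ((t : ℤ) • Y) = t * nm Y := by
  apply le_antisymm
  · refine Finset.sup_le fun k _ => ?_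
    rw [Pi.smul_apply, smul_eq_mul, Int.natAbs_mul, Int.natAbs_natCast]
    exact Nat.mul_le_mul_left _ (natAbs_le_nm Y k)
  · rcases Nat.eq_zero_or_pos N with hN | hN
    · subst hN
      simp [nm]
    · obtain ⟨k, hk⟩ := exists_nm hN Y
      have := natAbs_le_nm ((t : ℤ) • Y) k
      rw [Pi.smul_apply, smul_eq_mul, Int.natAbs_mul, Int.natAbs_natCast, hk] at this
      exact this

lemma sumV (g : GP ℓ Θ H) {ε : ℝ} (hε : 0 < ε) : ∃ C : ℝ, 0 < C ∧ ∀ W : ℕ, 1 ≤ W →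
    ∀ T : Finset (Fin N → ℤ), (∀ V ∈ T, nm V ≤ W ∧ ∃ (t : ℕ) (Y : Fin N → ℤ), 1 ≤ t ∧
      V = (t : ℤ) • Y ∧ Gp ℓ Θ Y) → ∑ V ∈ T, 1 / (nm V : ℝ) ≤ C * (W : ℝ) ^ ε := by
  classical
  have hε2 : 0 < ε / 2 := half_pos hε
  obtain ⟨C, hC0, hC⟩ := sumY g hε2
  refine ⟨(1 + 2 / ε) * C, by positivity, fun W hW T hT => ?_⟩
  have hW1 : (1 : ℝ) ≤ W := by exact_mod_cast hW
  have hW0 : (0 : ℝ) < W := by linarith
  have hWe : (1 : ℝ) ≤ (W : ℝ) ^ (ε / 2) := Real.one_le_rpow hW1 hε2.le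
  have hT' : ∀ V ∈ T, ∃ (t : ℕ) (Y : Fin N → ℤ), 1 ≤ t ∧ V = (t : ℤ) • Y ∧ Gp ℓ Θ Y :=
    fun V hV => (hT V hV).2
  choose! t Y h1 h2 h3 using hT'
  have hY1 : ∀ V ∈ T, 1 ≤ nm (Y V) := fun V hV => nm_pos (h3 V hV).1.1
  have hnm : ∀ V ∈ T, nm V = t V * nm (Y V) := by
    intro V hV
    conv_lhs => rw [h2 V hV]
    exact nm_smul _ _
  have ht : ∀ V ∈ T, t V ≤ W := by
    intro V hV
    have := (hT V hV).1
    rw [hnm V hV] at this
    exact (Nat.le_mul_of_pos_right _ (hY1 V hV)).trans this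
  have hY : ∀ V ∈ T, nm (Y V) ≤ W := by
    intro V hV
    have := (hT V hV).1
    rw [hnm V hV] at this
    exact (Nat.le_mul_of_pos_left _ (h1 V hV)).trans this
  have hinj : Set.InjOn (fun V => (t V, Y V)) (T : Set (Fin N → ℤ)) := by
    intro V hV V' hV' h
    simp only [Prod.mk.injEq] at h
    rw [h2 V hV, h2 V' hV', h.1, h.2]
  have hsub : T.image (fun V => (t V, Y V)) ⊆ Icc 1 W ×ˢ T.image Y := by
    intro x hx
    obtain ⟨V, hV, rfl⟩ := mem_image.1 hx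
    rw [mem_product, mem_Icc]
    exact ⟨⟨h1 V hV, ht V hV⟩, mem_image_of_mem Y hV⟩
  have hharm : ∑ n ∈ Icc 1 W, (1 / (n : ℝ)) ≤ (1 + 2 / ε) * (W : ℝ) ^ (ε / 2) := by
    have e1 := harmonic_le_one_add_log W
    rw [harmonic_eq_sum_Icc] at e1
    push_cast at e1
    have e2 : Real.log W ≤ (W : ℝ) ^ (ε / 2) / (ε / 2) := Real.log_le_rpow_div hW0.le hε2
    rw [div_div_eq_mul_div] at e2
    have e3 : (W : ℝ) ^ (ε / 2) * 2 / ε = 2 / ε * (W : ℝ) ^ (ε / 2) := by ring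
    have e4 : ∑ n ∈ Icc 1 W, (1 / (n : ℝ)) = ∑ n ∈ Icc 1 W, ((n : ℝ))⁻¹ :=
      Finset.sum_congr rfl fun i _ => by rw [one_div]
    rw [e4]
    linarith
  calc ∑ V ∈ T, 1 / (nm V : ℝ) =
        ∑ x ∈ T.image (fun V => (t V, Y V)), (1 / (x.1 : ℝ)) * (1 / (nm x.2 : ℝ)) := by
        rw [Finset.sum_image hinj]
        refine Finset.sum_congr rfl fun V hV => ?_
        rw [hnm V hV]
        push_cast
        rw [one_div_mul_one_div]
    _ ≤ ∑ x ∈ Icc 1 W ×ˢ T.image Y, (1 / (x.1 : ℝ)) * (1 / (nm x.2 : ℝ)) :=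
        Finset.sum_le_sum_of_subset_of_nonneg hsub fun _ _ _ => by positivity
    _ = (∑ n ∈ Icc 1 W, (1 / (n : ℝ))) * ∑ y ∈ T.image Y, 1 / (nm y : ℝ) := by
        rw [Finset.sum_product, Finset.sum_mul]
        refine Finset.sum_congr rfl fun n _ => ?_
        rw [Finset.mul_sum]
    _ ≤ ((1 + 2 / ε) * (W : ℝ) ^ (ε / 2)) * (C * (W : ℝ) ^ (ε / 2)) := by
        refine mul_le_mul hharm ?_ (Finset.sum_nonneg fun _ _ => by positivity) (by positivity)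
        refine hC W hW _ fun y hy => ?_
        obtain ⟨V, hV, rfl⟩ := mem_image.1 hy
        exact ⟨h3 V hV, hY V hV⟩
    _ = (1 + 2 / ε) * C * ((W : ℝ) ^ (ε / 2) * (W : ℝ) ^ (ε / 2)) := by ring
    _ = _ := by rw [← Real.rpow_add hW0, add_halves]

/-- the content -/
lemma exists_prim {V : Fin N → ℤ} (hV : V ≠ 0) : ∃ (t : ℕ) (Y : Fin N → ℤ), 1 ≤ t ∧
    V = (t : ℤ) • Y ∧ Cont 1 Y := by
  obtain ⟨a, D, hD, haD, hDV⟩ := bezout V hV
  have h1 : ∀ k, (D.natAbs : ℤ) ∣ V k := fun k => Int.natAbs_dvd.2 (hDV k)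
  choose Y hY using h1
  refine ⟨D.natAbs, Y, by omega, funext fun k => hY k, ?_, fun d hd => ?_⟩
  · rintro rfl
    apply hV
    funext k
    rw [hY k]
    simp
  · have h2 : dot a V = D.natAbs * dot a Y := by
      unfold dot
      rw [Finset.mul_sum]
      exact Finset.sum_congr rfl fun k _ => by rw [hY k]; ring
    have h3 : d ∣ dot a Y := by
      unfold dot
      exact Finset.dvd_sum fun k _ => Dvd.dvd.mul_left (hd k) _
    have h4 : IsUnit (dot a Y) := by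
      have h5 : (D.natAbs : ℤ) * dot a Y ∣ D := by rw [← h2, haD]
      have h6 : (D.natAbs : ℤ) * dot a Y ∣ (D.natAbs : ℤ) * 1 := by
        rw [mul_one]
        exact Int.dvd_natAbs.2 h5
      have h7 : (D.natAbs : ℤ) ≠ 0 := by
        simpa using hD
      exact isUnit_of_dvd_one ((mul_dvd_mul_iff_left h7).1 h6)
    have h5 : dot a Y ∣ ((1 : ℕ) : ℤ) := by
      push_cast
      exact h4.dvd
    exact h3.trans h5

/-- the vector of a tuple satisfies the property -/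
lemma gp_of (g : GP ℓ Θ H) {m : Fin q → ℕ} (hm0 : ∏ l, m l ≠ 0)
    (hsq : ∀ p : ℕ, p.Prime → p ∣ ∏ l, m l → p ^ 2 ∣ ∏ l, m l) {V : Fin N → ℤ} (hV : V ≠ 0)
    (hVl : ∀ l, ∃ i j, mn V (ℓ l) i j ≠ 0) (hd : ∀ l i j, (m l : ℤ) ∣ Θ * mn V (ℓ l) i j)
    (hR : nm V < PP.rd (∏ l, m l)) :
    ∃ (t : ℕ) (Y : Fin N → ℤ), 1 ≤ t ∧ V = (t : ℤ) • Y ∧ Gp ℓ Θ Y := by
  classical
  obtain ⟨t, Y, ht, hVY, hY⟩ := exists_prim hV
  have hcr : ∀ l i j, mn V (ℓ l) i j = t * mn Y (ℓ l) i j := by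
    intro l i j
    rw [hVY]
    exact mn_smul _ _ _ _ _
  refine ⟨t, Y, ht, hVY, hY, ?_, ?_⟩
  · intro l
    obtain ⟨i, j, h⟩ := hVl l
    refine ⟨i, j, fun h0 => h ?_⟩
    rw [hcr, h0, mul_zero]
  set R := PP.rd (∏ l, m l) with hRdef
  set s := ∏ p ∈ R.primeFactors.filter (fun p => ¬ p ∣ t ∧ ¬ p ∣ Θ), p with hs
  have hsR : s ∣ R := by
    have h1 : s ∣ ∏ p ∈ R.primeFactors, p := Finset.prod_dvd_prod_of_subset _ _ _ (filter_subset _ _)
    exact h1.trans (Nat.prod_primeFactors_dvd R)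
  have hRsq : Squarefree R := PP.rd_squarefree _
  have hssq : Squarefree s := hRsq.squarefree_of_dvd hsR
  have hps : ∀ p : ℕ, p.Prime → p ∣ s → p ∣ R ∧ ¬ p ∣ t ∧ ¬ p ∣ Θ := by
    intro p hp hps
    obtain ⟨r, hr, hpr⟩ := (hp.prime.dvd_finsetProd_iff _).1 hps
    rw [mem_filter] at hr
    have := (Nat.prime_dvd_prime_iff_eq hp (Nat.prime_of_mem_primeFactors hr.1)).1 hpr
    subst this
    exact ⟨Nat.dvd_of_mem_primeFactors hr.1, hr.2⟩
  refine ⟨s, hssq, ?_, ?_, ?_⟩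
  · rw [Nat.coprime_iff_gcd_eq_one]
    by_contra hne
    obtain ⟨p, hp, hpd⟩ := Nat.exists_prime_and_dvd hne
    exact (hps p hp (hpd.trans (Nat.gcd_dvd_left _ _))).2.2 (hpd.trans (Nat.gcd_dvd_right _ _))
  · have h1 : R ∣ s * t * Θ := by
      have h2 : ((R : ℕ) : ℤ) ^ 1 ∣ ((s * t * Θ : ℕ) : ℤ) := by
        refine PP.sqf_dvd hRsq 1 fun p hp hpR => ?_
        rw [pow_one]
        norm_cast
        by_cases h3 : p ∣ t
        · exact Dvd.dvd.mul_right (Dvd.dvd.mul_left h3 _) _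
        by_cases h4 : p ∣ Θ
        · exact Dvd.dvd.mul_left h4 _
        refine Dvd.dvd.mul_right (Dvd.dvd.mul_right ?_ _) _
        rw [hs]
        refine Finset.dvd_prod_of_mem (fun p => p) (mem_filter.2 ⟨?_, h3, h4⟩)
        rw [Nat.mem_primeFactors]
        exact ⟨hp, hpR, hRsq.ne_zero⟩
      rw [pow_one] at h2
      exact_mod_cast h2
    have hΘ := g.Θ1
    have hs0 : 0 < s := Nat.pos_of_ne_zero hssq.ne_zero
    have h2 : R ≤ s * t * Θ := Nat.le_of_dvd (by positivity) h1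
    have h3 : nm V = t * nm Y := by
      conv_lhs => rw [hVY]
      exact nm_smul _ _
    have h4 : t * nm Y < t * (Θ * s) := by
      calc t * nm Y < R := by rw [← h3]; exact hR
        _ ≤ s * t * Θ := h2
        _ = _ := by ring
    exact Nat.lt_of_mul_lt_mul_left h4
  · intro p hp hpsd
    obtain ⟨hpR, hpt, hpΘ⟩ := hps p hp hpsd
    have hpP : p ∣ ∏ l, m l := (PP.prime_dvd_rd hm0 hp).1 hpR
    have hp' : Prime (p : ℤ) := Nat.prime_iff_prime_int.1 hp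
    have hpΘ' : ¬ (p : ℤ) ∣ (Θ : ℤ) := fun h => hpΘ (by exact_mod_cast h)
    obtain ⟨l, -, hl⟩ := (hp.prime.dvd_finsetProd_iff _).1 hpP
    -- no other index
    have hother : ∀ l', l' ≠ l → ¬ p ∣ m l' := by
      intro l' hne hl'
      apply hY.prime hp
      obtain ⟨j, j', hj⟩ := g.exists_c hpΘ hne
      intro k
      have h1 : ∀ a b, (p : ℤ) ∣ mn V (ℓ l') a b := fun a b =>
        (hp'.dvd_or_dvd ((Int.natCast_dvd_natCast.2 hl').trans (hd l' a b))).resolve_left hpΘ'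
      have h2 : ∀ a b, (p : ℤ) ∣ mn V (ℓ l) a b := fun a b =>
        (hp'.dvd_or_dvd ((Int.natCast_dvd_natCast.2 hl).trans (hd l a b))).resolve_left hpΘ'
      have h3 := dvd_of_two h1 h2 k j j'
      have h4 := (hp'.dvd_or_dvd h3).resolve_right hj
      rw [hVY, Pi.smul_apply, smul_eq_mul] at h4
      refine (hp'.dvd_or_dvd h4).resolve_left ?_
      intro h5
      exact hpt (by exact_mod_cast h5)
    have hml : p ^ 2 ∣ m l := by
      have h1 := hsq p hp hpP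
      rw [← Finset.mul_prod_erase univ m (mem_univ l)] at h1
      have h2 : Nat.Coprime (p ^ 2) (∏ x ∈ univ.erase l, m x) := by
        refine Nat.Coprime.pow_left 2 ?_
        rw [Nat.Prime.coprime_iff_not_dvd hp]
        intro h3
        obtain ⟨l', hl', hpl'⟩ := (hp.prime.dvd_finsetProd_iff _).1 h3
        exact hother l' (mem_erase.1 hl').1 hpl'
      exact h2.dvd_of_dvd_mul_right h1
    refine ⟨l, fun i j => ?_⟩
    have h1 : (p : ℤ) ^ 2 ∣ (Θ : ℤ) ^ 1 * mn V (ℓ l) i j := by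
      have : ((p ^ 2 : ℕ) : ℤ) ∣ (m l : ℤ) := Int.natCast_dvd_natCast.2 hml
      push_cast at this
      rw [pow_one]
      exact this.trans (hd l i j)
    have h1' := PP.dvd_cancel hp hpΘ' 2 1 h1
    rw [hcr l i j] at h1'
    have h2 : (p : ℤ) ^ 2 ∣ (t : ℤ) ^ 1 * mn Y (ℓ l) i j := by rw [pow_one]; exact h1'
    refine PP.dvd_cancel hp (a := (t : ℤ)) ?_ 2 1 h2
    intro h5
    exact hpt (by exact_mod_cast h5)

/-- **the sum over the tuples** -/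
theorem sumM (g : GP ℓ Θ H) {ε : ℝ} (hε : 0 < ε) : ∃ C : ℝ, 0 < C ∧ ∀ W : ℕ, 1 ≤ W →
    ∀ (T : Finset (Fin q → ℕ)) (V : (Fin q → ℕ) → Fin N → ℤ),
      (∀ m ∈ T, ∏ l, m l ≠ 0 ∧ (∀ p : ℕ, p.Prime → p ∣ ∏ l, m l → p ^ 2 ∣ ∏ l, m l) ∧
        V m ≠ 0 ∧ nm (V m) ≤ W ∧ (∀ l, ∃ i j, mn (V m) (ℓ l) i j ≠ 0) ∧
        (∀ l i j, (m l : ℤ) ∣ Θ * mn (V m) (ℓ l) i j) ∧ nm (V m) < PP.rd (∏ l, m l)) →
      ∑ m ∈ T, 1 / (nm (V m) : ℝ) ≤ C * (W : ℝ) ^ ε := by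
  classical
  have hε2 : 0 < ε / 2 := half_pos hε
  obtain ⟨C, hC0, hC⟩ := sumV g hε2
  have hq : (0 : ℝ) < q := by
    have := g.N3
    have := g.qN
    exact_mod_cast (by omega : 0 < q)
  have hη : 0 < ε / 2 / q := by positivity
  obtain ⟨C', hC'0, hC'⟩ := PP.card_tuples_eq q hη
  have hH := g.H1
  have hΘ1 := g.Θ1
  refine ⟨C' * ((2 * H * Θ : ℕ) : ℝ) ^ (ε / 2) * C, by positivity, fun W hW T V hT => ?_⟩
  have hW1 : (1 : ℝ) ≤ W := by exact_mod_cast hW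
  have hW0 : (0 : ℝ) < W := by linarith
  have hmaps : ∀ m ∈ T, V m ∈ T.image V := fun m hm => mem_image_of_mem V hm
  rw [← Finset.sum_fiberwise_of_maps_to hmaps]
  have hfib : ∀ v ∈ T.image V, ∑ m ∈ T with V m = v, 1 / (nm (V m) : ℝ) ≤
      (C' * ((2 * H * Θ : ℕ) : ℝ) ^ (ε / 2) * (W : ℝ) ^ (ε / 2)) * (1 / (nm v : ℝ)) := by
    intro v hv
    obtain ⟨m0, hm0, rfl⟩ := mem_image.1 hv
    obtain ⟨-, -, hv0, hvW, hvl, -, -⟩ := hT m0 hm0
    set v := V m0 with hvdef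
    have h1 : ∑ m ∈ T with V m = v, 1 / (nm (V m) : ℝ) =
        ((T.filter fun m => V m = v).card : ℝ) * (1 / (nm v : ℝ)) := by
      rw [← nsmul_eq_mul, ← Finset.sum_const]
      refine Finset.sum_congr rfl fun m hm => ?_
      rw [(mem_filter.1 hm).2]
    rw [h1]
    refine mul_le_mul_of_nonneg_right ?_ (by positivity)
    choose k k' hk using hvl
    obtain ⟨n, hn⟩ : ∃ n : ℕ, n = ∏ l, Θ * (mn v (ℓ l) (k l) (k' l)).natAbs := ⟨_, rfl⟩
    have hN1 : 1 ≤ n := by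
      have hN0 : 0 < n := by
        rw [hn]
        refine Finset.prod_pos fun l _ => Nat.mul_pos hΘ1 ?_
        have := hk l
        omega
      exact hN0
    have hNle : n ≤ (2 * H * Θ * W) ^ q := by
      calc n ≤ ∏ _l : Fin q, 2 * H * Θ * W := by
            rw [hn]
            refine Finset.prod_le_prod' fun l _ => ?_
            have h2 := mn_le g (Y := v) (Z := nm v) (abs_le_nm v) l (k l) (k' l)
            rw [Int.abs_eq_natAbs] at h2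
            have h3 : (mn v (ℓ l) (k l) (k' l)).natAbs ≤ 2 * H * nm v := by exact_mod_cast h2
            calc Θ * (mn v (ℓ l) (k l) (k' l)).natAbs ≤ Θ * (2 * H * W) :=
                  Nat.mul_le_mul_left _ (h3.trans (Nat.mul_le_mul_left _ hvW))
              _ = _ := by ring
        _ = _ := by simp
    have h2 := hC' n hN1 (T.filter fun m => V m = v) (by
      intro m hm l
      rw [mem_filter] at hm
      obtain ⟨-, -, -, -, -, h3, -⟩ := hT m hm.1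
      have h4 := h3 l (k l) (k' l)
      rw [hm.2] at h4
      have h5 : m l ∣ Θ * (mn v (ℓ l) (k l) (k' l)).natAbs := by
        have h6 := Int.natCast_dvd.1 h4
        rwa [Int.natAbs_mul, Int.natAbs_natCast] at h6
      rw [hn]
      exact h5.trans (Finset.dvd_prod_of_mem (fun l => Θ * (mn v (ℓ l) (k l) (k' l)).natAbs)
        (mem_univ l)))
    refine h2.trans ?_
    have h3 : (n : ℝ) ^ (ε / 2 / q) ≤ ((2 * H * Θ : ℕ) : ℝ) ^ (ε / 2) * (W : ℝ) ^ (ε / 2) := by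
      have h4 : (n : ℝ) ≤ (((2 * H * Θ : ℕ) : ℝ) * W) ^ q := by exact_mod_cast hNle
      calc (n : ℝ) ^ (ε / 2 / q) ≤ ((((2 * H * Θ : ℕ) : ℝ) * W) ^ q) ^ (ε / 2 / q) :=
            Real.rpow_le_rpow (Nat.cast_nonneg _) h4 hη.le
        _ = (((2 * H * Θ : ℕ) : ℝ) * W) ^ (ε / 2) := by
            rw [← Real.rpow_natCast, ← Real.rpow_mul (by positivity)]
            congr 1
            field_simp
        _ = _ := Real.mul_rpow (by positivity) (by positivity)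
    calc C' * (n : ℝ) ^ (ε / 2 / q) ≤
          C' * (((2 * H * Θ : ℕ) : ℝ) ^ (ε / 2) * (W : ℝ) ^ (ε / 2)) := by gcongr
      _ = _ := by ring
  refine (Finset.sum_le_sum hfib).trans ?_
  rw [← Finset.mul_sum]
  have h1 := hC W hW (T.image V) (by
    intro v hv
    obtain ⟨m, hm, rfl⟩ := mem_image.1 hv
    obtain ⟨h2, h3, h4, h5, h6, h7, h8⟩ := hT m hm
    exact ⟨h5, gp_of g h2 h3 h4 h6 h7 h8⟩)
  calc _ ≤ (C' * ((2 * H * Θ : ℕ) : ℝ) ^ (ε / 2) * (W : ℝ) ^ (ε / 2)) * (C * (W : ℝ) ^ (ε / 2)) :=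
        mul_le_mul_of_nonneg_left h1 (by positivity)
    _ = C' * ((2 * H * Θ : ℕ) : ℝ) ^ (ε / 2) * C * ((W : ℝ) ^ (ε / 2) * (W : ℝ) ^ (ε / 2)) := by ring
    _ = _ := by rw [← Real.rpow_add hW0, add_halves]

end Pool.Agent.K4H9.PN
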