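import Pool.Agent.K4H9.PN.Pair

set_option autoImplicit false

/-!
One form more than the dimension: a line on which the forms fall into two classes.
-/

namespace Pool.Agent.K4H9.PN

open Finset

variable {r : ℕ} {L : Fin (r + 3 + 1) → Fin (r + 3) → ℤ} {Θ H : ℕ}

theorem lower_two (g : GP L Θ H) {κ : ℝ} (hκ0 : 0 ≤ ((r + 3 + 1 : ℕ) : ℝ) - κ)
    (hκ2 : ((r + 3 + 1 : ℕ) : ℝ) - κ ≤ 2) :
    ∃ (C m : ℝ) (E : ℕ), 0 < C ∧ 0 < m ∧ 1 ≤ E ∧ ∀ M : ℕ, 1 ≤ M →
      ∃ T : Finset (Fin (r + 3) → ℤ),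
      m * (M : ℝ) ^ (((r + 3 + 1 : ℕ) : ℝ) - κ) ≤ (T.card : ℝ) ∧ ∀ x ∈ T, Cont 1 x ∧
      nm x ≤ E * M ∧ (∀ l, dot x (L l) ≠ 0) ∧
      (PP.rd (∏ l, (dot x (L l)).natAbs) : ℝ) ≤
        C * (nm x : ℝ) ^ (((r + 3 + 1 : ℕ) : ℝ) - κ) := by
  classical
  set s : Fin (r + 3) → Fin (r + 3 + 1) := Fin.castSucc with hs
  have hsi : Function.Injective s := Fin.castSucc_injective _
  set D := (Matrix.of fun a => L (s a)).det with hD
  have hD0 : D ≠ 0 := (g.d s hsi).1
  set cc : Fin (r + 3) → Fin (r + 3) → ℤ := col (fun c => L (s c)) with hcc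
  have hcd : ∀ a b, dot (cc a) (L (s b)) = if b = a then D else 0 := fun a b =>
    dot_col (fun c => L (s c)) a b
  set la : Fin (r + 3 + 1) := Fin.last (r + 3) with hla
  set γ : Fin (r + 3) → ℤ := fun a => dot (cc a) (L la) with hγ
  have hγ0 : ∀ a, γ a ≠ 0 := by
    intro a
    refine col_ne g hsi a la fun b _ h => ?_
    exact (Fin.castSucc_lt_last b).ne h.symm
  set i0 : Fin (r + 3) := 0 with hi0
  set i1 : Fin (r + 3) := Fin.succ 0 with hi1
  set i2 : Fin (r + 3) := Fin.succ (Fin.succ 0) with hi2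
  have h01 : i0 ≠ i1 := (Fin.succ_ne_zero _).symm
  have h02 : i0 ≠ i2 := (Fin.succ_ne_zero _).symm
  have h12 : i1 ≠ i2 := by
    intro h
    exact (Fin.succ_ne_zero _).symm (Fin.succ_injective _ h)
  set P₁ : Fin (r + 3) → ℤ := γ i1 • cc i0 + (-γ i0) • cc i1 with hP₁
  have hP₁dot : ∀ W, dot P₁ W = γ i1 * dot (cc i0) W + -γ i0 * dot (cc i1) W := by
    intro W
    rw [hP₁, dot_add, dot_smul, dot_smul]
  set w : ℤ → Fin (r + 3) → ℤ := fun ω a =>
    if a = i0 ∨ a = i1 then 0 else if a = i2 then ω else 1 with hw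
  obtain ⟨ω, hω0, hω⟩ : ∃ ω : ℤ, ω ≠ 0 ∧ ∑ a, w ω a * γ a ≠ 0 := by
    by_contra hcon
    push Not at hcon
    have h1 := hcon 1 one_ne_zero
    have h2 := hcon 2 two_ne_zero
    apply hγ0 i2
    have h3 : ∑ a, (w 2 a - w 1 a) * γ a = γ i2 := by
      rw [Finset.sum_eq_single i2]
      · have hn : ¬ (i2 = i0 ∨ i2 = i1) := by
          rintro (h | h)
          · exact h02 h.symm
          · exact h12 h.symm
        simp only [hw, if_neg hn, if_true]
        ring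
      · intro a _ ha
        simp only [hw]
        split_ifs <;> ring
      · intro h
        exact absurd (mem_univ i2) h
    simp only [sub_mul, Finset.sum_sub_distrib] at h3
    rw [h1, h2] at h3
    rw [← h3]
    ring
  set P₂ : Fin (r + 3) → ℤ := ∑ a, w ω a • cc a with hP₂
  have hP₂dot : ∀ W, dot P₂ W = ∑ a, w ω a * dot (cc a) W := by
    intro W
    rw [hP₂]
    exact dot_sum cc (w ω) W
  have hP₂s : ∀ b, dot P₂ (L (s b)) = w ω b * D := by
    intro b
    rw [hP₂dot, Finset.sum_eq_single b]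
    · rw [hcd, if_pos rfl]
    · intro a _ hab
      rw [hcd, if_neg (Ne.symm hab), mul_zero]
    · intro h
      exact absurd (mem_univ b) h
  have hcase : ∀ l : Fin (r + 3 + 1), l = la ∨ ∃ b, l = s b := by
    intro l
    rcases Fin.eq_castSucc_or_eq_last l with ⟨b, h⟩ | h
    · exact Or.inr ⟨b, h⟩
    · exact Or.inl h
  have hlas : ∀ b, la ≠ s b := fun b h => (Fin.castSucc_lt_last b).ne h.symm
  set G : Finset (Fin (r + 3 + 1)) := {s i0, s i1} with hG
  have hw0 : ∀ b, b ≠ i0 → b ≠ i1 → w ω b ≠ 0 := by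
    intro b hb0 hb1
    simp only [hw]
    rw [if_neg (by rintro (h | h); exacts [hb0 h, hb1 h])]
    split_ifs
    · exact hω0
    · exact one_ne_zero
  refine lower_pair g hκ0 hκ2 P₁ P₂ G ⟨s i0, by simp [hG]⟩ ⟨la, ?_⟩ ?_ ?_
  · rw [mem_sdiff, hG, mem_insert, mem_singleton, not_or]
    exact ⟨mem_univ _, hlas _, hlas _⟩
  · intro l hl
    rw [hG, mem_insert, mem_singleton] at hl
    rcases hl with rfl | rfl
    · rw [hP₁dot, hP₂s, hcd, hcd, if_pos rfl, if_neg h01]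
      refine ⟨?_, ?_⟩
      · rw [mul_zero, add_zero]
        exact mul_ne_zero (hγ0 i1) hD0
      · simp [hw]
    · rw [hP₁dot, hP₂s, hcd, hcd, if_neg h01.symm, if_pos rfl]
      refine ⟨?_, ?_⟩
      · rw [mul_zero, zero_add]
        exact mul_ne_zero (neg_ne_zero.2 (hγ0 i0)) hD0
      · simp [hw]
  · intro l hl
    rw [hG, mem_insert, mem_singleton, not_or] at hl
    rcases hcase l with rfl | ⟨b, rfl⟩
    · refine ⟨?_, ?_⟩
      · rw [hP₁dot]
        change γ i1 * γ i0 + -γ i0 * γ i1 = 0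
        ring
      · rw [hP₂dot]
        exact hω
    · have hb0 : b ≠ i0 := fun h => hl.1 (by rw [h])
      have hb1 : b ≠ i1 := fun h => hl.2 (by rw [h])
      refine ⟨?_, ?_⟩
      · rw [hP₁dot, hcd, hcd, if_neg hb0, if_neg hb1]
        ring
      · rw [hP₂s]
        exact mul_ne_zero (hw0 b hb0 hb1) hD0

end Pool.Agent.K4H9.PN
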