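import Pool.Agent.K4H9.PN.Red

set_option autoImplicit false

/-!
The upper bound.
-/

namespace Pool.Agent.K4H9.PN

open Finset

variable {q M : ℕ} {L : Fin q → Fin (M + 1) → ℤ} {Θ H : ℕ}

/-- the smallest forms -/
lemma exists_small (g : GP L Θ H) (x : Fin (M + 1) → ℤ) :
    ∃ s : Fin (M + 1) → Fin q, Function.Injective s ∧
      ∀ l, (∀ c : Fin M, l ≠ s c.succ) → nm x ≤ EE L * (dot x (L l)).natAbs := by
  classical
  have hN3 := g.N3
  have hqN := g.qN
  obtain ⟨I, hI, hmax⟩ := exists_top (α := ℕᵒᵈ)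
    (fun l => OrderDual.toDual (dot x (L l)).natAbs) M (by omega)
  have hmax' : ∀ i ∈ I, ∀ l, l ∉ I → (dot x (L i)).natAbs ≤ (dot x (L l)).natAbs := by
    intro i hi l hl
    exact OrderDual.toDual_le_toDual.1 (hmax i hi l hl)
  obtain ⟨t, ht, htI⟩ := exists_enum I hI
  obtain ⟨l₀, hl₀⟩ : ∃ l₀, l₀ ∉ I := by
    by_contra hcon
    push Not at hcon
    have : I = univ := Finset.eq_univ_iff_forall.2 hcon
    rw [this, Finset.card_univ, Fintype.card_fin] at hI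
    omega
  have hmem : ∀ c, t c ∈ I := by
    intro c
    rw [← htI]
    exact mem_image_of_mem t (mem_univ c)
  refine ⟨Fin.cons l₀ t, ?_, ?_⟩
  · rw [Fin.cons_injective_iff]
    refine ⟨?_, ht⟩
    rintro ⟨c, hc⟩
    exact hl₀ (hc ▸ hmem c)
  · intro l hl
    have hlI : l ∉ I := by
      intro h
      rw [← htI, mem_image] at h
      obtain ⟨c, -, hc⟩ := h
      apply hl c
      rw [Fin.cons_succ, hc]
    obtain ⟨u, hu, huI⟩ := exists_enum (N := M + 1) (insert l I) (by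
      rw [Finset.card_insert_of_notMem hlI, hI])
    refine nm_bound (by omega) (s := u) (g.d u hu).1 fun a => ?_
    have h1 : u a ∈ insert l I := by
      rw [← huI]
      exact mem_image_of_mem u (mem_univ a)
    rcases mem_insert.1 h1 with h2 | h2
    · rw [h2]
    · exact hmax' _ h2 l hlI

theorem upper (g : GP L Θ H) {κ : ℝ} (hκ0 : 0 ≤ κ) (hκ1 : κ ≤ 1) {Cc : ℝ} (hCc : 1 ≤ Cc)
    {δ : ℝ} (hδ : 0 < δ) :
    ∃ C : ℝ, 0 < C ∧ ∀ B : ℕ, 1 ≤ B → ∀ T : Finset (Fin (M + 1) → ℤ), (∀ x ∈ T, Cont 1 x ∧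
      nm x ≤ B ∧ (∀ l, dot x (L l) ≠ 0) ∧
      (PP.rd (∏ l, (dot x (L l)).natAbs) : ℝ) ≤ Cc * (nm x : ℝ) ^ ((q : ℝ) - κ)) →
      (T.card : ℝ) ≤ C * (B : ℝ) ^ ((M : ℝ) + 1 - κ + δ) := by
  classical
  have hN3 := g.N3
  have hqN := g.qN
  have hH := g.H1
  have hδ2 : 0 < δ / 2 := half_pos hδ
  have hM1 : (0 : ℝ) < (M : ℝ) + 1 := by positivity
  have hδ6 : 0 < δ / 2 / ((M : ℝ) + 1) := by positivity
  have hbox : ∀ s : Fin (M + 1) → Fin q, ∃ C : ℝ, 0 < C ∧ (Function.Injective s →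
      ∀ (n : ℕ) (a : Fin M → ℕ), ∀ T : Finset (Fin (M + 1) → ℤ),
      (∀ x ∈ T, Cont 1 x ∧ 2 ^ n ≤ nm x ∧ nm x < 2 ^ (n + 1) ∧
      (∀ c : Fin M, 2 ^ a c ≤ (dot x (L (s c.succ))).natAbs) ∧
      (∀ c : Fin M, (dot x (L (s c.succ))).natAbs < 2 ^ (a c + 1)) ∧
      (∀ l, (∀ c : Fin M, l ≠ s c.succ) → nm x ≤ EE L * (dot x (L l)).natAbs) ∧
      (∀ l, dot x (L l) ≠ 0) ∧
      (PP.rd (∏ l, (dot x (L l)).natAbs) : ℝ) ≤ Cc * (nm x : ℝ) ^ ((q : ℝ) - κ)) →
      (T.card : ℝ) ≤ C * ((2 : ℝ) ^ n) ^ ((M : ℝ) + 1 - κ + δ / 2)) := by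
    intro s
    by_cases hs : Function.Injective s
    · obtain ⟨C, hC0, hC⟩ := boxcount g (EE_pos L) hκ0 hκ1 hCc hs hδ2
      exact ⟨C, hC0, fun _ => hC⟩
    · exact ⟨1, one_pos, fun h => absurd h hs⟩
  choose Cs hCs0 hCs using hbox
  set C₀ : ℝ := ∑ s, Cs s with hC₀
  have hCsle : ∀ s, Cs s ≤ C₀ := fun s =>
    Finset.single_le_sum (f := Cs) (fun s _ => (hCs0 s).le) (mem_univ s)
  have hC₀0 : 0 < C₀ := by
    have h0 : (0 : ℕ) < q := by omega
    exact lt_of_lt_of_le (hCs0 fun _ => ⟨0, h0⟩) (hCsle _)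
  obtain ⟨C₁, hC₁0, hC₁⟩ := PP.log_le_pow hδ6
  obtain ⟨F, hF⟩ : ∃ F : ℕ, F = (M + 1) * H := ⟨_, rfl⟩
  have hF1 : 1 ≤ F := by
    rw [hF]
    have : 0 < (M + 1) * H := by positivity
    exact this
  have hq0 : (0 : ℝ) < q := by exact_mod_cast (by omega : 0 < q)
  refine ⟨(q : ℝ) ^ (M + 1) * (C₁ * (C₁ * (F : ℝ) ^ (δ / 2 / ((M : ℝ) + 1))) ^ M) * C₀,
    by positivity, fun B hB T hT => ?_⟩
  have hB1 : (1 : ℝ) ≤ B := by exact_mod_cast hB
  have hB0 : (0 : ℝ) < B := by linarith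
  -- the smallest forms
  choose s hs1 hs2 using exists_small g
  set key : (Fin (M + 1) → ℤ) → (Fin (M + 1) → Fin q) × ℕ × (Fin M → ℕ) := fun x =>
    (s x, Nat.log 2 (nm x), fun c => Nat.log 2 (dot x (L (s x c.succ))).natAbs) with hkey
  set KS : Finset ((Fin (M + 1) → Fin q) × ℕ × (Fin M → ℕ)) :=
    univ ×ˢ range (Nat.log 2 B + 1) ×ˢ
      Fintype.piFinset (fun _ : Fin M => range (Nat.log 2 (F * B) + 1)) with hKS
  have hmaps : ∀ x ∈ T, key x ∈ KS := by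
    intro x hx
    have h1 := (hT x hx).2.1
    have h2 : ∀ l, (dot x (L l)).natAbs ≤ F * B := by
      intro l
      rw [hF]
      exact (dot_le g (abs_le_nm x) l).trans (Nat.mul_le_mul_left _ h1)
    rw [hKS, mem_product, mem_product, mem_range, Fintype.mem_piFinset]
    refine ⟨mem_univ _, ?_, fun c => ?_⟩
    · have := Nat.log_mono_right (b := 2) h1
      simp only [hkey]
      omega
    · rw [mem_range]
      have := Nat.log_mono_right (b := 2) (h2 (s x c.succ))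
      simp only [hkey]
      omega
  have hfib : ∀ k ∈ KS, ((T.filter fun x => key x = k).card : ℝ) ≤
      C₀ * (B : ℝ) ^ ((M : ℝ) + 1 - κ + δ / 2) := by
    rintro ⟨s0, n, a⟩ -
    rcases (T.filter fun x => key x = (s0, n, a)).eq_empty_or_nonempty with h0 | ⟨x0, hx0⟩
    · rw [h0, Finset.card_empty, Nat.cast_zero]
      positivity
    have hmem : ∀ x ∈ T.filter (fun x => key x = (s0, n, a)), x ∈ T ∧ s x = s0 ∧
        Nat.log 2 (nm x) = n ∧ ∀ c : Fin M, Nat.log 2 (dot x (L (s0 c.succ))).natAbs = a c := by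
      intro x hx
      rw [mem_filter] at hx
      obtain ⟨hx1, hx2⟩ := hx
      simp only [hkey, Prod.mk.injEq] at hx2
      obtain ⟨h1, h2, h3⟩ := hx2
      refine ⟨hx1, h1, h2, fun c => ?_⟩
      have h4 := congrFun h3 c
      rw [← h4, ← h1]
    have hinj : Function.Injective s0 := by
      obtain ⟨h1, h2, -⟩ := hmem x0 hx0
      rw [← h2]
      exact hs1 x0
    have h1 := hCs s0 hinj n a (T.filter fun x => key x = (s0, n, a)) (by
      intro x hx
      obtain ⟨h1, h2, h3, h4⟩ := hmem x hx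
      obtain ⟨t1, t2, t3, t4⟩ := hT x h1
      have hnm : nm x ≠ 0 := by have := nm_pos t1.1; omega
      have hd1 : ∀ l, (dot x (L l)).natAbs ≠ 0 := fun l => by simpa using t3 l
      refine ⟨t1, ?_, ?_, fun c => ?_, fun c => ?_, ?_, t3, t4⟩
      · rw [← h3]; exact Nat.pow_log_le_self 2 hnm
      · rw [← h3]; exact Nat.lt_pow_succ_log_self (by norm_num) _
      · rw [← h4 c]; exact Nat.pow_log_le_self 2 (hd1 _)
      · rw [← h4 c]; exact Nat.lt_pow_succ_log_self (by norm_num) _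
      · rw [← h2]; exact hs2 x)
    refine h1.trans ?_
    obtain ⟨h2, -, h3, -⟩ := hmem x0 hx0
    have hnB : ((2 : ℝ) ^ n) ≤ B := by
      have h4 : 2 ^ n ≤ nm x0 := by
        rw [← h3]
        exact Nat.pow_log_le_self 2 (by have := nm_pos (hT x0 h2).1.1; omega)
      exact_mod_cast h4.trans (hT x0 h2).2.1
    refine mul_le_mul (hCsle s0) ?_ (by positivity) hC₀0.le
    refine Real.rpow_le_rpow (by positivity) hnB ?_
    have : (0 : ℝ) ≤ M := Nat.cast_nonneg M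
    linarith
  have hcard : T.card = ∑ k ∈ KS, (T.filter fun x => key x = k).card :=
    Finset.card_eq_sum_card_fiberwise hmaps
  rw [hcard, Nat.cast_sum]
  set η : ℝ := δ / 2 / ((M : ℝ) + 1) with hη
  calc ∑ k ∈ KS, ((T.filter fun x => key x = k).card : ℝ) ≤
        ∑ k ∈ KS, C₀ * (B : ℝ) ^ ((M : ℝ) + 1 - κ + δ / 2) := Finset.sum_le_sum hfib
    _ = (KS.card : ℝ) * (C₀ * (B : ℝ) ^ ((M : ℝ) + 1 - κ + δ / 2)) := by
        rw [Finset.sum_const, nsmul_eq_mul]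
    _ ≤ ((q : ℝ) ^ (M + 1) * ((C₁ * (B : ℝ) ^ η) * (C₁ * (F : ℝ) ^ η * (B : ℝ) ^ η) ^ M)) *
        (C₀ * (B : ℝ) ^ ((M : ℝ) + 1 - κ + δ / 2)) := by
        refine mul_le_mul_of_nonneg_right ?_ (by positivity)
        have e1 : (KS.card : ℝ) = (q : ℝ) ^ (M + 1) * (((Nat.log 2 B + 1 : ℕ) : ℝ) *
            ((Nat.log 2 (F * B) + 1 : ℕ) : ℝ) ^ M) := by
          rw [hKS, Finset.card_product, Finset.card_product, Fintype.card_piFinset, card_range,
            Finset.card_univ, Fintype.card_fun, Fintype.card_fin, Fintype.card_fin]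
          simp only [card_range, Finset.prod_const, Finset.card_univ, Fintype.card_fin]
          push_cast
          ring
        have e2 := hC₁ B hB
        have e3 := hC₁ (F * B) (Nat.mul_pos hF1 hB)
        have e4 : ((F * B : ℕ) : ℝ) ^ η = (F : ℝ) ^ η * (B : ℝ) ^ η := by
          rw [← Real.mul_rpow (Nat.cast_nonneg _) hB0.le]
          push_cast
          rfl
        rw [e4, ← mul_assoc] at e3
        rw [e1]
        refine mul_le_mul_of_nonneg_left ?_ (by positivity)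
        refine mul_le_mul e2 ?_ (by positivity) (by positivity)
        exact pow_le_pow_left₀ (Nat.cast_nonneg _) e3 M
    _ = ((q : ℝ) ^ (M + 1) * (C₁ * (C₁ * (F : ℝ) ^ η) ^ M) * C₀) *
        (((B : ℝ) ^ η * ((B : ℝ) ^ η) ^ M) * (B : ℝ) ^ ((M : ℝ) + 1 - κ + δ / 2)) := by
        rw [mul_pow (C₁ * (F : ℝ) ^ η) ((B : ℝ) ^ η) M]
        ring
    _ = _ := by
        rw [← pow_succ', ← Real.rpow_natCast ((B : ℝ) ^ η) (M + 1), ← Real.rpow_mul hB0.le,
          ← Real.rpow_add hB0]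
        congr 2
        rw [hη]
        push_cast
        field_simp
        ring

end Pool.Agent.K4H9.PN
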