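import Pool.Agent.K4H9.PN.Sum
import Pool.Agent.K4H9.PP.Val

set_option autoImplicit false

/-!
The determinant of vectors of the lattice and the product of the divisors.
-/

namespace Pool.Agent.K4H9.PN

open Finset

variable {N q : ℕ} {ℓ : Fin q → Fin N → ℤ} {Θ H : ℕ}

lemma rows_dvd {r : ℕ} {d : Fin r → ℤ} {M : Fin r → Fin r → ℤ} (h : ∀ a b, d a ∣ M a b) :
    ∏ a, d a ∣ (Matrix.of M).det := by
  choose W hW using h
  have h1 : Matrix.of M = Matrix.of fun a b => d a * (Matrix.of W) a b := by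
    ext a b
    simp only [Matrix.of_apply]
    exact hW a b
  rw [h1, Matrix.det_mul_column]
  exact Dvd.intro _ rfl

lemma det_dot (A u : Fin N → Fin N → ℤ) :
    (Matrix.of A).det * (Matrix.of u).det = (Matrix.of fun a b => dot (u b) (A a)).det := by
  rw [← Matrix.det_transpose (Matrix.of u), ← Matrix.det_mul]
  congr 1
  ext a b
  rw [Matrix.mul_apply]
  simp only [Matrix.of_apply, Matrix.transpose_apply]
  unfold dot
  exact Finset.sum_congr rfl fun k _ => mul_comm _ _

/-- an enumeration of a set of indices -/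
lemma exists_enum (I : Finset (Fin q)) (hI : I.card = N) :
    ∃ s : Fin N → Fin q, Function.Injective s ∧ univ.image s = I := by
  classical
  refine ⟨fun a => I.orderEmbOfFin hI a, (I.orderEmbOfFin hI).injective, ?_⟩
  ext x
  rw [mem_image]
  constructor
  · rintro ⟨a, -, rfl⟩
    exact I.orderEmbOfFin_mem hI a
  · intro hx
    have h2 : x ∈ Set.range (I.orderEmbOfFin hI) := by
      rw [Finset.range_orderEmbOfFin]
      exact hx
    obtain ⟨b, hb⟩ := h2
    exact ⟨b, mem_univ _, hb⟩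

lemma cont_dvd {c : ℕ} {z : Fin N → ℤ} (hz : Cont c z) {m D : ℤ} (h : ∀ k, m ∣ D * z k) :
    m ∣ D * c := by
  obtain ⟨e, D', -, heD, hDz⟩ := bezout z hz.1
  have hDc : D' ∣ (c : ℤ) := hz.2 D' hDz
  have h4 : m ∣ D * D' := by
    rw [← heD]
    unfold dot
    rw [Finset.mul_sum]
    refine Finset.dvd_sum fun k _ => ?_
    have : D * (e k * z k) = e k * (D * z k) := by ring
    rw [this]
    exact Dvd.dvd.mul_left (h k) _
  exact h4.trans (mul_dvd_mul_left _ hDc)

/-- the product of the tuple divides the determinant -/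
lemma prod_dvd (g : GP ℓ Θ H) {c : ℕ} (hc : 1 ≤ c) {m : Fin q → ℕ} (hm0 : ∏ l, m l ≠ 0)
    {T : Set (Fin N → ℤ)} (hT : ∀ z ∈ T, ∀ l, (m l : ℤ) ∣ dot z (ℓ l)) {z₀ : Fin N → ℤ}
    (hz₀ : z₀ ∈ T) (hz₀c : Cont c z₀) {u : Fin N → Fin N → ℤ}
    (hu : ∀ a, u a ∈ Submodule.span ℤ T) (hD : (Matrix.of u).det ≠ 0) :
    ∏ l, m l ∣ (Θ * c) ^ q * (Matrix.of u).det.natAbs := by
  classical
  have hΘ := g.Θ1
  have hN3 := g.N3
  have hqN := g.qN
  set n := (Θ * c) ^ q * (Matrix.of u).det.natAbs with hn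
  have hn0 : n ≠ 0 := by
    have : (Matrix.of u).det.natAbs ≠ 0 := by simpa using hD
    positivity
  rw [← Nat.factorization_prime_le_iff_dvd hm0 hn0]
  intro p hp
  rw [← hp.pow_dvd_iff_le_factorization hn0]
  have hml0 : ∀ l, m l ≠ 0 := fun l h0 => hm0 (Finset.prod_eq_zero (mem_univ l) h0)
  set a : Fin q → ℕ := fun l => (m l).factorization p with ha
  have hfac : (∏ l, m l).factorization p = ∑ l, a l := by
    rw [Nat.factorization_prod fun l _ => hml0 l, Finset.sum_apply']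
  rw [hfac, ← Finset.prod_pow_eq_pow_sum]
  have hpa : ∀ l, p ^ a l ∣ m l := fun l => Nat.ordProj_dvd (m l) p
  obtain ⟨I, hI, hmax⟩ := exists_top a (N - 1) (by omega)
  have hspan : ∀ l, ∀ x ∈ Submodule.span ℤ T, (m l : ℤ) ∣ dot x (ℓ l) := fun l =>
    span_dot fun z hz => hT z hz l
  have henum : ∀ l, l ∉ I → ∃ s : Fin N → Fin q, Function.Injective s ∧
      univ.image s = insert l I := by
    intro l hl
    refine exists_enum (insert l I) ?_
    rw [Finset.card_insert_of_notMem hl, hI]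
    omega
  -- the small exponents
  have hsmall : ∀ l ∈ univ \ I, p ^ a l ∣ Θ * c := by
    intro l hl
    have hlI : l ∉ I := (mem_sdiff.1 hl).2
    obtain ⟨s, hs, hsI⟩ := henum l hlI
    have h1 : ∀ b, a l ≤ a (s b) := by
      intro b
      have h2 : s b ∈ insert l I := by
        rw [← hsI]
        exact mem_image_of_mem s (mem_univ b)
      rcases mem_insert.1 h2 with h3 | h3
      · rw [h3]
      · exact hmax _ h3 l hlI
    have hd : ∀ b, ((p ^ a l : ℕ) : ℤ) ∣ dot z₀ (ℓ (s b)) := by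
      intro b
      have h3 : p ^ a l ∣ m (s b) := (pow_dvd_pow p (h1 b)).trans (hpa _)
      exact (Int.natCast_dvd_natCast.2 h3).trans (hT z₀ hz₀ (s b))
    have h4 := cont_dvd hz₀c (cramer_dvd (fun b => ℓ (s b)) z₀ hd)
    have h5 : ((p ^ a l : ℕ) : ℤ) ∣ ((Θ * c : ℕ) : ℤ) := by
      push_cast
      push_cast at h4
      exact h4.trans (mul_dvd_mul_right (g.d s hs).2 _)
    exact_mod_cast h5
  -- the large exponents
  obtain ⟨l₀, hl₀⟩ : ∃ l₀, l₀ ∉ I := by
    by_contra hcon
    push Not at hcon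
    have : I = univ := Finset.eq_univ_iff_forall.2 hcon
    rw [this, Finset.card_univ, Fintype.card_fin] at hI
    omega
  obtain ⟨s, hs, hsI⟩ := henum l₀ hl₀
  have hlarge : ∏ l ∈ I, p ^ a l ∣ Θ * (Matrix.of u).det.natAbs := by
    set f : Fin q → ℕ := fun x => if x ∈ I then p ^ a x else 1 with hf
    have h1 : ∏ b, ((f (s b) : ℕ) : ℤ) ∣ (Matrix.of fun b e => dot (u e) (ℓ (s b))).det := by
      refine rows_dvd fun b e => ?_
      rw [hf]
      simp only
      split_ifs with hb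
      · exact (Int.natCast_dvd_natCast.2 (hpa _)).trans (hspan (s b) (u e) (hu e))
      · exact one_dvd _
    rw [← det_dot (fun b => ℓ (s b)) u] at h1
    have h2 : ∏ b, f (s b) = ∏ l ∈ I, p ^ a l := by
      rw [← Finset.prod_image (s := univ) (g := s) (f := f) hs.injOn, hsI,
        Finset.prod_insert hl₀]
      have h3 : f l₀ = 1 := by
        rw [hf]
        simp [hl₀]
      rw [h3, one_mul]
      refine Finset.prod_congr rfl fun x hx => ?_
      rw [hf]
      simp [hx]
    have h3 : ((∏ l ∈ I, p ^ a l : ℕ) : ℤ) ∣ ((Θ * (Matrix.of u).det.natAbs : ℕ) : ℤ) := by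
      rw [← h2]
      rw [Nat.cast_prod]
      refine h1.trans ?_
      rw [Nat.cast_mul]
      exact mul_dvd_mul (g.d s hs).2 Int.dvd_natAbs_self
    exact_mod_cast h3
  have hrest : ∏ x ∈ univ \ I, p ^ a x ∣ (Θ * c) ^ (q - (N - 1)) := by
    have hcard : (univ \ I).card = q - (N - 1) := by
      rw [Finset.card_sdiff_of_subset (subset_univ I), Finset.card_univ, Fintype.card_fin, hI]
    rw [← hcard, ← Finset.prod_const]
    exact Finset.prod_dvd_prod_of_dvd _ _ hsmall
  have hsp : ∏ l, p ^ a l = (∏ l ∈ univ \ I, p ^ a l) * ∏ l ∈ I, p ^ a l :=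
    (Finset.prod_sdiff (subset_univ I)).symm
  rw [hsp]
  refine (mul_dvd_mul hrest hlarge).trans ?_
  rw [hn]
  have e1 : (Θ * c) ^ q = (Θ * c) ^ (q - (N - 1)) * ((Θ * c) ^ (N - 2) * (Θ * c)) := by
    rw [← pow_succ, ← pow_add]
    congr 1
    omega
  rw [e1]
  exact ⟨(Θ * c) ^ (N - 2) * c, by ring⟩

end Pool.Agent.K4H9.PN
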