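import Pool.Agent.K4H9.PN.Val

set_option autoImplicit false

/-!
The number of integer points in a box at which the product of the linear forms is much larger than
its radical.
-/

namespace Pool.Agent.K4H9.PN

open Finset

variable {N q : ℕ} {ℓ : Fin q → Fin N → ℤ} {Θ H : ℕ}

/-- the normal vector -/
def nv {M : ℕ} (v : Fin M → Fin (M + 1) → ℤ) : Fin (M + 1) → ℤ := fun k =>
  (-1) ^ (k : ℕ) * mnr v k.succAbove

lemma dot_nv {M : ℕ} (v : Fin M → Fin (M + 1) → ℤ) (x : Fin (M + 1) → ℤ) :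
    dot x (nv v) = (Matrix.of (Fin.cons x v : Fin (M + 1) → Fin (M + 1) → ℤ)).det := by
  rw [Matrix.det_succ_row_zero]
  unfold dot nv mnr
  refine Finset.sum_congr rfl fun k _ => ?_
  have h1 : (Matrix.of (Fin.cons x v : Fin (M + 1) → Fin (M + 1) → ℤ)).submatrix Fin.succ
      k.succAbove = Matrix.of fun a c => v a (k.succAbove c) := by
    ext a c
    simp
  rw [h1]
  simp only [Matrix.of_apply, Fin.cons_zero]
  ring

lemma dot_nv_self {M : ℕ} (v : Fin M → Fin (M + 1) → ℤ) (a : Fin M) : dot (v a) (nv v) = 0 := by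
  rw [dot_nv]
  refine Matrix.det_zero_of_row_eq (i := 0) (j := a.succ) (Fin.succ_ne_zero a).symm ?_
  ext c
  simp

lemma natAbs_nv {M : ℕ} (v : Fin M → Fin (M + 1) → ℤ) (k : Fin (M + 1)) :
    (nv v k).natAbs = (mnr v k.succAbove).natAbs := by
  unfold nv
  rw [Int.natAbs_mul, Int.natAbs_pow]
  simp

lemma mnr_inj {r : ℕ} {v : Fin r → Fin N → ℤ} {J : Fin r → Fin N} (h : mnr v J ≠ 0) :
    Function.Injective J := by
  intro a b hab
  by_contra hne
  refine h (Matrix.det_zero_of_column_eq hne fun i => ?_)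
  simp [hab]

lemma nv_ne_zero {M : ℕ} {v : Fin M → Fin (M + 1) → ℤ} (h : LinearIndependent ℤ v) :
    nv v ≠ 0 := by
  classical
  obtain ⟨J, hJ⟩ := exists_minor h
  have hJi := mnr_inj hJ
  obtain ⟨k, hk⟩ : ∃ k, ∀ a, J a ≠ k := by
    by_contra hcon
    push Not at hcon
    have h1 : Function.Surjective J := fun k => hcon k
    have h2 := Fintype.card_le_of_surjective J h1
    simp at h2
  have h3 : ∀ a, ∃ b, k.succAbove b = J a := fun a => Fin.exists_succAbove_eq (hk a)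
  choose σ hσ using h3
  have hσi : Function.Injective σ := fun a b hab => hJi (by rw [← hσ a, ← hσ b, hab])
  set e : Equiv.Perm (Fin M) := Equiv.ofBijective σ (Finite.injective_iff_bijective.1 hσi) with he
  have h4 : mnr v J = ((Equiv.Perm.sign e : ℤ) : ℤ) * mnr v k.succAbove := by
    have h5 := Matrix.det_permute' e (Matrix.of fun a c => v a (k.succAbove c))
    have h6 : (Matrix.of fun a c => v a (k.succAbove c)).submatrix id e =
        Matrix.of fun a c => v a (J c) := by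
      ext a c
      simp [he, hσ]
    rw [h6, Int.cast_id] at h5
    exact h5
  intro h0
  have h5 := congrFun h0 k
  have h6 := natAbs_nv v k
  rw [h5] at h6
  apply hJ
  rw [h4]
  have h7 : mnr v k.succAbove = 0 := by
    simpa using h6.symm
  rw [h7, mul_zero]

lemma dot_sum {r : ℕ} (v : Fin r → Fin N → ℤ) (c : Fin r → ℤ) (W : Fin N → ℤ) :
    dot (∑ a, c a • v a) W = ∑ a, c a * dot (v a) W := by
  unfold dot
  simp only [Finset.sum_apply, Pi.smul_apply, smul_eq_mul, Finset.sum_mul, Finset.mul_sum]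
  rw [Finset.sum_comm]
  exact Finset.sum_congr rfl fun a _ => Finset.sum_congr rfl fun k _ => by ring

lemma exists_big_minor {r : ℕ} {v : Fin r → Fin N → ℤ} (hli : LinearIndependent ℤ v)
    {L : Fin N → ℤ} (hH : ∀ k, |L k| ≤ H) {p : ℕ} (hd : ∀ a, (p : ℤ) ∣ dot (v a) L) {a₀ : Fin r}
    (ha₀ : dot (v a₀) L ≠ 0) : ∃ J : Fin r → Fin N, p ≤ N * H * (mnr v J).natAbs := by
  classical
  obtain ⟨J₀, hJ₀⟩ := exists_minor hli
  set A : Matrix (Fin r) (Fin r) ℤ := Matrix.of fun a c => v a (J₀ c) with hA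
  set d : Fin r → ℤ := fun a => dot (v a) L with hdd
  have h1 : ∃ c, A.cramer d c ≠ 0 := by
    by_contra hcon
    push Not at hcon
    have h2 : A.cramer d = 0 := funext hcon
    have h3 : A.mulVec (A.cramer d) = A.det • d := Matrix.mulVec_cramer A d
    rw [h2, Matrix.mulVec_zero] at h3
    have h4 := congrFun h3 a₀
    rw [Pi.zero_apply, Pi.smul_apply, smul_eq_mul] at h4
    rcases mul_eq_zero.1 h4.symm with h5 | h5
    · exact hJ₀ h5
    · exact ha₀ h5
  obtain ⟨c, hc⟩ := h1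
  have h2 : A.cramer d c = ∑ k, L k * mnr v (Function.update J₀ c k) := by
    have h3 : d = ∑ k, L k • (fun a => v a k) := by
      funext a
      rw [Finset.sum_apply]
      simp only [hdd, dot, Pi.smul_apply, smul_eq_mul]
      exact Finset.sum_congr rfl fun k _ => mul_comm _ _
    rw [h3, map_sum, Finset.sum_apply]
    refine Finset.sum_congr rfl fun k _ => ?_
    rw [map_smul, Pi.smul_apply, smul_eq_mul, Matrix.cramer_apply]
    congr 1
    unfold mnr
    congr 1
    ext a e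
    rw [Matrix.updateCol_apply, Matrix.of_apply]
    by_cases he : e = c
    · subst he
      simp
    · rw [if_neg he, Function.update_of_ne he]
      rfl
  have h3 : (p : ℤ) ∣ A.cramer d c := by
    choose d' hd' using hd
    have h4 : d = (p : ℤ) • d' := funext fun a => hd' a
    rw [h4, map_smul, Pi.smul_apply, smul_eq_mul]
    exact Dvd.intro _ rfl
  have hN : (univ : Finset (Fin N)).Nonempty := by
    rw [Finset.univ_nonempty_iff]
    by_contra hcon
    rw [not_nonempty_iff] at hcon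
    apply ha₀
    unfold dot
    exact Finset.sum_of_isEmpty _
  obtain ⟨k₀, -, hk₀⟩ := Finset.exists_max_image univ
    (fun k => (mnr v (Function.update J₀ c k)).natAbs) hN
  refine ⟨Function.update J₀ c k₀, ?_⟩
  have h4 : p ≤ (A.cramer d c).natAbs := by
    refine Nat.le_of_dvd (by omega) ?_
    exact Int.natCast_dvd.1 h3
  refine h4.trans ?_
  rw [h2]
  calc (∑ k, L k * mnr v (Function.update J₀ c k)).natAbs ≤
        ∑ k, (L k * mnr v (Function.update J₀ c k)).natAbs := Int.natAbs_sum_le _ _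
    _ ≤ ∑ _k : Fin N, H * (mnr v (Function.update J₀ c k₀)).natAbs := by
        refine Finset.sum_le_sum fun k hk => ?_
        rw [Int.natAbs_mul]
        refine Nat.mul_le_mul ?_ (hk₀ k hk)
        have := hH k
        rw [Int.abs_eq_natAbs] at this
        exact_mod_cast this
    _ = _ := by
        rw [Finset.sum_const, Finset.card_univ, Fintype.card_fin, smul_eq_mul]
        ring

lemma dot_le (g : GP ℓ Θ H) {z : Fin N → ℤ} {B : ℕ} (hz : ∀ k, |z k| ≤ B) (l : Fin q) :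
    (dot z (ℓ l)).natAbs ≤ N * H * B := by
  have h1 := dot_abs hz (g.bd l)
  rw [Int.abs_eq_natAbs] at h1
  exact_mod_cast h1

lemma prod_b_le {r B : ℕ} {b : Fin N → ℕ} (hb : ∀ j, 1 ≤ b j ∧ b j ≤ B) (J : Fin r → Fin N) :
    ∏ c, b (J c) ≤ B ^ r := by
  calc ∏ c, b (J c) ≤ ∏ _c : Fin r, B := Finset.prod_le_prod' fun c _ => (hb _).2
    _ = B ^ r := by simp

/-- the hyperplane of a set of rank one less than the dimension -/
lemma hyp {M : ℕ} {ℓ : Fin q → Fin (M + 1) → ℤ} (g : GP ℓ Θ H) {B : ℕ} {b : Fin (M + 1) → ℕ}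
    (hb : ∀ j, 1 ≤ b j ∧ b j ≤ B) {m : Fin q → ℕ}
    (T : Finset (Fin (M + 1) → ℤ)) (hTne : T.Nonempty)
    (hT : ∀ z ∈ T, (∀ l, dot z (ℓ l) ≠ 0) ∧ ∀ l, (m l : ℤ) ∣ dot z (ℓ l))
    (v : Fin M → Fin (M + 1) → ℤ) (hv : ∀ a, v a ∈ Submodule.span ℤ (T : Set (Fin (M + 1) → ℤ)))
    (hli : LinearIndependent ℤ v) (hsum : ∀ z ∈ T, ∃ c : Fin M → ℤ, z = ∑ a, c a • v a)
    (hcard : ∀ J : Fin M → Fin (M + 1), T.card * (mnr v J).natAbs ≤ CN (M + 1) * ∏ c, b (J c)) :
    ∃ V : Fin (M + 1) → ℤ, V ≠ 0 ∧ (∀ l, ∃ i j, mn V (ℓ l) i j ≠ 0) ∧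
      (∀ l i j, (m l : ℤ) ∣ Θ * mn V (ℓ l) i j) ∧ T.card * nm V ≤ CN (M + 1) * B ^ M := by
  classical
  have hV0 := nv_ne_zero hli
  refine ⟨nv v, hV0, ?_, ?_, ?_⟩
  · intro l
    by_contra hcon
    push Not at hcon
    obtain ⟨z, hz⟩ := hTne
    obtain ⟨i, hi⟩ : ∃ i, nv v i ≠ 0 := by
      by_contra h
      push Not at h
      exact hV0 (funext h)
    apply (hT z hz).1 l
    obtain ⟨c, hc⟩ := hsum z hz
    have h1 : dot z (nv v) = 0 := by
      rw [hc, dot_sum]
      refine Finset.sum_eq_zero fun a _ => ?_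
      rw [dot_nv_self, mul_zero]
    have h2 : nv v i * dot z (ℓ l) = ℓ l i * dot z (nv v) := by
      unfold dot
      rw [Finset.mul_sum, Finset.mul_sum]
      refine Finset.sum_congr rfl fun j _ => ?_
      have := hcon i j
      unfold mn at this
      linear_combination z j * this
    rw [h1, mul_zero] at h2
    exact (mul_eq_zero.1 h2).resolve_left hi
  · intro l i j
    obtain ⟨k, -, hk⟩ := g.l l
    set x : Fin (M + 1) → ℤ := fun e => ℓ l j * (Pi.single i 1 : Fin (M + 1) → ℤ) e -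
      ℓ l i * (Pi.single j 1 : Fin (M + 1) → ℤ) e with hx
    have hdx : ∀ y : Fin (M + 1) → ℤ, dot x y = ℓ l j * y i - ℓ l i * y j := by
      intro y
      unfold dot
      rw [hx]
      simp only [sub_mul, Finset.sum_sub_distrib]
      congr 1
      · rw [Finset.sum_eq_single i]
        · simp
        · intro e _ he
          simp [Pi.single_eq_of_ne he]
        · simp
      · rw [Finset.sum_eq_single j]
        · simp
        · intro e _ he
          simp [Pi.single_eq_of_ne he]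
        · simp
    have h1 : mn (nv v) (ℓ l) i j =
        (Matrix.of (Fin.cons x v : Fin (M + 1) → Fin (M + 1) → ℤ)).det := by
      rw [← dot_nv, hdx]
      unfold mn
      ring
    have hspan := span_dot (T := (T : Set (Fin (M + 1) → ℤ))) (W := ℓ l) (m := (m l : ℤ))
      fun z hz => (hT z hz).2 l
    have h2 := cramer_dvd (m := (m l : ℤ)) (Fin.cons x v : Fin (M + 1) → Fin (M + 1) → ℤ) (ℓ l) (by
      intro a
      refine Fin.cases ?_ (fun a => ?_) a
      · rw [Fin.cons_zero, dot_comm, hdx]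
        have : ℓ l j * ℓ l i - ℓ l i * ℓ l j = 0 := by ring
        rw [this]
        exact dvd_zero _
      · rw [Fin.cons_succ, dot_comm]
        exact hspan _ (hv a)) k
    rw [h1]
    refine h2.trans ?_
    rw [mul_comm (Θ : ℤ)]
    exact mul_dvd_mul_left _ hk
  · obtain ⟨k, hk⟩ := exists_nm (by omega) (nv v)
    rw [← hk, natAbs_nv]
    exact (hcard _).trans (Nat.mul_le_mul_left _ (prod_b_le hb _))

/-- the constant of the fibres -/
def AF (N q Θ H c : ℕ) : ℕ := CN N * (1 + N * H + (Θ * c) ^ q)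

/-- one tuple -/
lemma fibre (g : GP ℓ Θ H) {c : ℕ} (hc : 1 ≤ c) {B : ℕ} (hB : 1 ≤ B) {b : Fin N → ℕ}
    (hb : ∀ j, 1 ≤ b j ∧ b j ≤ B) {K : ℝ} (hK : 1 ≤ K)
    (hKb : K * (B : ℝ) ^ (N - 1) ≤ ((∏ j, b j : ℕ) : ℝ)) {m : Fin q → ℕ} (hm0 : ∏ l, m l ≠ 0)
    (hm1 : K * (PP.rd (∏ l, m l) : ℝ) ≤ ((∏ l, m l : ℕ) : ℝ))
    (hm2 : ∀ p : ℕ, p.Prime → p ∣ ∏ l, m l → (PP.rd (∏ l, m l) : ℝ) ≤ K * p)
    (T : Finset (Fin N → ℤ)) (hTne : T.Nonempty)
    (hT : ∀ z ∈ T, Cont c z ∧ (∀ k, |z k| ≤ b k) ∧ (∀ l, dot z (ℓ l) ≠ 0) ∧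
      ∀ l, (m l : ℤ) ∣ dot z (ℓ l)) :
    (T.card : ℝ) ≤ (AF N q Θ H c : ℝ) *
        (((∏ j, b j : ℕ) : ℝ) / K * (1 / (PP.rd (∏ l, m l) : ℝ))) ∨
    ∃ V : Fin N → ℤ, V ≠ 0 ∧ (∀ l, ∃ i j, mn V (ℓ l) i j ≠ 0) ∧
      (∀ l i j, (m l : ℤ) ∣ Θ * mn V (ℓ l) i j) ∧
      nm V < PP.rd (∏ l, m l) ∧ T.card * nm V ≤ CN N * B ^ (N - 1) := by
  classical
  have hN3 := g.N3
  have hH1 := g.H1
  have hΘ1 := g.Θ1
  obtain ⟨M, rfl⟩ : ∃ M, N = M + 1 := ⟨N - 1, by omega⟩
  rw [Nat.add_sub_cancel] at hKb ⊢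
  set P := ∏ l, m l with hP
  set R := PP.rd P with hR
  set β : ℝ := ((∏ j, b j : ℕ) : ℝ) with hβ
  have hR0 : (0 : ℝ) < R := by exact_mod_cast PP.rd_pos P
  have hB1 : (1 : ℝ) ≤ B := by exact_mod_cast hB
  have hB0 : (0 : ℝ) < B := by linarith
  have hK0 : 0 < K := by linarith
  have hBK : (B : ℝ) ^ M ≤ β / K := by
    rw [le_div_iff₀ hK0]
    linarith
  have hβ0 : 0 < β / K := lt_of_lt_of_le (by positivity) hBK
  have hKB : K ≤ B := by
    have h1 : ∏ j, b j ≤ B ^ (M + 1) := prod_b_le hb (fun j => j)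
    have h2 : β ≤ (B : ℝ) ^ (M + 1) := by rw [hβ]; exact_mod_cast h1
    have h3 : K * (B : ℝ) ^ M ≤ B * (B : ℝ) ^ M := by
      calc K * (B : ℝ) ^ M ≤ β := hKb
        _ ≤ (B : ℝ) ^ (M + 1) := h2
        _ = _ := by ring
    exact le_of_mul_le_mul_right h3 (by positivity)
  have hCN := CN_pos (M + 1)
  have hgoal : ∀ (x : ℕ) (y : ℕ), (x : ℝ) * R ≤ y * (β / K) →
      y ≤ AF (M + 1) q Θ H c →
      (x : ℝ) ≤ (AF (M + 1) q Θ H c : ℝ) * (β / K * (1 / (R : ℝ))) := by
    intro x y h1 h2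
    have h3 : (y : ℝ) ≤ (AF (M + 1) q Θ H c : ℝ) := by exact_mod_cast h2
    have h4 : (x : ℝ) ≤ y * (β / K) / R := by
      rw [le_div_iff₀ hR0]
      exact h1
    calc (x : ℝ) ≤ y * (β / K) / R := h4
      _ = y * (β / K * (1 / (R : ℝ))) := by ring
      _ ≤ _ := mul_le_mul_of_nonneg_right h3 (by positivity)
  obtain ⟨r, v, hrN, hv, hli, hsum, hcard⟩ := packR T b (fun j => (hb j).1)
    (fun z hz k => (hT z hz).2.1 k)
  have hcard' : ∀ J : Fin r → Fin (M + 1),
      T.card * (mnr v J).natAbs ≤ CN (M + 1) * ∏ c, b (J c) := hcard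
  rcases lt_trichotomy r M with hr | hr | hr
  · -- small rank
    left
    have hBr : (B : ℝ) ^ r * B ≤ (B : ℝ) ^ M := by
      rw [← pow_succ]
      exact pow_le_pow_right₀ hB1 hr
    by_cases hR1 : R = 1
    · obtain ⟨J, hJ⟩ := exists_minor hli
      refine hgoal _ (CN (M + 1)) ?_ ?_
      · rw [hR1, Nat.cast_one, mul_one]
        have h1 : T.card ≤ CN (M + 1) * B ^ r := by
          calc T.card = T.card * 1 := (mul_one _).symm
            _ ≤ T.card * (mnr v J).natAbs := Nat.mul_le_mul_left _ (by omega)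
            _ ≤ CN (M + 1) * ∏ c, b (J c) := hcard' J
            _ ≤ _ := Nat.mul_le_mul_left _ (prod_b_le hb J)
        have h2 : (T.card : ℝ) ≤ CN (M + 1) * (B : ℝ) ^ r := by exact_mod_cast h1
        calc (T.card : ℝ) ≤ CN (M + 1) * (B : ℝ) ^ r := h2
          _ ≤ CN (M + 1) * (β / K) := by
              refine mul_le_mul_of_nonneg_left ?_ (Nat.cast_nonneg _)
              refine le_trans ?_ hBK
              exact pow_le_pow_right₀ hB1 hr.le
      · unfold AF
        exact Nat.le_mul_of_pos_right _ (by omega)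
    · obtain ⟨p, hp, hpR⟩ := Nat.exists_prime_and_dvd hR1
      have hpP : p ∣ P := hpR.trans (PP.rd_dvd hm0)
      have hRp := hm2 p hp hpP
      obtain ⟨l, -, hl⟩ := (hp.prime.dvd_finsetProd_iff _).1 hpP
      obtain ⟨z, hz⟩ := hTne
      obtain ⟨cz, hcz⟩ := hsum z hz
      obtain ⟨a₀, ha₀⟩ : ∃ a, dot (v a) (ℓ l) ≠ 0 := by
        by_contra hcon
        push Not at hcon
        apply (hT z hz).2.2.1 l
        rw [hcz, dot_sum]
        refine Finset.sum_eq_zero fun a _ => ?_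
        rw [hcon a, mul_zero]
      have hspan := span_dot (T := (T : Set (Fin (M + 1) → ℤ))) (W := ℓ l) (m := (m l : ℤ))
        fun z hz => (hT z hz).2.2.2 l
      obtain ⟨J, hJ⟩ := exists_big_minor hli (H := H) (g.bd l) (p := p)
        (fun a => (Int.natCast_dvd_natCast.2 hl).trans (hspan _ (hv a))) ha₀
      refine hgoal _ (CN (M + 1) * ((M + 1) * H)) ?_ ?_
      · have h1 : T.card * p ≤ CN (M + 1) * ((M + 1) * H) * B ^ r := by
          calc T.card * p ≤ T.card * ((M + 1) * H * (mnr v J).natAbs) := Nat.mul_le_mul_left _ hJ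
            _ = (M + 1) * H * (T.card * (mnr v J).natAbs) := by ring
            _ ≤ (M + 1) * H * (CN (M + 1) * ∏ c, b (J c)) := Nat.mul_le_mul_left _ (hcard' J)
            _ ≤ (M + 1) * H * (CN (M + 1) * B ^ r) :=
                Nat.mul_le_mul_left _ (Nat.mul_le_mul_left _ (prod_b_le hb J))
            _ = _ := by ring
        have h2 : (T.card : ℝ) * p ≤ ((CN (M + 1) * ((M + 1) * H) : ℕ) : ℝ) * (B : ℝ) ^ r := by
          exact_mod_cast h1
        calc (T.card : ℝ) * R ≤ T.card * (K * p) := by gcongr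
          _ = K * (T.card * p) := by ring
          _ ≤ B * (((CN (M + 1) * ((M + 1) * H) : ℕ) : ℝ) * (B : ℝ) ^ r) := by gcongr
          _ = ((CN (M + 1) * ((M + 1) * H) : ℕ) : ℝ) * ((B : ℝ) ^ r * B) := by ring
          _ ≤ ((CN (M + 1) * ((M + 1) * H) : ℕ) : ℝ) * (β / K) := by
              refine mul_le_mul_of_nonneg_left ?_ (Nat.cast_nonneg _)
              exact hBr.trans hBK
      · unfold AF
        refine Nat.mul_le_mul_left _ ?_
        omega
  · -- a hyperplane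
    subst hr
    obtain ⟨V, hV0, hV1, hV2, hV3⟩ := hyp g hb T hTne (fun z hz => (hT z hz).2.2) v hv hli hsum
      hcard'
    rcases lt_or_ge (nm V) R with hlt | hge
    · right
      exact ⟨V, hV0, hV1, hV2, hlt, hV3⟩
    · left
      refine hgoal _ (CN (r + 1)) ?_ ?_
      · have h1 : (T.card : ℝ) * R ≤ CN (r + 1) * (B : ℝ) ^ r := by
          have : T.card * R ≤ CN (r + 1) * B ^ r := (Nat.mul_le_mul_left _ hge).trans hV3
          exact_mod_cast this
        exact h1.trans (mul_le_mul_of_nonneg_left hBK (Nat.cast_nonneg _))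
      · unfold AF
        exact Nat.le_mul_of_pos_right _ (by omega)
  · -- full rank
    obtain rfl : r = M + 1 := by omega
    left
    obtain ⟨z₀, hz₀⟩ := hTne
    have hD : (Matrix.of v).det ≠ 0 := by
      have h1 := (li_rat hli)
      have h2 : LinearIndependent ℚ ((Matrix.of v).map (Int.cast : ℤ → ℚ)).row := h1
      rw [Matrix.linearIndependent_rows_iff_isUnit, Matrix.isUnit_iff_isUnit_det, ← det_cast] at h2
      intro h0
      rw [h0] at h2
      simp at h2
    have h1 := prod_dvd g hc hm0 (T := (T : Set (Fin (M + 1) → ℤ))) (fun z hz => (hT z hz).2.2.2) hz₀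
      (hT z₀ hz₀).1 hv hD
    have hD' : 0 < (Matrix.of v).det.natAbs := by omega
    have hΘ := g.Θ1
    have h2 : P ≤ (Θ * c) ^ q * (Matrix.of v).det.natAbs := Nat.le_of_dvd (by positivity) h1
    have h3 : T.card * P ≤ (CN (M + 1) * (Θ * c) ^ q) * ∏ j, b j := by
      have h4 := hcard' (fun j => j)
      calc T.card * P ≤ T.card * ((Θ * c) ^ q * (Matrix.of v).det.natAbs) := by gcongr
        _ = (Θ * c) ^ q * (T.card * (Matrix.of v).det.natAbs) := by ring
        _ ≤ (Θ * c) ^ q * (CN (M + 1) * ∏ j, b j) := Nat.mul_le_mul_left _ h4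
        _ = _ := by ring
    refine hgoal _ (CN (M + 1) * (Θ * c) ^ q) ?_ ?_
    · have h4 : (T.card : ℝ) * P ≤ ((CN (M + 1) * (Θ * c) ^ q : ℕ) : ℝ) * β := by
        rw [hβ]
        exact_mod_cast h3
      rw [← mul_div_assoc, le_div_iff₀ hK0]
      calc (T.card : ℝ) * R * K = (T.card : ℝ) * (K * R) := by ring
        _ ≤ (T.card : ℝ) * P := by gcongr
        _ ≤ _ := h4
    · unfold AF
      refine Nat.mul_le_mul_left _ ?_
      omega

end Pool.Agent.K4H9.PN
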