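import Pool.Agent.K4H9.PN.Z

set_option autoImplicit false

/-!
The number of integer points in a box at which the product of the linear forms is much larger than
its radical.
-/

namespace Pool.Agent.K4H9.PN

open Finset

variable {N q : ℕ} {ℓ : Fin q → Fin N → ℤ} {Θ H : ℕ}

lemma rd_le_mul_prime {P : ℕ} (hP : P ≠ 0) {K : ℝ}
    (h : ∀ p : ℕ, p.Prime → p ∣ P → p ^ 2 ∣ P ∧ (P : ℝ) ≤ K * (PP.rd P : ℝ) * p) (p : ℕ)
    (hp : p.Prime) (hpP : p ∣ P) : (PP.rd P : ℝ) ≤ K * p := by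
  have hR0 : (0 : ℝ) < PP.rd P := by exact_mod_cast PP.rd_pos P
  have hR2 : PP.rd P ^ 2 ∣ P := by
    have h1 : ((PP.rd P : ℕ) : ℤ) ^ 2 ∣ (P : ℤ) := by
      refine PP.sqf_dvd (PP.rd_squarefree _) 2 fun p hp hpR => ?_
      have := (h p hp (hpR.trans (PP.rd_dvd hP))).1
      exact_mod_cast this
    exact_mod_cast h1
  have h3 : PP.rd P ^ 2 ≤ P := Nat.le_of_dvd (Nat.pos_of_ne_zero hP) hR2
  have h4 : (PP.rd P : ℝ) ^ 2 ≤ (P : ℝ) := by exact_mod_cast h3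
  have h5 := h4.trans (h p hp hpP).2
  have h6 : (PP.rd P : ℝ) * PP.rd P ≤ (K * p) * PP.rd P := by nlinarith
  exact le_of_mul_le_mul_right h6 hR0

theorem zthm (g : GP ℓ Θ H) {c : ℕ} (hc : 1 ≤ c) {ε : ℝ} (hε : 0 < ε) :
    ∃ C : ℝ, 0 < C ∧ ∀ B : ℕ, 1 ≤ B → ∀ b : Fin N → ℕ, (∀ j, 1 ≤ b j ∧ b j ≤ B) →
      ∀ K : ℝ, 1 ≤ K → K * (B : ℝ) ^ (N - 1) ≤ ((∏ j, b j : ℕ) : ℝ) →
      ∀ T : Finset (Fin N → ℤ), (∀ z ∈ T, Cont c z ∧ (∀ k, |z k| ≤ b k) ∧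
        (∀ l, dot z (ℓ l) ≠ 0) ∧ K * (PP.rd (∏ l, (dot z (ℓ l)).natAbs) : ℝ) ≤
          ((∏ l, (dot z (ℓ l)).natAbs : ℕ) : ℝ)) →
      (T.card : ℝ) ≤ C * (B : ℝ) ^ ε * (((∏ j, b j : ℕ) : ℝ) / K) := by
  classical
  have hN3 := g.N3
  have hN0 : (0 : ℝ) < N := by exact_mod_cast (by omega : 0 < N)
  have hε2 : 0 < ε / N := by positivity
  obtain ⟨C₁, hC₁0, hC₁⟩ := PP.sum_inv_rd q hε
  obtain ⟨C₂, hC₂0, hC₂⟩ := sumM g hε2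
  have hH := g.H1
  have hΘ1 := g.Θ1
  have hCN := CN_pos N
  set A : ℕ := AF N q Θ H c with hA
  have hA0 : 0 < A := by
    rw [hA]
    unfold AF
    exact Nat.mul_pos hCN (by omega)
  refine ⟨A * C₁ * ((N * H : ℕ) : ℝ) ^ ε + CN N * C₂ * (CN N : ℝ) ^ (ε / N), by positivity,
    fun B hB b hb K hK hKb T hT => ?_⟩
  set β : ℝ := ((∏ j, b j : ℕ) : ℝ) with hβ
  have hB1 : (1 : ℝ) ≤ B := by exact_mod_cast hB
  have hB0 : (0 : ℝ) < B := by linarith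
  have hK0 : 0 < K := by linarith
  have hBK : (B : ℝ) ^ (N - 1) ≤ β / K := by
    rw [le_div_iff₀ hK0]
    linarith
  have hβ0 : 0 < β / K := lt_of_lt_of_le (by positivity) hBK
  set X : ℕ := N * H * B with hX
  have hX1 : 1 ≤ X := by
    rw [hX]
    have : 0 < N * H * B := Nat.mul_pos (Nat.mul_pos (by omega) hH) hB
    exact this
  -- the minimal tuples
  have hex : ∀ z ∈ T, ∃ m : Fin q → ℕ, (∀ l, m l ∣ (dot z (ℓ l)).natAbs) ∧ (∏ l, m l) ≠ 0 ∧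
      K * (PP.rd (∏ l, m l) : ℝ) ≤ ((∏ l, m l : ℕ) : ℝ) ∧
      ∀ p : ℕ, p.Prime → p ∣ ∏ l, m l → p ^ 2 ∣ ∏ l, m l ∧
        ((∏ l, m l : ℕ) : ℝ) ≤ K * (PP.rd (∏ l, m l) : ℝ) * p := by
    intro z hz
    obtain ⟨-, -, h1, h2⟩ := hT z hz
    exact PP.exists_min (fun l => by simpa using h1 l) hK h2
  choose! m hm1 hm2 hm3 hm4 using hex
  have hmX : ∀ z ∈ T, ∀ l, 1 ≤ m z l ∧ m z l ≤ X := by
    intro z hz l
    have h1 : (dot z (ℓ l)).natAbs ≠ 0 := by simpa using (hT z hz).2.2.1 l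
    refine ⟨Nat.pos_of_ne_zero ?_, ?_⟩
    · intro h0
      exact hm2 z hz (Finset.prod_eq_zero (mem_univ l) h0)
    · refine (Nat.le_of_dvd (Nat.pos_of_ne_zero h1) (hm1 z hz l)).trans ?_
      refine dot_le g (fun k => ((hT z hz).2.1 k).trans ?_) l
      exact_mod_cast (hb k).2
  set MM := T.image m with hMM
  have hMM1 : ∀ μ ∈ MM, ∏ l, μ l ≠ 0 ∧ K * (PP.rd (∏ l, μ l) : ℝ) ≤ ((∏ l, μ l : ℕ) : ℝ) ∧
      (∀ p : ℕ, p.Prime → p ∣ ∏ l, μ l → (PP.rd (∏ l, μ l) : ℝ) ≤ K * p) ∧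
      (∀ p : ℕ, p.Prime → p ∣ ∏ l, μ l → p ^ 2 ∣ ∏ l, μ l) ∧
      μ ∈ Fintype.piFinset (fun _ : Fin q => Icc 1 X) := by
    intro μ hμ
    obtain ⟨z, hz, rfl⟩ := mem_image.1 hμ
    refine ⟨hm2 z hz, hm3 z hz, rd_le_mul_prime (hm2 z hz) (hm4 z hz),
      fun p hp hpd => (hm4 z hz p hp hpd).1, ?_⟩
    rw [Fintype.mem_piFinset]
    intro l
    rw [mem_Icc]
    exact hmX z hz l
  set Tf : (Fin q → ℕ) → Finset (Fin N → ℤ) := fun μ => T.filter fun z => m z = μ with hTf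
  have hTfne : ∀ μ ∈ MM, (Tf μ).Nonempty := by
    intro μ hμ
    obtain ⟨z, hz, rfl⟩ := mem_image.1 hμ
    exact ⟨z, mem_filter.2 ⟨hz, rfl⟩⟩
  have hcardT : T.card = ∑ μ ∈ MM, (Tf μ).card :=
    Finset.card_eq_sum_card_fiberwise fun z hz => mem_image_of_mem m hz
  have halt : ∀ μ ∈ MM, ((Tf μ).card : ℝ) ≤ (A : ℝ) * (β / K * (1 / (PP.rd (∏ l, μ l) : ℝ))) ∨
      ∃ V : Fin N → ℤ, V ≠ 0 ∧ (∀ l, ∃ i j, mn V (ℓ l) i j ≠ 0) ∧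
        (∀ l i j, (μ l : ℤ) ∣ Θ * mn V (ℓ l) i j) ∧
        nm V < PP.rd (∏ l, μ l) ∧ (Tf μ).card * nm V ≤ CN N * B ^ (N - 1) := by
    intro μ hμ
    obtain ⟨h1, h2, h3, -, -⟩ := hMM1 μ hμ
    refine fibre g hc hB hb hK hKb h1 h2 h3 (Tf μ) (hTfne μ hμ) fun z hz => ?_
    rw [hTf, mem_filter] at hz
    obtain ⟨hz1, rfl⟩ := hz
    obtain ⟨h4, h5, h6, -⟩ := hT z hz1
    exact ⟨h4, h5, h6, fun l => Int.natCast_dvd.2 (hm1 z hz1 l)⟩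
  set M1 := MM.filter fun μ => ((Tf μ).card : ℝ) ≤
    (A : ℝ) * (β / K * (1 / (PP.rd (∏ l, μ l) : ℝ))) with hM1
  set M2 := MM.filter fun μ => ¬ ((Tf μ).card : ℝ) ≤
    (A : ℝ) * (β / K * (1 / (PP.rd (∏ l, μ l) : ℝ))) with hM2
  have hsplit : ∑ μ ∈ MM, ((Tf μ).card : ℝ) = ∑ μ ∈ M1, ((Tf μ).card : ℝ) +
      ∑ μ ∈ M2, ((Tf μ).card : ℝ) := (Finset.sum_filter_add_sum_filter_not _ _ _).symm
  have hs1 : ∑ μ ∈ M1, ((Tf μ).card : ℝ) ≤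
      (A * C₁ * ((N * H : ℕ) : ℝ) ^ ε) * (B : ℝ) ^ ε * (β / K) := by
    calc ∑ μ ∈ M1, ((Tf μ).card : ℝ) ≤
          ∑ μ ∈ M1, (A : ℝ) * (β / K * (1 / (PP.rd (∏ l, μ l) : ℝ))) :=
          Finset.sum_le_sum fun μ hμ => (mem_filter.1 hμ).2
      _ = (A : ℝ) * (β / K) * ∑ μ ∈ M1, 1 / (PP.rd (∏ l, μ l) : ℝ) := by
          rw [Finset.mul_sum]
          exact Finset.sum_congr rfl fun _ _ => by ring
      _ ≤ (A : ℝ) * (β / K) * (C₁ * (X : ℝ) ^ ε) := by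
          refine mul_le_mul_of_nonneg_left ?_ (by positivity)
          refine le_trans ?_ (hC₁ X hX1)
          refine Finset.sum_le_sum_of_subset_of_nonneg ?_ fun _ _ _ => by positivity
          intro μ hμ
          exact (hMM1 μ (mem_filter.1 hμ).1).2.2.2.2
      _ = _ := by
          have : (X : ℝ) = ((N * H : ℕ) : ℝ) * B := by rw [hX]; push_cast; ring
          rw [this, Real.mul_rpow (Nat.cast_nonneg _) hB0.le]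
          ring
  have hs2 : ∑ μ ∈ M2, ((Tf μ).card : ℝ) ≤
      (CN N * C₂ * (CN N : ℝ) ^ (ε / N)) * (B : ℝ) ^ ε * (β / K) := by
    have hex2 : ∀ μ ∈ M2, ∃ V : Fin N → ℤ, V ≠ 0 ∧ (∀ l, ∃ i j, mn V (ℓ l) i j ≠ 0) ∧
        (∀ l i j, (μ l : ℤ) ∣ Θ * mn V (ℓ l) i j) ∧
        nm V < PP.rd (∏ l, μ l) ∧ (Tf μ).card * nm V ≤ CN N * B ^ (N - 1) := by
      intro μ hμ
      rw [hM2, mem_filter] at hμ
      exact (halt μ hμ.1).resolve_left hμ.2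
    choose! V hV1 hV2 hV3 hV4 hV5 using hex2
    have hW1 : 1 ≤ CN N * B ^ (N - 1) := by
      have : 0 < CN N * B ^ (N - 1) := Nat.mul_pos hCN (by positivity)
      exact this
    have h1 := hC₂ (CN N * B ^ (N - 1)) hW1 M2 V (by
      intro μ hμ
      have hμ' : μ ∈ MM := (mem_filter.1 hμ).1
      obtain ⟨h2, -, -, h3, -⟩ := hMM1 μ hμ'
      refine ⟨h2, h3, hV1 μ hμ, ?_, hV2 μ hμ, hV3 μ hμ, hV4 μ hμ⟩
      refine le_trans ?_ (hV5 μ hμ)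
      exact Nat.le_mul_of_pos_left _ (Finset.card_pos.2 (hTfne μ hμ')))
    have hpow : ((CN N * B ^ (N - 1) : ℕ) : ℝ) ^ (ε / N) ≤ (CN N : ℝ) ^ (ε / N) * (B : ℝ) ^ ε := by
      push_cast
      rw [Real.mul_rpow (Nat.cast_nonneg _) (by positivity), ← Real.rpow_natCast (B : ℝ) (N - 1),
        ← Real.rpow_mul hB0.le]
      refine mul_le_mul_of_nonneg_left ?_ (by positivity)
      refine Real.rpow_le_rpow_of_exponent_le hB1 ?_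
      have h2 : ((N - 1 : ℕ) : ℝ) ≤ N := by exact_mod_cast Nat.sub_le N 1
      calc ((N - 1 : ℕ) : ℝ) * (ε / N) ≤ N * (ε / N) := by gcongr
        _ = ε := by field_simp
    calc ∑ μ ∈ M2, ((Tf μ).card : ℝ) ≤
          ∑ μ ∈ M2, CN N * (B : ℝ) ^ (N - 1) * (1 / (nm (V μ) : ℝ)) := by
          refine Finset.sum_le_sum fun μ hμ => ?_
          have h2 : (0 : ℝ) < nm (V μ) := by exact_mod_cast nm_pos (hV1 μ hμ)
          rw [mul_one_div, le_div_iff₀ h2]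
          exact_mod_cast hV5 μ hμ
      _ = CN N * (B : ℝ) ^ (N - 1) * ∑ μ ∈ M2, 1 / (nm (V μ) : ℝ) := by rw [Finset.mul_sum]
      _ ≤ CN N * (B : ℝ) ^ (N - 1) * (C₂ * ((CN N * B ^ (N - 1) : ℕ) : ℝ) ^ (ε / N)) := by
          gcongr
      _ ≤ CN N * (B : ℝ) ^ (N - 1) * (C₂ * ((CN N : ℝ) ^ (ε / N) * (B : ℝ) ^ ε)) := by
          gcongr
      _ = CN N * C₂ * (CN N : ℝ) ^ (ε / N) * (B : ℝ) ^ ε * (B : ℝ) ^ (N - 1) := by ring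
      _ ≤ _ := by gcongr
  rw [hcardT]
  push_cast
  rw [hsplit]
  calc _ ≤ (A * C₁ * ((N * H : ℕ) : ℝ) ^ ε) * (B : ℝ) ^ ε * (β / K) +
        (CN N * C₂ * (CN N : ℝ) ^ (ε / N)) * (B : ℝ) ^ ε * (β / K) := add_le_add hs1 hs2
    _ = _ := by push_cast; ring

end Pool.Agent.K4H9.PN
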